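import Pool.Agent.H29.HK.Defs
import Pool.Graph.R_seed8.W555.KS.Core

/-!
# The core identity from the combinatorial sums
-/

set_option autoImplicit false

namespace Pool.Agent.H29.HK

open Finset MvPolynomial Pool.Agent.W555.KS Pool.Agent.W646.KS

section

variable {k R : Type} [Field k] [CharP k 2] [CommRing R] [Algebra k R] {n q b : ℕ}

/-- the symmetric cycle on pairs of `(q+1)`-sets -/
noncomputable def sZ (a : Fin (2 * (q + 1)) → Fin n → k) (x : Fin n → R) (M : R →ₗ[k] k)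
    (σ τ : Finset (Fin n)) : k :=
  bra a (σ ∪ τ) * M (∏ v ∈ σ, x v) * M (∏ v ∈ τ, x v)

omit [CharP k 2] in
theorem sZ_symm (a : Fin (2 * (q + 1)) → Fin n → k) (x : Fin n → R) (M : R →ₗ[k] k)
    (σ τ : Finset (Fin n)) : sZ a x M σ τ = sZ a x M τ σ := by
  unfold sZ
  rw [union_comm]
  ring

theorem sZ_cycle (a : Fin (2 * (q + 1)) → Fin n → k) (x : Fin n → R) (M : R →ₗ[k] k)
    (ha : ∀ i, ∑ v, a i v • x v = 0) (ρ τ : Finset (Fin n)) (hd : Disjoint ρ τ)
    (hρ : ρ.card = q) (hτ : τ.card = q + 1) :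
    ∑ v ∈ (ρ ∪ τ)ᶜ, sZ a x M (insert v ρ) τ = 0 := by
  have h := half_sum (d := 2 * q + 1) W837.KS.exp (q + 1) (a : Fin (2 * q + 1 + 1) → Fin n → k) x M 0
    (fun i => ha _) (ha _).symm ρ τ hd (by omega)
  have e : ∀ v ∈ (ρ ∪ τ)ᶜ, Zc (d := 2 * q + 1) (q + 1) (a : Fin (2 * q + 1 + 1) → Fin n → k) x M 0
      (insert v ρ) τ = sZ a x M (insert v ρ) τ := by
    intro v hv
    rw [mem_compl, mem_union, not_or] at hv
    have hcv : (insert v ρ).card = q + 1 := by rw [card_insert_of_notMem hv.1, hρ]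
    unfold Zc mv sZ
    rw [if_pos ⟨disjoint_insert_left.2 ⟨hv.2, hd⟩, by omega, by omega, by omega⟩, hcv, hτ,
      Nat.sub_self, pow_zero, one_mul, one_mul]
  rw [← sum_congr rfl e, h]
  have h0 : mv (q + 1) x M 0 ρ = 0 := by
    unfold mv
    rw [hρ, Nat.add_sub_cancel_left, pow_one, zero_mul, map_zero]
  rw [h0]
  simp

/-- rearrangement of a sum over flags -/
theorem flags {A : Type} [AddCommMonoid A]
    (g : Finset (Fin n) → Finset (Fin n) → Fin n → A) :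
    ∑ p ∈ pairs n (q + 1), ∑ v ∈ p.1, g (p.1.erase v) p.2 v =
      ∑ p ∈ (univ : Finset (Finset (Fin n) × Finset (Fin n))).filter
        (fun p => p.1.card = q ∧ p.2.card = q + 1 ∧ Disjoint p.1 p.2),
        ∑ v ∈ (p.1 ∪ p.2)ᶜ, g p.1 p.2 v := by
  rw [sum_sigma', sum_sigma']
  refine sum_bij' (fun x _ => ⟨(x.1.1.erase x.2, x.1.2), x.2⟩)
    (fun x _ => ⟨(insert x.2 x.1.1, x.1.2), x.2⟩) ?_ ?_ ?_ ?_ ?_
  · rintro ⟨⟨σ, τ⟩, v⟩ h
    simp only [pairs, mem_sigma, mem_filter, mem_univ, true_and, mem_compl, mem_union,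
      not_or, mem_erase] at h ⊢
    obtain ⟨⟨h1, h2, h3⟩, h4⟩ := h
    refine ⟨⟨?_, h2, h3.mono_left (erase_subset _ _)⟩, fun h => h.1 rfl, fun h => ?_⟩
    · rw [card_erase_of_mem h4]; omega
    · exact disjoint_left.1 h3 h4 h
  · rintro ⟨⟨ρ, τ⟩, v⟩ h
    simp only [pairs, mem_sigma, mem_filter, mem_univ, true_and, mem_compl, mem_union,
      not_or] at h ⊢
    obtain ⟨⟨h1, h2, h3⟩, h4, h5⟩ := h
    refine ⟨⟨?_, h2, disjoint_insert_left.2 ⟨h5, h3⟩⟩, mem_insert_self _ _⟩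
    rw [card_insert_of_notMem h4]; omega
  · rintro ⟨⟨σ, τ⟩, v⟩ h
    simp only [pairs, mem_sigma, mem_filter, mem_univ, true_and] at h
    simp only [insert_erase h.2]
  · rintro ⟨⟨ρ, τ⟩, v⟩ h
    simp only [mem_sigma, mem_filter, mem_univ, true_and, mem_compl, mem_union, not_or] at h
    simp only [erase_insert h.2.1]
  · rintro ⟨⟨σ, τ⟩, v⟩ h
    rfl

theorem core (hfirst : SFirst) (halt : SAlt) (hE2 : SE2) (hfac : SFac) : SCore := by
  intro k R _ _ _ _ n q b a x M F Q y φ hq hD ha hface hz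
  have halg := halg' k R n (q + 1) a x M (fun i _ => ha i)
  rw [← halg]
  have hc2 : ∀ t : k, t + t = 0 := fun t => CharTwo.add_self_eq_zero t
  have e1 : ∑ U ∈ powersetCard (2 * (q + 1)) univ,
      bra a U * M (∏ v ∈ evenPart U, x v) * M (∏ v ∈ oddPart U, x v) =
      ∑ U ∈ powersetCard (2 * (q + 1)) univ, sZ a x M (evenPart U) (oddPart U) := by
    refine sum_congr rfl fun U _ => ?_
    unfold sZ
    rw [even_odd_union]
  rw [e1, halt k n (q + 1) (sZ a x M) (by omega)]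
  -- the criterion
  have e2 : ∀ p ∈ fpairs n (q + 1), cst k (alt p.1 p.2) * sZ a x M p.1 p.2 =
      (cst k (∑ v ∈ p.1, φ (p.1.erase v) p.2) * sZ a x M p.1 p.2 +
        cst k (∑ v ∈ p.2, φ (p.2.erase v) p.1) * sZ a x M p.2 p.1) +
      Gf x Q y M p.1 p.2 * bra a (p.1 ∪ p.2) := by
    rintro ⟨σ, τ⟩ hp
    simp only [fpairs, pairs, mem_filter, mem_univ, true_and] at hp
    obtain ⟨⟨h1, h2, h3⟩, -⟩ := hp
    simp only
    have key : Gf x Q y M σ τ * bra a (σ ∪ τ) =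
        cst k (∑ i, ∑ j, y σ i * Q i j * y τ j) * sZ a x M σ τ := by
      unfold Gf sZ; ring
    rw [key, sZ_symm a x M τ σ]
    by_cases hσ : M (∏ v ∈ σ, x v) = 0
    · have : sZ a x M σ τ = 0 := by unfold sZ; rw [hσ]; ring
      rw [this]; ring
    by_cases hτ : M (∏ v ∈ τ, x v) = 0
    · have : sZ a x M σ τ = 0 := by unfold sZ; rw [hτ]; ring
      rw [this]; ring
    have h := hD.2 σ (hface σ h1 hσ) τ (hface τ h2 hτ) h3
    rw [← h, map_add, map_add]
    have h4 := hc2 (cst k (∑ v ∈ σ, φ (σ.erase v) τ) * sZ a x M σ τ)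
    have h5 := hc2 (cst k (∑ v ∈ τ, φ (τ.erase v) σ) * sZ a x M σ τ)
    linear_combination (-1 : k) * h4 - h5
  rw [sum_congr rfl e2, sum_add_distrib]
  have e3 : ∑ p ∈ fpairs n (q + 1), Gf x Q y M p.1 p.2 * bra a (p.1 ∪ p.2) = 0 := by
    rw [← hE2 k n (q + 1) a (Fin.last (2 * q + 1)) (Gf x Q y M) (by omega) ?_]
    · refine sum_eq_zero fun I hI => ?_
      rw [mem_filter] at hI
      exact hfac k R n (q + 1) b a x M Q y I (hz I hI.1 hI.2)
    · intro σ τ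
      unfold Gf
      have : ∑ i, ∑ j, y σ i * Q i j * y τ j = ∑ i, ∑ j, y τ i * Q i j * y σ j := by
        rw [sum_comm]
        refine sum_congr rfl fun i _ => sum_congr rfl fun j _ => ?_
        rw [← hD.1.apply i j]
        ring
      rw [this]
      ring
  rw [e3, add_zero, hfirst k n (q + 1) (fun σ τ => cst k (∑ v ∈ σ, φ (σ.erase v) τ) * sZ a x M σ τ)
    (by omega)]
  have e4 : ∑ p ∈ pairs n (q + 1), cst k (∑ v ∈ p.1, φ (p.1.erase v) p.2) * sZ a x M p.1 p.2 =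
      ∑ p ∈ pairs n (q + 1), ∑ v ∈ p.1,
        cst k (φ (p.1.erase v) p.2) * sZ a x M (insert v (p.1.erase v)) p.2 := by
    refine sum_congr rfl fun p _ => ?_
    rw [map_sum, sum_mul]
    refine sum_congr rfl fun v hv => ?_
    rw [insert_erase hv]
  rw [e4, flags (fun ρ τ v => cst k (φ ρ τ) * sZ a x M (insert v ρ) τ)]
  refine sum_eq_zero ?_
  rintro ⟨ρ, τ⟩ hp
  simp only [mem_filter, mem_univ, true_and] at hp
  rw [← mul_sum, sZ_cycle a x M ha ρ τ hp.2.2 hp.1 hp.2.1, mul_zero]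

end

end Pool.Agent.H29.HK
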