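import Pool.Agent.H29.HK.Defs2

/-!
# The coloured inequality from its parts
-/

set_option autoImplicit false

namespace Pool.Agent.H29.HK

open Finset MvPolynomial Pool.Agent.W555.KS

section

variable {k R : Type} [Field k] [CharP k 2] [CommRing R] [Algebra k R] {n m b : ℕ}

theorem zI_add (a : Fin (2 * m) → Fin n → k) (x : Fin n → R)
    (y : Finset (Fin n) → Fin b → ZMod 2) (M M' : R →ₗ[k] k) (I : Finset (Fin (2 * m)))
    (j : Fin b) : zI a x y (M + M') I j = zI a x y M I j + zI a x y M' I j := by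
  unfold zI
  rw [← sum_add_distrib]
  refine sum_congr rfl fun h _ => ?_
  split_ifs
  · rw [LinearMap.add_apply]; ring
  · ring

theorem zI_smul (a : Fin (2 * m) → Fin n → k) (x : Fin n → R)
    (y : Finset (Fin n) → Fin b → ZMod 2) (s : k) (M : R →ₗ[k] k) (I : Finset (Fin (2 * m)))
    (j : Fin b) : zI a x y (s • M) I j = s * zI a x y M I j := by
  unfold zI
  rw [mul_sum]
  refine sum_congr rfl fun h _ => ?_
  split_ifs
  · rw [LinearMap.smul_apply, smul_eq_mul]; ring
  · ring

/-- `zI` as a linear map -/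
noncomputable def zL (a : Fin (2 * m) → Fin n → k) (x : Fin n → R)
    (y : Finset (Fin n) → Fin b → ZMod 2) (I : Finset (Fin (2 * m))) (j : Fin b) :
    (R →ₗ[k] k) →ₗ[k] k where
  toFun M := zI a x y M I j
  map_add' M M' := zI_add a x y M M' I j
  map_smul' s M := zI_smul a x y s M I j

end

/-- coefficient functional -/
noncomputable def Mf {k : Type} [Field k] {n : ℕ} (Ω : Finset (Fin n →₀ ℕ)) :
    ({ω // ω ∈ Ω} → k) →ₗ[k] (MvPolynomial (Fin n) k →ₗ[k] k) where
  toFun N := ∑ ω, N ω • lcoeff k ω.1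
  map_add' N N' := by
    rw [← sum_add_distrib]
    exact sum_congr rfl fun ω _ => by rw [Pi.add_apply, add_smul]
  map_smul' s N := by
    rw [RingHom.id_apply, smul_sum]
    exact sum_congr rfl fun ω _ => by rw [Pi.smul_apply, smul_eq_mul, mul_smul]

theorem Mf_apply {k : Type} [Field k] {n : ℕ} (Ω : Finset (Fin n →₀ ℕ)) (N : {ω // ω ∈ Ω} → k)
    (p : MvPolynomial (Fin n) k) : Mf Ω N p = ∑ ω, N ω * coeff ω.1 p := by
  unfold Mf
  simp [LinearMap.sum_apply]

theorem exists_e {n c : ℕ} (κ : Fin n → Fin c) (t : Fin c → ℕ) (q : ℕ)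
    (hq : ∑ j, t j = q + 1) (hN : ∀ j, 2 * t j ≤ cls κ j) :
    ∃ e : Fin (2 * (q + 1)) → Fin n, Function.Injective e ∧
      ∀ j, (univ.filter (fun i => κ (e i) = j)).card = 2 * t j := by
  classical
  have hA : ∀ j, ∃ A ⊆ (univ.filter (fun v => κ v = j)), A.card = 2 * t j := fun j =>
    exists_subset_card_eq (hN j)
  choose A hA1 hA2 using hA
  set U : Finset (Fin n) := univ.filter (fun v => v ∈ A (κ v)) with hU
  have hUj : ∀ j, U.filter (fun v => κ v = j) = A j := by
    intro j
    ext v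
    simp only [hU, mem_filter, mem_univ, true_and]
    constructor
    · rintro ⟨h1, rfl⟩; exact h1
    · intro h
      have := hA1 j h
      simp only [mem_filter, mem_univ, true_and] at this
      subst this
      exact ⟨h, rfl⟩
  have hUc : U.card = 2 * (q + 1) := by
    rw [card_eq_sum_card_fiberwise (f := κ) (t := univ) (fun v _ => mem_univ _), ← hq, mul_sum]
    exact sum_congr rfl fun j _ => by rw [hUj, hA2]
  refine ⟨fun i => U.orderEmbOfFin hUc i, (U.orderEmbOfFin hUc).injective, fun j => ?_⟩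
  rw [← hA2 j, ← hUj j]
  refine card_bij' (fun i _ => U.orderEmbOfFin hUc i)
    (fun v hv => (U.orderIsoOfFin hUc).symm ⟨v, (mem_filter.1 hv).1⟩) ?_ ?_ ?_ ?_
  · intro i hi
    rw [mem_filter] at hi ⊢
    exact ⟨U.orderEmbOfFin_mem hUc i, hi.2⟩
  · intro v hv
    rw [mem_filter]
    refine ⟨mem_univ _, ?_⟩
    have h8 := (U.orderIsoOfFin hUc).apply_symm_apply ⟨v, (mem_filter.1 hv).1⟩
    exact (congrArg κ (congrArg Subtype.val h8)).trans (mem_filter.1 hv).2
  · intro i hi
    exact (U.orderIsoOfFin hUc).symm_apply_apply i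
  · intro v hv
    have := (U.orderIsoOfFin hUc).apply_symm_apply ⟨v, (mem_filter.1 hv).1⟩
    exact congrArg Subtype.val this

theorem typed (hcore : SCore) (hkill : SKill) (helim : SElim) (htypes : STypes)
    (homega : SOmega) (hhalf : SHalf) (hmulti : SMulti) : STyped := by
  classical
  intro n c b κ t F Q y φ h2 hF hD
  by_cases hN : ∀ j, 2 * t j ≤ cls κ j
  swap
  · push Not at hN
    obtain ⟨j, hj⟩ := hN
    have h0 : ∏ j, (cls κ j - t j - 1).choose (t j) = 0 :=
      prod_eq_zero (mem_univ j) (Nat.choose_eq_zero_of_lt (by omega))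
    have h1 := card_le_card hF
    rw [htypes] at h1
    rw [h0]
    omega
  obtain ⟨q, hq⟩ : ∃ q, ∑ j, t j = q + 1 := ⟨∑ j, t j - 1, by omega⟩
  obtain ⟨e, he, hej⟩ := exists_e κ t q hq hN
  set r : Fin (2 * (q + 1)) → Fin c := fun i => κ (e i) with hr
  obtain ⟨B, hB1, hB2, hB3⟩ := helim n (2 * (q + 1)) c κ r e he (fun i => rfl)
  obtain ⟨Ω, hΩ, hΩ2⟩ := homega n c (2 * (q + 1)) κ t e he hej
  let k := Kf (2 * (q + 1)) n
  let x : Fin n → MvPolynomial (Fin n) k := fun v => ∑ w, B v w • X w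
  have hrel : ∀ i, ∑ v, pat κ r i v • x v = 0 := by
    intro i
    simp only [x, smul_sum, smul_smul]
    rw [sum_comm]
    refine sum_eq_zero fun w _ => ?_
    rw [← sum_smul, hB1, zero_smul]
  set TF := tsets κ t \ F with hTF
  set HI := (tsets r t).filter (fun I => Fin.last (2 * q + 1) ∉ I) with hHI
  let Ψ : ({ω // ω ∈ Ω} → k) →ₗ[k] (({σ // σ ∈ TF} ⊕ ({I // I ∈ HI} × Fin b)) → k) :=
    LinearMap.pi (fun s => match s with
      | Sum.inl σ => (LinearMap.applyₗ (∏ v ∈ σ.1, x v)).comp (Mf Ω)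
      | Sum.inr p => (zL (pat κ r) x y p.1.1 p.2).comp (Mf Ω))
  by_contra hcon
  push Not at hcon
  have hc1 : TF.card + F.card = (tsets κ t).card := card_sdiff_add_card_eq_card hF
  rw [htypes] at hc1
  have hc2 := hhalf (q + 1) c r t (Fin.last (2 * q + 1)) hej
  rw [← hHI] at hc2
  have hlt : Module.finrank k (({σ // σ ∈ TF} ⊕ ({I // I ∈ HI} × Fin b)) → k) <
      Module.finrank k ({ω // ω ∈ Ω} → k) := by
    rw [Module.finrank_fintype_fun_eq_card, Module.finrank_fintype_fun_eq_card,
      Fintype.card_sum, Fintype.card_prod, Fintype.card_coe, Fintype.card_coe, Fintype.card_coe,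
      Fintype.card_fin]
    have h3 : 2 * (HI.card * b) = (∏ j, (2 * t j).choose (t j)) * b := by
      rw [← hc2]; ring
    omega
  obtain ⟨N, hN1, hN0⟩ := (Submodule.ne_bot_iff _).1 (LinearMap.ker_ne_bot_of_finrank_lt (f := Ψ) hlt)
  rw [LinearMap.mem_ker] at hN1
  set M := Mf Ω N with hM
  have hMT : ∀ σ ∈ TF, M (∏ v ∈ σ, x v) = 0 := by
    intro σ hσ
    have := congrFun hN1 (Sum.inl ⟨σ, hσ⟩)
    exact this
  have hMI : ∀ I ∈ HI, ∀ j, zI (pat κ r) x y M I j = 0 := by
    intro I hI j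
    have := congrFun hN1 (Sum.inr (⟨I, hI⟩, j))
    exact this
  have hMt : ∀ σ, M (∏ v ∈ σ, x v) ≠ 0 → σ ∈ tsets κ t := by
    intro σ hσ
    rw [hM, Mf_apply] at hσ
    obtain ⟨ω, -, hω⟩ := exists_ne_zero_of_sum_ne_zero hσ
    exact hmulti k n c κ t B hB3 ω.1 (hΩ2 ω.1 ω.2).2 σ (right_ne_zero_of_mul hω)
  have hface : ∀ σ : Finset (Fin n), σ.card = q + 1 → M (∏ v ∈ σ, x v) ≠ 0 → σ ∈ F := by
    intro σ _ hσ
    by_contra hσF
    exact hσ (hMT σ (mem_sdiff.2 ⟨hMt σ hσ, hσF⟩))
  have hz : ∀ I ∈ powersetCard (q + 1) (univ : Finset (Fin (2 * (q + 1)))), Fin.last _ ∉ I →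
      ∀ j, zI (pat κ r) x y M I j = 0 := by
    intro I hI hl j
    by_cases hIt : I ∈ tsets r t
    · exact hMI I (mem_filter.2 ⟨hIt, hl⟩) j
    rw [mem_powersetCard] at hI
    unfold zI
    refine sum_eq_zero fun h _ => ?_
    by_contra hne
    have h1 := left_ne_zero_of_mul hne
    have h3 := right_ne_zero_of_mul hne
    split_ifs at h3 with hcard
    · have h4 := hMt _ (right_ne_zero_of_mul h3)
      rw [prod_ne_zero_iff] at h1
      have h5 : ∀ i : {i // i ∈ I}, κ (h i) = r i.1 := by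
        intro i
        have := h1 i (mem_univ _)
        unfold pat at this
        by_contra hc
        rw [if_neg hc] at this
        exact this rfl
      have hinj : Function.Injective h := by
        have hh : (univ.image h).card = (univ : Finset {i // i ∈ I}).card := by
          rw [hcard, Finset.card_univ, Fintype.card_coe, hI.2]
        have h8 := card_image_iff.1 hh
        intro a b hab
        exact h8 (mem_coe.2 (mem_univ a)) (mem_coe.2 (mem_univ b)) hab
      apply hIt
      rw [tsets, mem_filter] at h4 ⊢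
      refine ⟨mem_univ _, fun j' => ?_⟩
      rw [← h4.2 j', filter_image, card_image_of_injective _ hinj, card_filter, card_filter,
        ← sum_coe_sort I (fun i => if r i = j' then 1 else 0)]
      exact sum_congr rfl fun i _ => by rw [h5]
    · exact h3 rfl
  have hsum := hcore k (MvPolynomial (Fin n) k) n q b (pat κ r) x M F Q y φ (by omega) hD hrel
    hface hz
  have hk := hkill (MvPolynomial (Fin n) k) n (q + 1) c κ r x M hsum
  apply hN0
  funext ω
  have h6 := hk (fun v => ω.1 v) (fun j => by rw [(hΩ2 ω.1 ω.2).2 j]; exact (hej j).symm)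
  have h7 : ∏ v, x v ^ (ω.1 v) = monomial ω.1 1 := by
    have h8 : ∀ v, x v ^ (ω.1 v) = X v ^ (ω.1 v) := by
      intro v
      by_cases hv : v ∈ Set.range e
      · obtain ⟨i, rfl⟩ := hv
        rw [(hΩ2 ω.1 ω.2).1 i, pow_zero, pow_zero]
      · congr 1
        simp only [x, hB2 v _ hv]
        simp
    rw [prod_congr rfl (fun v _ => h8 v), monomial_eq, C_1, one_mul, Finsupp.prod_fintype]
    intro i
    exact pow_zero _
  rw [h7, hM, Mf_apply] at h6
  simp only [coeff_monomial] at h6
  rw [sum_eq_single ω] at h6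
  · simpa using h6
  · intro ω' _ hne
    rw [if_neg, mul_zero]
    intro h
    exact hne (Subtype.ext h.symm)
  · intro h
    exact absurd (mem_univ _) h

end Pool.Agent.H29.HK
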