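import Pool.Agent.H29.HK.Defs2
import Pool.Graph.R_seed8.W563.KS.DStep
import Pool.Graph.R_seed8.W386.KS.DLow

/-!
# The shadow inequality from its parts
-/

set_option autoImplicit false

namespace Pool.Agent.H29.HK

open Finset MvPolynomial Pool.Agent.W555.KS Pool.Agent.W563.KS

theorem Ij_succ' (n d j : ℕ) (hj : j < d + 1) (L : Finset (Finset (Fin n))) :
    Ij n d (j + 1) L =
      Ij n d j L ⊔ Ideal.span {lf (gen (d + 1) n (⟨j, hj⟩ : Fin (d + 1)))} := by
  unfold Ij
  rw [sup_assoc, ← Ideal.span_union]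
  congr 2
  ext p
  simp only [Set.mem_ofPred_eq, Set.mem_union, Set.mem_singleton_iff]
  constructor
  · rintro ⟨i, hi, rfl⟩
    rcases Nat.lt_succ_iff_lt_or_eq.1 hi with h | h
    · exact Or.inl ⟨i, h, rfl⟩
    · right
      congr 2
      exact Fin.ext h
  · rintro (⟨i, hi, rfl⟩ | rfl)
    · exact ⟨i, by omega, rfl⟩
    · exact ⟨⟨j, hj⟩, by simp, rfl⟩

theorem dstep' (n d j r : ℕ) (hj : j < d + 1) (L : Finset (Finset (Fin n))) :
    dimQ (Ij n d j L) (r + 1) ≤ dimQ (Ij n d j L) r + dimQ (Ij n d (j + 1) L) (r + 1) := by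
  rw [Ij_succ' n d j hj L]
  exact dim_step _ (Ij_hom n d j L) _ (lf_hom _) r

theorem shadow (hring : SRing) (hsqf : SSqf) (hlow : StDLow) : SShadow := by
  intro n q b L Q y φ hq hL hD
  have h1 := hring n q b L _ Q y φ hq hD (fun σ hσ hc => mem_filter.2 ⟨hσ, hc⟩)
  have h2 : ∀ i, i ≤ q + 2 → dimQ (Ij n (2 * q + 1) (2 * q + 2 - i) L) (q + 1) ≤
      i * (L.filter (fun σ => σ.card = q)).card + (2 * q + 1).choose (q + 1) * b := by
    intro i
    induction i with
    | zero => intro _; simpa using h1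
    | succ i ih =>
      intro hi
      have h3 := dstep' n (2 * q + 1) (2 * q + 2 - (i + 1)) q (by omega) L
      have h4 : 2 * q + 2 - (i + 1) + 1 = 2 * q + 2 - i := by omega
      rw [h4] at h3
      have h5 := hsqf n (2 * q + 1) (2 * q + 2 - (i + 1)) q L hL (by omega) (by omega)
      have h6 := ih (by omega)
      rw [add_mul, one_mul]
      omega
  have h7 := h2 (q + 2) le_rfl
  have h8 : 2 * q + 2 - (q + 2) = q := by omega
  rw [h8] at h7
  exact (hlow n (2 * q + 1) q L hL (by omega)).trans h7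

end Pool.Agent.H29.HK
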