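import Pool.Agent.H29.HK.Defs5

/-!
# The crossing lemma: optimization and continuous maps
-/

set_option autoImplicit false

namespace Pool.Agent.H29.HK

open Finset MvPolynomial Pool.Agent.W555.KS Pool.Agent.W289.KS

theorem opt (q : ℕ) (f g X : ℝ) (hg : 0 < g) (h : (q + 2 : ℝ) ^ 2 * g ≤ (q + 1) * f)
    (hall : ∀ p : ℝ, 0 ≤ p → p ≤ 1 → 2 * p ^ (q + 1) * f ≤ 2 * ((q + 2) * p ^ q * g) +
      p ^ (2 * q + 2) * X) :
    2 * (q + 1 : ℝ) ^ (q + 1) * f ^ (q + 2) ≤ (q + 2 : ℝ) ^ (2 * q + 3) * g ^ (q + 1) * X := by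
  have hq1 : (0 : ℝ) < q + 1 := by positivity
  have hq2 : (0 : ℝ) < q + 2 := by positivity
  have hB : 0 < (q + 2 : ℝ) ^ 2 * g := by positivity
  have hA : 0 < (q + 1 : ℝ) * f := lt_of_lt_of_le hB h
  have hf : 0 < f := by
    by_contra hf
    push Not at hf
    nlinarith
  set p : ℝ := ((q + 2 : ℝ) ^ 2 * g) / ((q + 1) * f) with hp
  have hp0 : 0 < p := div_pos hB hA
  have hp1 : p ≤ 1 := (div_le_one hA).2 h
  have h1 := hall p hp0.le hp1
  have hpf : p * f * (q + 1) = (q + 2 : ℝ) ^ 2 * g := by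
    rw [hp]
    field_simp
  have h2 : 2 * (p * f) ≤ 2 * ((q + 2) * g) + p ^ (q + 2) * X := by
    have hpq : 0 < p ^ q := pow_pos hp0 q
    have e : p ^ (2 * q + 2) = p ^ q * p ^ (q + 2) := by
      rw [← pow_add]; congr 1; omega
    rw [e] at h1
    have e2 : 2 * p ^ (q + 1) * f = p ^ q * (2 * (p * f)) := by ring
    have e3 : 2 * ((q + 2) * p ^ q * g) + p ^ q * p ^ (q + 2) * X =
        p ^ q * (2 * ((q + 2) * g) + p ^ (q + 2) * X) := by ring
    rw [e2, e3] at h1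
    exact le_of_mul_le_mul_left h1 hpq
  have h3 : 2 * g * (q + 2) ≤ p ^ (q + 2) * X * (q + 1) := by
    nlinarith [h2, hpf]
  have hAp : ((q + 1 : ℝ) * f) ^ (q + 2) * p ^ (q + 2) = ((q + 2 : ℝ) ^ 2 * g) ^ (q + 2) := by
    rw [← mul_pow]
    congr 1
    rw [hp]
    field_simp
  have h4 : 2 * g * (q + 2) * ((q + 1 : ℝ) * f) ^ (q + 2) ≤
      ((q + 2 : ℝ) ^ 2 * g) ^ (q + 2) * X * (q + 1) := by
    rw [← hAp]
    have := mul_le_mul_of_nonneg_right h3 (pow_pos hA (q + 2)).le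
    nlinarith [this]
  have hc : 0 < g * (q + 2 : ℝ) * (q + 1) := by positivity
  refine le_of_mul_le_mul_left ?_ hc
  have e1 : g * (q + 2 : ℝ) * (q + 1) * (2 * (q + 1 : ℝ) ^ (q + 1) * f ^ (q + 2)) =
      2 * g * (q + 2) * ((q + 1 : ℝ) * f) ^ (q + 2) := by
    rw [mul_pow]; ring
  have e2 : g * (q + 2 : ℝ) * (q + 1) * ((q + 2 : ℝ) ^ (2 * q + 3) * g ^ (q + 1) * X) =
      ((q + 2 : ℝ) ^ 2 * g) ^ (q + 2) * X * (q + 1) := by
    rw [mul_pow, ← pow_mul]
    have : (q + 2 : ℝ) ^ (2 * (q + 2)) = (q + 2 : ℝ) ^ (2 * q + 3) * (q + 2) := by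
      rw [← pow_succ]
      congr 1
    rw [this]
    ring
  rw [e1, e2]
  exact h4

/-- the pairs of disjoint `q`-faces whose images meet -/
noncomputable def badP {n r : ℕ} (q : ℕ) (K : Finset (Finset (Fin n)))
    (f : (Fin n → ℝ) → (Fin r → ℝ)) : Finset (Finset (Fin n) × Finset (Fin n)) := by
  classical
  exact univ.filter (fun p => p.1 ∈ K ∧ p.2 ∈ K ∧ p.1.card = q + 1 ∧ p.2.card = q + 1 ∧
    Disjoint p.1 p.2 ∧ p ∉ goodP K f)

theorem odd_sub (hfan : SPFan) (hodd : SPOdd) (hdual : SPDual) (n q : ℕ)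
    (K : Finset (Finset (Fin n))) (f : (Fin n → ℝ) → (Fin (2 * q) → ℝ)) (hK : IsCx K)
    (hf : ContinuousOn f (rea K)) : ∃ φ : Finset (Fin n) → Finset (Fin n) → ZMod 2,
      oddP (K.filter (fun σ => σ.card = q + 1)) (0 : Matrix (Fin 0) (Fin 0) (ZMod 2))
        (fun _ _ => 0) φ ⊆ badP q K f := by
  classical
  obtain ⟨h1, h2⟩ := hodd n (2 * q) K f hK hf
  obtain ⟨φ, hφ⟩ := hdual n q _ h1 (hfan n (2 * q + 1) _ h1 h2)
  refine ⟨φ, ?_⟩
  rintro ⟨σ, τ⟩ hp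
  simp only [oddP, mem_filter, mem_product] at hp
  obtain ⟨⟨⟨hσ, hσc⟩, hτ, hτc⟩, hd, hne⟩ := hp
  unfold badP
  rw [mem_filter]
  refine ⟨mem_univ _, hσ, hτ, hσc, hτc, hd, ?_⟩
  intro hg
  apply hne
  rw [hφ σ τ hg hσc hτc]
  simp

theorem cross (hfan : SPFan) (hodd : SPOdd) (hdual : SPDual) (hp : SOddP) (n q : ℕ) (hq : 1 ≤ q)
    (K : Finset (Finset (Fin n))) (f : (Fin n → ℝ) → (Fin (2 * q) → ℝ)) (hK : IsCx K)
    (hf : ContinuousOn f (rea K))
    (h : (q + 2) ^ 2 * (K.filter (fun σ => σ.card = q)).card ≤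
      (q + 1) * (K.filter (fun σ => σ.card = q + 1)).card) :
    2 * (q + 1) ^ (q + 1) * (K.filter (fun σ => σ.card = q + 1)).card ^ (q + 2) ≤
      (q + 2) ^ (2 * q + 3) * (K.filter (fun σ => σ.card = q)).card ^ (q + 1) *
        (badP q K f).card := by
  classical
  obtain ⟨φ, hφ⟩ := odd_sub hfan hodd hdual n q K f hK hf
  have hcard := card_le_card hφ
  rcases Nat.eq_zero_or_pos (K.filter (fun σ => σ.card = q)).card with h0 | h0
  · have h1 : (K.filter (fun σ => σ.card = q + 1)).card = 0 := by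
      rw [card_eq_zero]
      rw [card_eq_zero] at h0
      rw [filter_eq_empty_iff] at h0 ⊢
      intro σ hσ hc
      obtain ⟨v, hv⟩ : σ.Nonempty := by rw [← card_pos]; omega
      exact h0 (hK.2 σ hσ _ (erase_subset v σ)) (by rw [card_erase_of_mem hv]; omega)
    rw [h1]
    simp
  · have h2 := opt q ((K.filter (fun σ => σ.card = q + 1)).card : ℝ)
      ((K.filter (fun σ => σ.card = q)).card : ℝ)
      ((oddP (K.filter (fun σ => σ.card = q + 1)) (0 : Matrix (Fin 0) (Fin 0) (ZMod 2))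
        (fun _ _ => 0) φ).card : ℝ) (by exact_mod_cast h0) (by exact_mod_cast h)
      (fun p hp0 hp1 => by
        have := hp n q 0 K (0 : Matrix (Fin 0) (Fin 0) (ZMod 2)) (fun _ _ => 0) φ p hq hK
          Matrix.isSymm_zero hp0 hp1
        simpa using this)
    have h3 : 2 * (q + 1) ^ (q + 1) * (K.filter (fun σ => σ.card = q + 1)).card ^ (q + 2) ≤
        (q + 2) ^ (2 * q + 3) * (K.filter (fun σ => σ.card = q)).card ^ (q + 1) *
        (oddP (K.filter (fun σ => σ.card = q + 1)) (0 : Matrix (Fin 0) (Fin 0) (ZMod 2))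
        (fun _ _ => 0) φ).card := by exact_mod_cast h2
    exact h3.trans (Nat.mul_le_mul_left _ hcard)

end Pool.Agent.H29.HK
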