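import Pool.Graph.R_seed8.W555.KS.Defs

/-!
# Complexes with a mod 2 embedding into a manifold: definitions and interface

`k` is a field of characteristic two. See the file `Final` for the theorems.
-/

set_option autoImplicit false

namespace Pool.Agent.H29.HK

open Finset MvPolynomial Pool.Agent.W555.KS

/-- `1` if the disjoint sets `σ`, `τ` alternate, `0` otherwise -/
def alt {n : ℕ} (σ τ : Finset (Fin n)) : ZMod 2 :=
  if (σ = evenPart (σ ∪ τ) ∧ τ = oddPart (σ ∪ τ)) ∨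
    (σ = oddPart (σ ∪ τ) ∧ τ = evenPart (σ ∪ τ)) then 1 else 0

/-- the algebraic form of a mod 2 embedding -/
def Data {n b : ℕ} (F : Finset (Finset (Fin n))) (Q : Matrix (Fin b) (Fin b) (ZMod 2))
    (y : Finset (Fin n) → Fin b → ZMod 2) (φ : Finset (Fin n) → Finset (Fin n) → ZMod 2) : Prop :=
  Q.IsSymm ∧ ∀ σ ∈ F, ∀ τ ∈ F, Disjoint σ τ →
    alt σ τ + ∑ v ∈ σ, φ (σ.erase v) τ + ∑ v ∈ τ, φ (τ.erase v) σ =
      ∑ i, ∑ j, y σ i * Q i j * y τ j

/-- the map `ZMod 2 → k` -/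
noncomputable def cst (k : Type*) [Field k] [CharP k 2] : ZMod 2 →+* k :=
  ZMod.castHom (dvd_refl 2) k

/-- the smallest element is in `σ` -/
def first {n : ℕ} (σ τ : Finset (Fin n)) : Prop := ∃ u ∈ σ, ∀ w ∈ τ, u < w

instance {n : ℕ} (σ τ : Finset (Fin n)) : Decidable (first σ τ) := by
  unfold first; infer_instance

/-- ordered pairs of disjoint `m`-sets -/
def pairs (n m : ℕ) : Finset (Finset (Fin n) × Finset (Fin n)) :=
  univ.filter (fun p => p.1.card = m ∧ p.2.card = m ∧ Disjoint p.1 p.2)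

/-- unordered pairs of disjoint `m`-sets -/
def fpairs (n m : ℕ) : Finset (Finset (Fin n) × Finset (Fin n)) :=
  (pairs n m).filter (fun p => first p.1 p.2)

/-- pairs of a half `I` of the rows and a function `h` on the rows which maps `I` onto `σ` and the
other rows onto `τ` -/
def SP (N n m : ℕ) (σ τ : Finset (Fin n)) : Finset (Finset (Fin N) × (Fin N → Fin n)) :=
  univ.filter (fun p => p.1.card = m ∧ p.1.image p.2 = σ ∧ p.1ᶜ.image p.2 = τ)

/-- the functions `h` which are injective on `I` and on the complement -/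
def TI (m n : ℕ) (I : Finset (Fin (2 * m))) : Finset (Fin (2 * m) → Fin n) :=
  univ.filter (fun h => (I.image h).card = m ∧ (Iᶜ.image h).card = m)

/-- the numbers `z^I_j` -/
noncomputable def zI {k R : Type*} [Field k] [CharP k 2] [CommRing R] [Algebra k R] {n m b : ℕ}
    (a : Fin (2 * m) → Fin n → k) (x : Fin n → R) (y : Finset (Fin n) → Fin b → ZMod 2)
    (M : R →ₗ[k] k) (I : Finset (Fin (2 * m))) (j : Fin b) : k :=
  ∑ h : {i // i ∈ I} → Fin n, (∏ i : {i // i ∈ I}, a i.1 (h i)) *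
    (if (univ.image h).card = m then cst k (y (univ.image h) j) * M (∏ v ∈ univ.image h, x v)
      else 0)

/-- the form on pairs of faces -/
noncomputable def Gf {k R : Type*} [Field k] [CharP k 2] [CommRing R] [Algebra k R] {n b : ℕ}
    (x : Fin n → R) (Q : Matrix (Fin b) (Fin b) (ZMod 2))
    (y : Finset (Fin n) → Fin b → ZMod 2) (M : R →ₗ[k] k) (σ τ : Finset (Fin n)) : k :=
  cst k (∑ i, ∑ j, y σ i * Q i j * y τ j) * M (∏ v ∈ σ, x v) * M (∏ v ∈ τ, x v)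

/-! ### combinatorial sums -/

def SFirst : Prop := ∀ (A : Type) [AddCommMonoid A] (n m : ℕ)
  (g : Finset (Fin n) → Finset (Fin n) → A), 1 ≤ m →
  ∑ p ∈ fpairs n m, (g p.1 p.2 + g p.2 p.1) = ∑ p ∈ pairs n m, g p.1 p.2

def SAlt : Prop := ∀ (k : Type) [Field k] [CharP k 2] (n m : ℕ)
  (s : Finset (Fin n) → Finset (Fin n) → k), 1 ≤ m →
  ∑ U ∈ powersetCard (2 * m) univ, s (evenPart U) (oddPart U) =
    ∑ p ∈ fpairs n m, cst k (alt p.1 p.2) * s p.1 p.2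

def SLa : Prop := ∀ (k : Type) [Field k] (n m : ℕ) (a : Fin (2 * m) → Fin n → k)
  (σ τ : Finset (Fin n)), σ.card = m → τ.card = m → Disjoint σ τ →
  ∑ p ∈ SP (2 * m) n m σ τ, ∏ i, a i (p.2 i) = bra a (σ ∪ τ)

def SLb : Prop := ∀ (k : Type) [Field k] [CharP k 2] (n m : ℕ) (a : Fin (2 * m) → Fin n → k)
  (σ τ : Finset (Fin n)), σ.card = m → τ.card = m → ¬ Disjoint σ τ →
  ∑ p ∈ SP (2 * m) n m σ τ, ∏ i, a i (p.2 i) = 0

def SLc : Prop := ∀ (k : Type) [Field k] [CharP k 2] (n m : ℕ) (a : Fin (2 * m) → Fin n → k)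
  (i0 : Fin (2 * m)) (σ : Finset (Fin n)), 2 ≤ m → σ.card = m →
  ∑ p ∈ (SP (2 * m) n m σ σ).filter (fun p => i0 ∉ p.1), ∏ i, a i (p.2 i) = 0

def SLs : Prop := ∀ (k : Type) [Field k] (n m : ℕ) (a : Fin (2 * m) → Fin n → k)
  (i0 : Fin (2 * m)) (σ τ : Finset (Fin n)),
  ∑ p ∈ (SP (2 * m) n m σ τ).filter (fun p => i0 ∉ p.1), ∏ i, a i (p.2 i) +
  ∑ p ∈ (SP (2 * m) n m τ σ).filter (fun p => i0 ∉ p.1), ∏ i, a i (p.2 i) =
    ∑ p ∈ SP (2 * m) n m σ τ, ∏ i, a i (p.2 i)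

def SE2 : Prop := ∀ (k : Type) [Field k] [CharP k 2] (n m : ℕ) (a : Fin (2 * m) → Fin n → k)
  (i0 : Fin (2 * m)) (G : Finset (Fin n) → Finset (Fin n) → k), 2 ≤ m →
  (∀ σ τ, G σ τ = G τ σ) →
  ∑ I ∈ (powersetCard m (univ : Finset (Fin (2 * m)))).filter (fun I => i0 ∉ I),
      ∑ h ∈ TI m n I, (∏ i, a i (h i)) * G (I.image h) (Iᶜ.image h) =
    ∑ p ∈ fpairs n m, G p.1 p.2 * bra a (p.1 ∪ p.2)

def SFac : Prop := ∀ (k R : Type) [Field k] [CharP k 2] [CommRing R] [Algebra k R] (n m b : ℕ)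
  (a : Fin (2 * m) → Fin n → k) (x : Fin n → R) (M : R →ₗ[k] k)
  (Q : Matrix (Fin b) (Fin b) (ZMod 2)) (y : Finset (Fin n) → Fin b → ZMod 2)
  (I : Finset (Fin (2 * m))), (∀ j, zI a x y M I j = 0) →
  ∑ h ∈ TI m n I, (∏ i, a i (h i)) * Gf x Q y M (I.image h) (Iᶜ.image h) = 0

/-- **the core** -/
def SCore : Prop := ∀ (k R : Type) [Field k] [CharP k 2] [CommRing R] [Algebra k R] (n q b : ℕ)
  (a : Fin (2 * (q + 1)) → Fin n → k) (x : Fin n → R) (M : R →ₗ[k] k)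
  (F : Finset (Finset (Fin n))) (Q : Matrix (Fin b) (Fin b) (ZMod 2))
  (y : Finset (Fin n) → Fin b → ZMod 2) (φ : Finset (Fin n) → Finset (Fin n) → ZMod 2),
  1 ≤ q → Data F Q y φ → (∀ i, ∑ v, a i v • x v = 0) →
  (∀ σ : Finset (Fin n), σ.card = q + 1 → M (∏ v ∈ σ, x v) ≠ 0 → σ ∈ F) →
  (∀ I ∈ powersetCard (q + 1) (univ : Finset (Fin (2 * (q + 1)))), Fin.last _ ∉ I →
    ∀ j, zI a x y M I j = 0) →
  ∑ h ∈ (univ : Finset (Fin (2 * (q + 1)) → Fin n)).filter EvenFun,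
    (∏ i, a i (h i)) * M (halfMon x h) ^ 2 = 0

end Pool.Agent.H29.HK
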