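import Pool.Agent.H29.HK.Defs
import Pool.Graph.R_seed8.W555.KS.Defs2

/-!
# Interface of the second part: patterns, counting, rings, shifting
-/

set_option autoImplicit false

namespace Pool.Agent.H29.HK

open Finset MvPolynomial Pool.Agent.W555.KS

/-- generic matrix with a pattern of zeros -/
noncomputable def pat {N n c : ℕ} (κ : Fin n → Fin c) (r : Fin N → Fin c) (i : Fin N)
    (v : Fin n) : Kf N n :=
  if κ v = r i then gen N n i v else 0

/-- the sets of type `t` -/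
def tsets {n c : ℕ} (κ : Fin n → Fin c) (t : Fin c → ℕ) : Finset (Finset (Fin n)) :=
  univ.filter (fun σ => ∀ j, (σ.filter (fun v => κ v = j)).card = t j)

/-- the size of a colour class -/
def cls {n c : ℕ} (κ : Fin n → Fin c) (j : Fin c) : ℕ := (univ.filter (fun v => κ v = j)).card

def SKill : Prop := ∀ (R : Type) (n m c : ℕ) [CommRing R] [Algebra (Kf (2 * m) n) R]
  (κ : Fin n → Fin c) (r : Fin (2 * m) → Fin c) (x : Fin n → R)
  (M : R →ₗ[Kf (2 * m) n] Kf (2 * m) n),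
  ∑ h ∈ (univ : Finset (Fin (2 * m) → Fin n)).filter EvenFun,
    (∏ i, pat κ r i (h i)) * M (halfMon x h) ^ 2 = 0 →
  ∀ β : Fin n → ℕ, (∀ j, 2 * ∑ v ∈ univ.filter (fun v => κ v = j), β v =
      (univ.filter (fun i => r i = j)).card) →
    M (∏ v, x v ^ β v) = 0

def SElim : Prop := ∀ (n N c : ℕ) (κ : Fin n → Fin c) (r : Fin N → Fin c) (e : Fin N → Fin n),
  Function.Injective e → (∀ i, κ (e i) = r i) →
  ∃ B : Fin n → Fin n → Kf N n,
    (∀ w i, ∑ v, pat κ r i v * B v w = 0) ∧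
    (∀ v w, v ∉ Set.range e → B v w = if v = w then 1 else 0) ∧
    (∀ v w, κ v ≠ κ w → B v w = 0)

def STypes : Prop := ∀ (n c : ℕ) (κ : Fin n → Fin c) (t : Fin c → ℕ),
  (tsets κ t).card = ∏ j, (cls κ j).choose (t j)

def SOmega : Prop := ∀ (n c N : ℕ) (κ : Fin n → Fin c) (t : Fin c → ℕ) (e : Fin N → Fin n),
  Function.Injective e → (∀ j, (univ.filter (fun i => κ (e i) = j)).card = 2 * t j) →
  ∃ Ω : Finset (Fin n →₀ ℕ), ∏ j, (cls κ j - t j - 1).choose (t j) ≤ Ω.card ∧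
    ∀ β ∈ Ω, (∀ i, β (e i) = 0) ∧ ∀ j, ∑ v ∈ univ.filter (fun v => κ v = j), β v = t j

def SHalf : Prop := ∀ (m c : ℕ) (r : Fin (2 * m) → Fin c) (t : Fin c → ℕ) (i0 : Fin (2 * m)),
  (∀ j, cls r j = 2 * t j) →
  2 * ((tsets r t).filter (fun I => i0 ∉ I)).card = ∏ j, (2 * t j).choose (t j)

def SMulti : Prop := ∀ (k : Type) [Field k] (n c : ℕ) (κ : Fin n → Fin c) (t : Fin c → ℕ)
  (B : Fin n → Fin n → k), (∀ v w, κ v ≠ κ w → B v w = 0) →
  ∀ ω : Fin n →₀ ℕ, (∀ j, ∑ v ∈ univ.filter (fun v => κ v = j), ω v = t j) →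
  ∀ σ : Finset (Fin n),
    coeff ω (∏ v ∈ σ, ∑ w, B v w • (X w : MvPolynomial (Fin n) k)) ≠ 0 → σ ∈ tsets κ t

/-- **the coloured inequality** -/
def STyped : Prop := ∀ (n c b : ℕ) (κ : Fin n → Fin c) (t : Fin c → ℕ)
  (F : Finset (Finset (Fin n))) (Q : Matrix (Fin b) (Fin b) (ZMod 2))
  (y : Finset (Fin n) → Fin b → ZMod 2) (φ : Finset (Fin n) → Finset (Fin n) → ZMod 2),
  2 ≤ ∑ j, t j → F ⊆ tsets κ t → Data F Q y φ →
  2 * F.card + 2 * ∏ j, (cls κ j - t j - 1).choose (t j) ≤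
    2 * ∏ j, (cls κ j).choose (t j) + (∏ j, (2 * t j).choose (t j)) * b

/-! ### rings -/

def SRing : Prop := ∀ (n q b : ℕ) (L F : Finset (Finset (Fin n)))
  (Q : Matrix (Fin b) (Fin b) (ZMod 2))
  (y : Finset (Fin n) → Fin b → ZMod 2) (φ : Finset (Fin n) → Finset (Fin n) → ZMod 2),
  1 ≤ q → Data F Q y φ → (∀ σ ∈ L, σ.card = q + 1 → σ ∈ F) →
  dimQ (Ij n (2 * q + 1) (2 * q + 2) L) (q + 1) ≤ (2 * q + 1).choose (q + 1) * b

def SSqf : Prop := ∀ (n d j r : ℕ) (L : Finset (Finset (Fin n))), IsCx L → r ≤ j + 1 →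
  j ≤ d + 1 → dimQ (Ij n d j L) r ≤ (L.filter (fun σ => σ.card = r)).card

def SShadow : Prop := ∀ (n q b : ℕ) (L : Finset (Finset (Fin n)))
  (Q : Matrix (Fin b) (Fin b) (ZMod 2))
  (y : Finset (Fin n) → Fin b → ZMod 2) (φ : Finset (Fin n) → Finset (Fin n) → ZMod 2),
  1 ≤ q → IsCx L → Data (L.filter (fun σ => σ.card = q + 1)) Q y φ →
  (L.filter (fun σ => σ.card = q + 1)).card ≤
    (q + 2) * (L.filter (fun σ => σ.card = q)).card + (2 * q + 1).choose (q + 1) * b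

/-! ### specialization and shifting -/

def SRank : Prop := ∀ (ι N m : Type) [Fintype ι] [Fintype N] [Fintype m]
  (A : N → m → MvPolynomial ι ℤ) (ρ : ℕ),
  ρ ≤ Module.finrank (FractionRing (MvPolynomial ι (ZMod 2)))
    (Submodule.span (FractionRing (MvPolynomial ι (ZMod 2)))
      (Set.range (fun i : N => fun j : m => algebraMap (MvPolynomial ι (ZMod 2))
        (FractionRing (MvPolynomial ι (ZMod 2)))
        (MvPolynomial.map (Int.castRingHom (ZMod 2)) (A i j))))) →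
  ∃ F : MvPolynomial ι ℤ, MvPolynomial.map (Int.castRingHom (ZMod 2)) F ≠ 0 ∧
    ∀ (k : Type) [Field k] (c : ι → k), aeval c F ≠ 0 →
    ρ ≤ Module.finrank k
      (Submodule.span k (Set.range (fun i : N => fun j : m => aeval c (A i j))))

def SSpecDim : Prop := ∀ (n d r B : ℕ) (L : Finset (Finset (Fin n))),
  dimQ (Ij n d (d + 1) L) r ≤ B →
  ∃ F : MvPolynomial (Fin (d + 1) × Fin n) ℤ,
    MvPolynomial.map (Int.castRingHom (ZMod 2)) F ≠ 0 ∧
    ∀ (k : Type) [Field k] (c : Fin (d + 1) × Fin n → k), aeval c F ≠ 0 →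
      dimQ (srI k L ⊔ Ideal.span (Set.range (fun i : Fin (d + 1) => lf (fun v => c (i, v))))) r
        ≤ B

def SDich : Prop := ∀ (k : Type) [Field k] [Infinite k] (n : ℕ) (L : Finset (Finset (Fin n)))
  (μ : Fin n →₀ ℕ), μ ∉ ginSet (srI k L) →
  ∃ F : MvPolynomial (Fin n × Fin n) k, F ≠ 0 ∧ ∀ g : Fin n × Fin n → k,
    (Matrix.of (fun i j => g (i, j))).det ≠ 0 → eval g F ≠ 0 →
      μ ∉ inSet (coordI g (srI k L))

def SCnt : Prop := ∀ (k : Type) [Field k] (n s r : ℕ) (L : Finset (Finset (Fin n)))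
  (g : Fin n × Fin n → k), (Matrix.of (fun i j => g (i, j))).det ≠ 0 →
  {μ : Fin n →₀ ℕ | μ.degree = r ∧ (∀ i ∈ μ.support, (i : ℕ) + s < n) ∧
    μ ∉ inSet (coordI g (srI k L))}.ncard ≤
  dimQ (srI k L ⊔ Ideal.span {p | ∃ i : Fin n, n ≤ (i : ℕ) + s ∧ p = lf (fun v => g (i, v))}) r

def SAllow : Prop := ∀ (k : Type) [Field k] [Infinite k], (CharZero k ∨ CharP k 2) →
  ∀ n d : ℕ, 1 ≤ d → d < n → ∀ μ : Fin n →₀ ℕ, Allowed n d μ → (∀ x ∈ phi μ, x < n) →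
    μ ∉ ginSet (srI k (cyc n d))

def SPhi : Prop := ∀ (n : ℕ) (μ : Fin n →₀ ℕ), (phi μ).card = μ.degree

/-- **shifting** -/
def SShift : Prop := ∀ (k : Type) [Field k] [Infinite k], (CharZero k ∨ CharP k 2) →
  ∀ (n q b : ℕ) (L : Finset (Finset (Fin n)))
  (Q : Matrix (Fin b) (Fin b) (ZMod 2))
  (y : Finset (Fin n) → Fin b → ZMod 2) (φ : Finset (Fin n) → Finset (Fin n) → ZMod 2),
  1 ≤ q → 2 * q + 1 < n → IsCx L → Data (L.filter (fun σ => σ.card = q + 1)) Q y φ →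
  {S | S ∈ shift k L ∧ S.card = q + 1 ∧ S ∉ shift k (cyc n (2 * q + 1))}.Finite ∧
  {S | S ∈ shift k L ∧ S.card = q + 1 ∧ S ∉ shift k (cyc n (2 * q + 1))}.ncard ≤
    (2 * q + 1).choose (q + 1) * b

end Pool.Agent.H29.HK
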