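import Pool.Agent.H29.HK.Defs2

/-!
# Interface of the third part
-/

set_option autoImplicit false

namespace Pool.Agent.H29.HK

open Finset MvPolynomial Pool.Agent.W555.KS

/-- shifting does not create faces of larger size -/
def SDim : Prop := ∀ (k : Type) [Field k] [Infinite k], (CharZero k ∨ CharP k 2) →
  ∀ (n m : ℕ) (L : Finset (Finset (Fin n))), IsCx L → (∀ σ ∈ L, σ.card ≤ m) →
  ∀ S ∈ shift k L, S.card ≤ m

/-- **shifting, complexes of dimension at most `q`** -/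
def STotal : Prop := ∀ (k : Type) [Field k] [Infinite k], (CharZero k ∨ CharP k 2) →
  ∀ (n q b : ℕ) (L : Finset (Finset (Fin n)))
  (Q : Matrix (Fin b) (Fin b) (ZMod 2))
  (y : Finset (Fin n) → Fin b → ZMod 2) (φ : Finset (Fin n) → Finset (Fin n) → ZMod 2),
  1 ≤ q → 2 * q + 1 < n → IsCx L → (∀ σ ∈ L, σ.card ≤ q + 1) →
  Data (L.filter (fun σ => σ.card = q + 1)) Q y φ →
  (shift k L \ shift k (cyc n (2 * q + 1))).Finite ∧
  (shift k L \ shift k (cyc n (2 * q + 1))).ncard ≤ (2 * q + 1).choose (q + 1) * b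

/-- ordered pairs of disjoint faces with odd intersection -/
def oddP {n b : ℕ} (F : Finset (Finset (Fin n))) (Q : Matrix (Fin b) (Fin b) (ZMod 2))
    (y : Finset (Fin n) → Fin b → ZMod 2) (φ : Finset (Fin n) → Finset (Fin n) → ZMod 2) :
    Finset (Finset (Fin n) × Finset (Fin n)) :=
  (F ×ˢ F).filter (fun p => Disjoint p.1 p.2 ∧
    alt p.1 p.2 + ∑ v ∈ p.1, φ (p.1.erase v) p.2 + ∑ v ∈ p.2, φ (p.2.erase v) p.1 ≠
      ∑ i, ∑ j, y p.1 i * Q i j * y p.2 j)

/-- deleting one face of every odd pair -/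
def SOdd1 : Prop := ∀ (n q b : ℕ) (L : Finset (Finset (Fin n)))
  (Q : Matrix (Fin b) (Fin b) (ZMod 2))
  (y : Finset (Fin n) → Fin b → ZMod 2) (φ : Finset (Fin n) → Finset (Fin n) → ZMod 2),
  1 ≤ q → IsCx L → Q.IsSymm →
  2 * (L.filter (fun σ => σ.card = q + 1)).card ≤
    2 * ((q + 2) * (L.filter (fun σ => σ.card = q)).card + (2 * q + 1).choose (q + 1) * b) +
      (oddP (L.filter (fun σ => σ.card = q + 1)) Q y φ).card

/-- **the crossing inequality for random induced subcomplexes** -/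
def SOddP : Prop := ∀ (n q b : ℕ) (L : Finset (Finset (Fin n)))
  (Q : Matrix (Fin b) (Fin b) (ZMod 2))
  (y : Finset (Fin n) → Fin b → ZMod 2) (φ : Finset (Fin n) → Finset (Fin n) → ZMod 2) (p : ℝ),
  1 ≤ q → IsCx L → Q.IsSymm → 0 ≤ p → p ≤ 1 →
  2 * p ^ (q + 1) * ((L.filter (fun σ => σ.card = q + 1)).card : ℝ) ≤
    2 * ((q + 2) * p ^ q * ((L.filter (fun σ => σ.card = q)).card : ℝ) +
      ((2 * q + 1).choose (q + 1) : ℝ) * b) +
      p ^ (2 * q + 2) * ((oddP (L.filter (fun σ => σ.card = q + 1)) Q y φ).card : ℝ)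

end Pool.Agent.H29.HK
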