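import Pool.Agent.H29.HK.Defs2
import Pool.Graph.R_seed8.H789R5.RF.Rank

/-!
# Interface of the fourth part: rigidity
-/

set_option autoImplicit false

namespace Pool.Agent.H29.HK

open Finset MvPolynomial Pool.Agent.W555.KS Pool.Agent.H789R5 Pool.Agent.H283R2.DR

open Classical in
/-- the graph as a simplicial complex -/
noncomputable def graphCx {n : ℕ} (G : SimpleGraph (Fin n)) : Finset (Finset (Fin n)) :=
  univ.filter (fun σ => σ.card ≤ 1 ∨ ∃ u v, G.Adj u v ∧ σ = {u, v})

/-- the stress space is not larger than the degree two part of the quotient -/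
def SStress : Prop := ∀ (n d : ℕ) (G : SimpleGraph (Fin n)) (c : Fin (d + 1) × Fin n → ℝ),
  (∀ v, c (0, v) ≠ 0) →
  G.edgeSet.ncard ≤ genRank d G + dimQ (srI ℝ (graphCx G) ⊔
    Ideal.span (Set.range (fun i : Fin (d + 1) => lf (fun v => c (i, v))))) 2

def SRigid : Prop := ∀ (n b : ℕ) (G : SimpleGraph (Fin n))
  (Q : Matrix (Fin b) (Fin b) (ZMod 2))
  (y : Finset (Fin n) → Fin b → ZMod 2) (φ : Finset (Fin n) → Finset (Fin n) → ZMod 2),
  Data ((graphCx G).filter (fun σ => σ.card = 2)) Q y φ →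
  G.edgeSet.ncard ≤ genRank 3 G + 3 * b

end Pool.Agent.H29.HK
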