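import Pool.Agent.H29.HK.Defs3
import Pool.Graph.R_seed8.Y131.KS.Alm

/-!
# Interface of the fifth part: the obstruction of families of pairs, continuous maps
-/

set_option autoImplicit false

namespace Pool.Agent.H29.HK

open Finset MvPolynomial Pool.Agent.W555.KS Pool.Agent.W289.KS

variable {n : ℕ}

/-- symmetric family of disjoint pairs closed under taking subsets -/
def IsPC (D : Finset (Finset (Fin n) × Finset (Fin n))) : Prop :=
  (∀ p ∈ D, Disjoint p.1 p.2) ∧ (∀ p ∈ D, (p.2, p.1) ∈ D) ∧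
    ∀ p ∈ D, ∀ σ ⊆ p.1, ∀ τ ⊆ p.2, (σ, τ) ∈ D

/-- the space of the family: positive and negative support form a pair of the family -/
def PX (D : Finset (Finset (Fin n) × Finset (Fin n))) : Set (Fin n → ℝ) :=
  {x | ∑ i, |x i| = 1 ∧
    (univ.filter (fun i => 0 < x i), univ.filter (fun i => x i < 0)) ∈ D}

/-- an odd map to `ℝ^d` without zeros -/
def POdd (D : Finset (Finset (Fin n) × Finset (Fin n))) (d : ℕ) : Prop :=
  ∃ f : (Fin n → ℝ) → (Fin d → ℝ), ContinuousOn f (PX D) ∧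
    ∀ x ∈ PX D, f (-x) = -f x ∧ f x ≠ 0

/-- vanishing of the obstruction in degree `m` -/
def PVK (D : Finset (Finset (Fin n) × Finset (Fin n))) (m : ℕ) : Prop :=
  ∀ Z : Finset (Fin n) → Finset (Fin n) → ZMod 2,
    (∀ σ τ, Z σ τ = Z τ σ) →
    (∀ σ τ, Z σ τ ≠ 0 → (σ, τ) ∈ D) →
    (∀ ρ τ : Finset (Fin n), Disjoint ρ τ → ρ.card + τ.card + 1 = m →
      ∑ v ∈ (ρ ∪ τ)ᶜ, (Z (insert v ρ) τ + Z ρ (insert v τ)) = 0) →
    ∑ U ∈ powersetCard m univ, Z (evenPart U) (oddPart U) = 0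

/-- odd maps kill the obstruction -/
def SPFan : Prop := ∀ (n d : ℕ) (D : Finset (Finset (Fin n) × Finset (Fin n))),
  IsPC D → POdd D d → PVK D (d + 1)

open Classical in
/-- the pairs of disjoint faces with disjoint images -/
noncomputable def goodP {r : ℕ} (K : Finset (Finset (Fin n))) (f : (Fin n → ℝ) → (Fin r → ℝ)) :
    Finset (Finset (Fin n) × Finset (Fin n)) :=
  univ.filter (fun p => p.1 ∈ K ∧ p.2 ∈ K ∧ Disjoint p.1 p.2 ∧
    ∀ x ∈ rea K, ∀ y ∈ rea K, (∀ i, i ∉ p.1 → x i = 0) → (∀ i, i ∉ p.2 → y i = 0) → f x ≠ f y)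

/-- continuous maps give odd maps on the good pairs -/
def SPOdd : Prop := ∀ (n r : ℕ) (K : Finset (Finset (Fin n))) (f : (Fin n → ℝ) → (Fin r → ℝ)),
  IsCx K → ContinuousOn f (rea K) → IsPC (goodP K f) ∧ POdd (goodP K f) (r + 1)

/-- duality -/
def SPDual : Prop := ∀ (n q : ℕ) (D : Finset (Finset (Fin n) × Finset (Fin n))),
  IsPC D → PVK D (2 * q + 2) → ∃ φ : Finset (Fin n) → Finset (Fin n) → ZMod 2,
    ∀ σ τ, (σ, τ) ∈ D → σ.card = q + 1 → τ.card = q + 1 →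
      alt σ τ + ∑ v ∈ σ, φ (σ.erase v) τ + ∑ v ∈ τ, φ (τ.erase v) σ = 0

end Pool.Agent.H29.HK
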