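import Pool.Agent.H29.HK.Defs2
import Pool.Graph.R_seed8.Y131.KS.Chain

set_option autoImplicit false

/-!
Project HK (helper29), task SAllow: allowed monomials are in the shifting of the boundary of the
cyclic polytope (adapted from the second half of `Y131.KS.ddm`).
-/

namespace Pool.Agent.H29.HK.PSAllow

open Finset MvPolynomial Pool.Agent.W555.KS Pool.Agent.W689.KS Pool.Agent.Y131.KS

open Classical in
theorem core (hg1 : G1') (hg2 : G2') (hg3 : StG3) (hphi : StPhi) (hcyc : Cyc')
    (hsupp : StSupp) (hgc : StGCnt) (hgn : StGNum) (k : Type) [Field k] [Infinite k]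
    (hk : CharZero k ∨ CharP k 2) (n d : ℕ) (hd : 1 ≤ d) (hdn : d < n) (m : Fin n →₀ ℕ)
    (hal : Allowed n d m) (hm2 : ∀ x ∈ phi m, x < n) : m ∉ ginSet (srI k (cyc n d)) := by
  intro hmg
  obtain ⟨hcx, hce⟩ := hcyc n d hd hdn
  have hidx := hphi n m hm2
  obtain ⟨F1, hF1, hF1g⟩ := hmg
  -- the determinant polynomial
  set D : MvPolynomial (Fin n × Fin n) k := (Matrix.mvPolynomialX (Fin n) (Fin n) k).det with hD
  have hD0 : D ≠ 0 := Matrix.det_mvPolynomialX_ne_zero (Fin n) k
  have hDg : ∀ g : Fin n × Fin n → k, eval g D = (Matrix.of (fun i j => g (i, j))).det := by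
    intro g
    rw [hD, RingHom.map_det]
    congr 1
    ext i j
    simp [Matrix.mvPolynomialX]
  rcases Nat.eq_zero_or_pos m.degree with h0 | hpos
  · -- degree zero
    have hm0 : m = 0 := by
      rwa [Finsupp.degree_eq_zero_iff] at h0
    subst hm0
    obtain ⟨g, hg⟩ := exists_eval_ne (F1 * D) (mul_ne_zero hF1 hD0)
    rw [map_mul] at hg
    have hg1' := left_ne_zero_of_mul hg
    have hg2' := right_ne_zero_of_mul hg
    rw [hDg] at hg2'
    obtain ⟨f, hf, hf0, hfs⟩ := hF1g g hg2' hg1'
    have hsup : ∀ m' : Fin n →₀ ℕ, m' ≠ 0 → coeff m' f = 0 := by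
      intro m' hm'
      by_contra hc
      have := hfs m' (mem_support_iff.2 hc) hm'
      rcases this with h | ⟨h, _⟩
      · simp at h
      · apply hm'
        rw [map_zero] at h
        rwa [Finsupp.degree_eq_zero_iff] at h
    have hfC : f = C (coeff 0 f) := by
      ext m'
      rw [coeff_C]
      split_ifs with h
      · rw [h]
      · exact hsup m' (fun e => h e.symm)
    have hmem : (C (coeff 0 f) : MvPolynomial (Fin n) k) ∈ srI k (cyc n d) := by
      have h1 : subst g f ∈ srI k (cyc n d) := hf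
      rw [hfC] at h1
      unfold Pool.Agent.W555.KS.subst at h1
      rw [aeval_C] at h1
      simpa using h1
    exact srI_ne_top (cyc n d) hcx.1 _ hf0 hmem
  · -- positive degree
    obtain ⟨j, hj⟩ : ∃ j, m.degree = j + 1 := ⟨m.degree - 1, by omega⟩
    have hsum : ∀ s : Finset (Fin n), ∑ i ∈ s, m i ≤ m.degree := by
      intro s
      rw [Finsupp.degree_eq_sum]
      exact sum_le_sum_of_subset (subset_univ s)
    have hjd : j < d := by
      by_contra hjd
      have hall : ∑ i ∈ (univ : Finset (Fin n)).filter (fun i : Fin n => (i : ℕ) + d < n), m i =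
          m.degree := by
        rw [Finsupp.degree_eq_sum]
        apply sum_subset (filter_subset _ _)
        intro i _ hi
        by_contra hmi
        apply hi
        rw [mem_filter]
        refine ⟨mem_univ _, ?_⟩
        have := hidx i (Finsupp.mem_support_iff.2 hmi)
        omega
      have h2 := hal
      unfold Allowed at h2
      rw [hall] at h2
      have h3 := hsum ((univ : Finset (Fin n)).filter (fun i : Fin n => (i : ℕ) + d + 1 = n))
      omega
    -- polynomials for the non-allowed monomials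
    have hfin : {m' : Fin n →₀ ℕ | m'.degree = j + 1}.Finite := finite_degree n (j + 1)
    have hna : ∀ m' : Fin n →₀ ℕ, ¬ Allowed n d m' → ∃ F : MvPolynomial (Fin n × Fin n) k, F ≠ 0 ∧
        ∀ g : Fin n × Fin n → k, (Matrix.of (fun i j => g (i, j))).det ≠ 0 → eval g F ≠ 0 →
          m' ∈ inSet (coordI g (srI k (cyc n d))) :=
      fun m' h => hg1 k hk n d (cyc n d) hdn hcx hce m' h
    choose! G hG0 hGg using hna
    set F2 : MvPolynomial (Fin n × Fin n) k :=
      ∏ m' ∈ hfin.toFinset.filter (fun m' => ¬ Allowed n d m'), G m' with hF2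
    have hF20 : F2 ≠ 0 := by
      rw [hF2, prod_ne_zero_iff]
      intro m' hm'
      exact hG0 m' (mem_filter.1 hm').2
    obtain ⟨F3, hF30, hF3g⟩ := hg2 k n (j + 1) (cyc n d) hcx
    obtain ⟨g, hg⟩ := exists_eval_ne (F1 * F2 * F3 * D)
      (mul_ne_zero (mul_ne_zero (mul_ne_zero hF1 hF20) hF30) hD0)
    rw [map_mul, map_mul, map_mul] at hg
    have hgD := right_ne_zero_of_mul hg
    have hg3' := right_ne_zero_of_mul (left_ne_zero_of_mul hg)
    have hg2' := right_ne_zero_of_mul (left_ne_zero_of_mul (left_ne_zero_of_mul hg))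
    have hg1' := left_ne_zero_of_mul (left_ne_zero_of_mul (left_ne_zero_of_mul hg))
    rw [hDg] at hgD
    have hmin := hF1g g hgD hg1'
    have hc1 := hF3g g hgD hg3'
    have hnain : ∀ m' : Fin n →₀ ℕ, m'.degree = j + 1 → ¬ Allowed n d m' →
        m' ∈ inSet (coordI g (srI k (cyc n d))) := by
      intro m' hm' hna'
      apply hGg m' hna' g hgD
      rw [hF2, map_prod, prod_ne_zero_iff] at hg2'
      exact hg2' m' (mem_filter.2 ⟨by simpa using hm', hna'⟩)
    have hAfin : {m' : Fin n →₀ ℕ | m'.degree = j + 1 ∧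
        (∀ i ∈ m'.support, (i : ℕ) + (j + 1) ≤ n) ∧ Allowed n d m'}.Finite :=
      hfin.subset (fun m' hm' => hm'.1)
    have hlt : {m' : Fin n →₀ ℕ | m'.degree = j + 1 ∧ (∀ i ∈ m'.support, (i : ℕ) + (j + 1) ≤ n) ∧
        m' ∉ inSet (coordI g (srI k (cyc n d)))}.ncard <
        {m' : Fin n →₀ ℕ | m'.degree = j + 1 ∧
        (∀ i ∈ m'.support, (i : ℕ) + (j + 1) ≤ n) ∧ Allowed n d m'}.ncard := by
      apply Set.ncard_lt_ncard _ hAfin
      refine ⟨?_, ?_⟩
      · rintro m' ⟨h1, h2, h3⟩
        refine ⟨h1, h2, ?_⟩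
        by_contra h4
        exact h3 (hnain m' h1 h4)
      · intro hsub
        have hmem : m ∈ {m' : Fin n →₀ ℕ | m'.degree = j + 1 ∧
            (∀ i ∈ m'.support, (i : ℕ) + (j + 1) ≤ n) ∧ Allowed n d m'} := by
          refine ⟨hj, ?_, hal⟩
          intro i hi
          have := hidx i hi
          omega
        exact (hsub hmem).2.2 hmin
    have hc3 := hg3 n d j hjd hdn
    have hc4 := hgn n d j hjd hdn
    have hc5 := card_faces hsupp hgc n d (j + 1) hjd hdn
    have hc6 : ((cyc n d).filter (fun σ => σ.card = j + 1)).card ≤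
      {m' : Fin n →₀ ℕ | m'.degree = j + 1 ∧ (∀ i ∈ m'.support, (i : ℕ) + (j + 1) ≤ n) ∧
        m' ∉ inSet (coordI g (srI k (cyc n d)))}.ncard := by
      refine le_trans (Finset.card_le_card fun σ hσ => ?_) hc1
      rw [mem_filter] at hσ ⊢
      exact hσ
    omega

end Pool.Agent.H29.HK.PSAllow

namespace Pool.Agent.H29.HK

open Finset MvPolynomial Pool.Agent.W555.KS

theorem sAllow : SAllow := by
  intro k _ _ hk n d hd hdn μ hal hphi
  have h2 : Y131.KS.T2' := Y131.KS.t2 (t1e' halg') (t1o' halg')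
    W646.KS.ind (Y131.KS.t2c (t1e' halg') W646.KS.ind)
  exact PSAllow.core (Y131.KS.g1 (Y131.KS.spec Y131.KS.span2 h2)) Y131.KS.g2' W386.KS.g3
    W398.KS.phi_lt Y131.KS.cyc' W386.KS.supp W410.KalSar.gcnt W682.KS.gnum k hk n d hd hdn μ
    hal hphi

end Pool.Agent.H29.HK
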