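import Pool.Agent.H29.HK.Defs

set_option autoImplicit false

namespace Pool.Agent.H29.HK

open Finset MvPolynomial Pool.Agent.W555.KS

namespace PSAlt

/-- the rank of an element -/
def rk {n : ℕ} (U : Finset (Fin n)) (u : Fin n) : ℕ := (U.filter (fun w => w < u)).card

theorem rk_lt {n : ℕ} {U : Finset (Fin n)} {u u' : Fin n} (hu : u ∈ U) (h : u < u') :
    rk U u < rk U u' := by
  apply Finset.card_lt_card
  refine ⟨fun w hw => ?_, fun hsub => ?_⟩
  · rw [mem_filter] at hw ⊢
    exact ⟨hw.1, hw.2.trans h⟩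
  · have := hsub (mem_filter.2 ⟨hu, h⟩)
    rw [mem_filter] at this
    exact lt_irrefl _ this.2

theorem rk_inj {n : ℕ} {U : Finset (Fin n)} {u u' : Fin n} (hu : u ∈ U) (hu' : u' ∈ U)
    (h : rk U u = rk U u') : u = u' := by
  rcases lt_trichotomy u u' with h1 | h1 | h1
  · have := rk_lt hu h1; omega
  · exact h1
  · have := rk_lt hu' h1; omega

theorem rk_lt_card {n : ℕ} {U : Finset (Fin n)} {u : Fin n} (hu : u ∈ U) : rk U u < U.card := by
  apply Finset.card_lt_card
  refine ⟨filter_subset _ _, fun hsub => ?_⟩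
  have := hsub hu
  rw [mem_filter] at this
  exact lt_irrefl _ this.2

theorem evenPart_card {n : ℕ} (U : Finset (Fin n)) : (evenPart U).card ≤ (U.card + 1) / 2 := by
  rw [← card_range ((U.card + 1) / 2)]
  refine Finset.card_le_card_of_injOn (fun u => rk U u / 2) ?_ ?_
  · intro u hu
    rw [mem_coe] at hu
    unfold evenPart at hu
    rw [mem_filter] at hu
    have h1 := rk_lt_card hu.1
    have h2 : Even (rk U u) := hu.2
    simp only [coe_range, Set.mem_Iio]
    obtain ⟨j, hj⟩ := h2
    omega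
  · intro u hu u' hu' h
    rw [mem_coe] at hu hu'
    unfold evenPart at hu hu'
    rw [mem_filter] at hu hu'
    obtain ⟨j, hj⟩ := (show Even (rk U u) from hu.2)
    obtain ⟨j', hj'⟩ := (show Even (rk U u') from hu'.2)
    refine rk_inj hu.1 hu'.1 ?_
    have h' : rk U u / 2 = rk U u' / 2 := h
    omega

theorem oddPart_card {n : ℕ} (U : Finset (Fin n)) : (oddPart U).card ≤ U.card / 2 := by
  rw [← card_range (U.card / 2)]
  refine Finset.card_le_card_of_injOn (fun u => rk U u / 2) ?_ ?_
  · intro u hu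
    rw [mem_coe] at hu
    unfold oddPart at hu
    rw [mem_filter] at hu
    have h1 := rk_lt_card hu.1
    have h2 : ¬ Even (rk U u) := hu.2
    simp only [coe_range, Set.mem_Iio]
    rw [Nat.not_even_iff_odd] at h2
    obtain ⟨j, hj⟩ := h2
    omega
  · intro u hu u' hu' h
    rw [mem_coe] at hu hu'
    unfold oddPart at hu hu'
    rw [mem_filter] at hu hu'
    obtain ⟨j, hj⟩ := Nat.not_even_iff_odd.1 (show ¬ Even (rk U u) from hu.2)
    obtain ⟨j', hj'⟩ := Nat.not_even_iff_odd.1 (show ¬ Even (rk U u') from hu'.2)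
    refine rk_inj hu.1 hu'.1 ?_
    have h' : rk U u / 2 = rk U u' / 2 := h
    omega

theorem even_odd_union {n : ℕ} (U : Finset (Fin n)) : evenPart U ∪ oddPart U = U := by
  unfold evenPart oddPart
  rw [filter_union_filter_not_eq]

theorem even_odd_disj {n : ℕ} (U : Finset (Fin n)) : Disjoint (evenPart U) (oddPart U) := by
  unfold evenPart oddPart
  exact disjoint_filter_filter_not _ _ _

theorem cards {n m : ℕ} {U : Finset (Fin n)} (h : U.card = 2 * m) :
    (evenPart U).card = m ∧ (oddPart U).card = m := by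
  have h1 := evenPart_card U
  have h2 := oddPart_card U
  have h3 : (evenPart U).card + (oddPart U).card = U.card := by
    rw [← card_union_of_disjoint (even_odd_disj U), even_odd_union]
  omega

theorem first_even {n : ℕ} {U : Finset (Fin n)} (h : U.Nonempty) :
    first (evenPart U) (oddPart U) := by
  have hm : U.min' h ∈ evenPart U := by
    unfold evenPart
    rw [mem_filter]
    refine ⟨U.min'_mem h, ?_⟩
    have : U.filter (fun w => w < U.min' h) = ∅ := by
      rw [filter_eq_empty_iff]
      intro w hw hlt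
      exact absurd (U.min'_le w hw) (not_le.2 hlt)
    rw [this]
    simp
  refine ⟨U.min' h, hm, fun w hw => ?_⟩
  have hwU : w ∈ U := by
    unfold oddPart at hw
    exact (mem_filter.1 hw).1
  refine lt_of_le_of_ne (U.min'_le w hwU) ?_
  intro he
  rw [← he] at hw
  exact (Finset.disjoint_left.1 (even_odd_disj U)) hm hw

theorem first_asymm {n : ℕ} {σ τ : Finset (Fin n)} (h : first σ τ) : ¬ first τ σ := by
  rintro ⟨u', hu', h'⟩
  obtain ⟨u, hu, h1⟩ := h
  exact lt_asymm (h1 u' hu') (h' u hu)

theorem alt_eq {n m : ℕ} (hm : 1 ≤ m) {p : Finset (Fin n) × Finset (Fin n)}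
    (hp : p ∈ fpairs n m) : alt p.1 p.2 =
      if p.1 = evenPart (p.1 ∪ p.2) ∧ p.2 = oddPart (p.1 ∪ p.2) then 1 else 0 := by
  unfold fpairs pairs at hp
  rw [mem_filter, mem_filter] at hp
  obtain ⟨⟨-, h1, h2, h3⟩, h4⟩ := hp
  unfold alt
  by_cases h : p.1 = evenPart (p.1 ∪ p.2) ∧ p.2 = oddPart (p.1 ∪ p.2)
  · rw [if_pos h, if_pos (Or.inl h)]
  · rw [if_neg h, if_neg]
    rintro (h5 | h5)
    · exact h h5
    · have hne : (p.1 ∪ p.2).Nonempty := by
        have : p.1.Nonempty := by
          rw [← card_pos, h1]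
          omega
        exact this.mono subset_union_left
      have h6 := first_even hne
      rw [← h5.1, ← h5.2] at h6
      exact first_asymm h4 h6

end PSAlt

open PSAlt in
theorem sAlt : SAlt := by
  intro k _ _ n m s hm
  have h1 : ∑ p ∈ fpairs n m, cst k (alt p.1 p.2) * s p.1 p.2 =
      ∑ p ∈ (fpairs n m).filter
        (fun p => p.1 = evenPart (p.1 ∪ p.2) ∧ p.2 = oddPart (p.1 ∪ p.2)), s p.1 p.2 := by
    rw [Finset.sum_filter]
    refine Finset.sum_congr rfl fun p hp => ?_
    rw [alt_eq hm hp]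
    split_ifs with h
    · rw [map_one, one_mul]
    · rw [map_zero, zero_mul]
  rw [h1]
  refine Finset.sum_bij' (fun U _ => (evenPart U, oddPart U)) (fun p _ => p.1 ∪ p.2) ?_ ?_ ?_ ?_ ?_
  · intro U hU
    rw [mem_powersetCard] at hU
    obtain ⟨h2, h3⟩ := cards hU.2
    have hne : U.Nonempty := by
      rw [← card_pos, hU.2]
      omega
    rw [mem_filter]
    refine ⟨?_, ?_, ?_⟩
    · unfold fpairs pairs
      rw [mem_filter, mem_filter]
      exact ⟨⟨mem_univ _, h2, h3, even_odd_disj U⟩, first_even hne⟩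
    · show evenPart U = evenPart (evenPart U ∪ oddPart U)
      rw [even_odd_union]
    · show oddPart U = oddPart (evenPart U ∪ oddPart U)
      rw [even_odd_union]
  · intro p hp
    rw [mem_filter] at hp
    unfold fpairs pairs at hp
    rw [mem_filter, mem_filter] at hp
    obtain ⟨⟨⟨-, h2, h3, h4⟩, -⟩, -⟩ := hp
    rw [mem_powersetCard]
    refine ⟨subset_univ _, ?_⟩
    rw [card_union_of_disjoint h4, h2, h3]
    omega
  · intro U _
    exact even_odd_union U
  · intro p hp
    rw [mem_filter] at hp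
    exact Prod.ext hp.2.1.symm hp.2.2.symm
  · intro U _
    rfl

end Pool.Agent.H29.HK
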