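import Pool.Agent.H29.HK.Defs2
import Pool.Graph.R_seed8.W460.KS.G1

set_option autoImplicit false

namespace Pool.Agent.H29.HK

open Finset MvPolynomial Pool.Agent.W555.KS

namespace PSCnt

/-- the order `RevLT` as a linear order on exponent vectors of fixed degree -/
noncomputable def key {n : ℕ} (m : Fin n →₀ ℕ) : Lex (Fin n → ℤ) :=
  toLex (fun i => -((m (Fin.rev i) : ℕ) : ℤ))

theorem key_inj {n : ℕ} : Function.Injective (key (n := n)) := by
  intro m m' h
  ext i
  have h1 : (fun i => -((m (Fin.rev i) : ℕ) : ℤ)) = fun i => -((m' (Fin.rev i) : ℕ) : ℤ) := by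
    exact toLex.injective h
  have h2 := congrFun h1 (Fin.rev i)
  simp only [Fin.rev_rev] at h2
  omega

theorem revLT_of_key {n : ℕ} {m m' : Fin n →₀ ℕ} (hd : m.degree = m'.degree)
    (h : key m < key m') : RevLT m m' := by
  right
  refine ⟨hd, ?_⟩
  obtain ⟨i, hi, hi'⟩ := h
  refine ⟨Fin.rev i, ?_, ?_⟩
  · have h1 : -((m (Fin.rev i) : ℕ) : ℤ) < -((m' (Fin.rev i) : ℕ) : ℤ) := hi'
    omega
  · intro l hl
    have h1 := hi (Fin.rev l) (by
      rw [Fin.lt_def] at hl ⊢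
      rw [Fin.val_rev] at hl ⊢
      omega)
    have h2 : -((m (Fin.rev (Fin.rev l)) : ℕ) : ℤ) = -((m' (Fin.rev (Fin.rev l)) : ℕ) : ℤ) := h1
    rw [Fin.rev_rev] at h2
    omega

/-- comparison: a monomial with one of the last variables is smaller -/
theorem revLT_last {n s : ℕ} {m m' : Fin n →₀ ℕ} (hd : m.degree = m'.degree)
    (h : ∃ i : Fin n, n ≤ (i : ℕ) + s ∧ m i ≠ 0)
    (h' : ∀ i ∈ m'.support, (i : ℕ) + s < n) : RevLT m m' := by
  right
  refine ⟨hd, ?_⟩
  obtain ⟨i0, hi0, hi0'⟩ := h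
  have h0 : ∀ i : Fin n, n ≤ (i : ℕ) + s → m' i = 0 := by
    intro i hi
    by_contra hne
    have := h' i (Finsupp.mem_support_iff.mpr hne)
    omega
  have hne : m.support.Nonempty := ⟨i0, Finsupp.mem_support_iff.mpr hi0'⟩
  have h1 : i0 ≤ m.support.max' hne := Finset.le_max' _ _ (Finsupp.mem_support_iff.mpr hi0')
  have h2 : n ≤ ((m.support.max' hne : Fin n) : ℕ) + s := by
    have : (i0 : ℕ) ≤ ((m.support.max' hne : Fin n) : ℕ) := h1
    omega
  refine ⟨m.support.max' hne, ?_, ?_⟩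
  · rw [h0 _ h2]
    have h3 := Finsupp.mem_support_iff.mp (Finset.max'_mem _ hne)
    omega
  · intro i hi
    have h4 : ((m.support.max' hne : Fin n) : ℕ) < (i : ℕ) := hi
    have h5 : m i = 0 := by
      by_contra h6
      exact absurd (Finset.le_max' _ _ (Finsupp.mem_support_iff.mpr h6)) (not_le.mpr hi)
    rw [h5, h0 i (by omega)]

/-- the key point: no nonzero combination of the good monomials is in the ideal -/
theorem key_point {k : Type} [Field k] (n s r : ℕ) (L : Finset (Finset (Fin n)))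
    (g : Fin n × Fin n → k) (hg : (Matrix.of (fun i j => g (i, j))).det ≠ 0)
    (p : MvPolynomial (Fin n) k)
    (hp : ∀ μ ∈ p.support, μ.degree = r ∧ (∀ i ∈ μ.support, (i : ℕ) + s < n) ∧
      μ ∉ inSet (coordI g (srI k L)))
    (hmem : subst g p ∈ srI k L ⊔
      Ideal.span {p | ∃ i : Fin n, n ≤ (i : ℕ) + s ∧ p = lf (fun v => g (i, v))}) : p = 0 := by
  classical
  by_contra hp0
  let S : Set (Fin n →₀ ℕ) := {e | ∃ i : Fin n, n ≤ (i : ℕ) + s ∧ e = Finsupp.single i 1}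
  obtain ⟨J0, hJ0⟩ : ∃ J0 : Ideal (MvPolynomial (Fin n) k),
      J0 = Ideal.span ((fun e => monomial e (1 : k)) '' S) := ⟨_, rfl⟩
  have hbad : ∀ t ∈ J0, ∀ μ ∈ t.support, ∃ i : Fin n, n ≤ (i : ℕ) + s ∧ μ i ≠ 0 := by
    intro t ht μ hμ
    rw [hJ0, mem_ideal_span_monomial_image] at ht
    obtain ⟨e, heS, heμ⟩ := ht μ hμ
    obtain ⟨i, hi, rfl⟩ := heS
    refine ⟨i, hi, ?_⟩
    have := heμ i
    rw [Finsupp.single_eq_same] at this
    omega
  have hsurj := Pool.Agent.W460.KS.subst_surj g hg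
  have hle : Ideal.span {p | ∃ i : Fin n, n ≤ (i : ℕ) + s ∧ p = lf (fun v => g (i, v))} ≤
      Ideal.map (subst g) J0 := by
    rw [Ideal.span_le]
    rintro _ ⟨i, hi, rfl⟩
    change lf (fun v => g (i, v)) ∈ Ideal.map (subst g) J0
    rw [← Pool.Agent.W460.KS.subst_X, hJ0]
    exact Ideal.mem_map_of_mem _ (Ideal.subset_span ⟨_, ⟨i, hi, rfl⟩, rfl⟩)
  have hmem2 : subst g p ∈ srI k L ⊔ Ideal.map (subst g) J0 :=
    (sup_le le_sup_left (hle.trans le_sup_right)) hmem
  obtain ⟨s0, hsI, t', ht', hst⟩ := Submodule.mem_sup.mp hmem2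
  obtain ⟨t, ht, rfl⟩ := (Ideal.mem_map_iff_of_surjective _ hsurj).mp ht'
  obtain ⟨f0, hf0⟩ : ∃ f0, f0 = p - t := ⟨_, rfl⟩
  have hf0s : subst g f0 = s0 := by
    rw [hf0, map_sub, ← hst]
    ring
  obtain ⟨fh, hfh⟩ : ∃ fh, fh = homogeneousComponent r f0 := ⟨_, rfl⟩
  have hfhI : subst g fh ∈ srI k L := by
    rw [hfh, ← Pool.Agent.W460.KS.subst_component, hf0s]
    exact Pool.Agent.W460.KS.srI_component L hsI r
  have hne : p.support.Nonempty := by
    rw [Finset.nonempty_iff_ne_empty]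
    intro h
    exact hp0 (support_eq_empty.mp h)
  obtain ⟨μ, hμ, hmax⟩ := Finset.exists_max_image p.support key hne
  obtain ⟨hμd, hμs, hμn⟩ := hp μ hμ
  have htz : ∀ ν : Fin n →₀ ℕ, (∀ i ∈ ν.support, (i : ℕ) + s < n) → coeff ν t = 0 := by
    intro ν hν
    by_contra h
    obtain ⟨i, hi, hi'⟩ := hbad t ht ν (mem_support_iff.mpr h)
    have := hν i (Finsupp.mem_support_iff.mpr hi')
    omega
  apply hμn
  refine ⟨fh, hfhI, ?_, ?_⟩
  · rw [hfh, coeff_homogeneousComponent, if_pos hμd, hf0, coeff_sub, htz μ hμs, sub_zero]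
    exact mem_support_iff.mp hμ
  · intro ν hν hνμ
    rw [mem_support_iff, hfh, coeff_homogeneousComponent] at hν
    split_ifs at hν with hνd
    · by_cases hc : ∀ i ∈ ν.support, (i : ℕ) + s < n
      · rw [hf0, coeff_sub, htz ν hc, sub_zero] at hν
        have h1 := hmax ν (mem_support_iff.mpr hν)
        have h2 : key ν ≠ key μ := fun h => hνμ (key_inj h)
        exact revLT_of_key (by rw [hνd, hμd]) (lt_of_le_of_ne h1 h2)
      · push Not at hc
        obtain ⟨i, hi, hi'⟩ := hc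
        exact revLT_last (s := s) (by rw [hνd, hμd]) ⟨i, hi', Finsupp.mem_support_iff.mp hi⟩ hμs
    · exact absurd rfl hν

end PSCnt

theorem sCnt : SCnt := by
  classical
  intro k _ n s r L g hg
  obtain ⟨T0, hT0⟩ : ∃ T0 : Set (Fin n →₀ ℕ), T0 = {μ : Fin n →₀ ℕ | μ.degree = r ∧
    (∀ i ∈ μ.support, (i : ℕ) + s < n) ∧ μ ∉ inSet (coordI g (srI k L))} := ⟨_, rfl⟩
  obtain ⟨J, hJ⟩ : ∃ J : Ideal (MvPolynomial (Fin n) k), J = srI k L ⊔
    Ideal.span {p | ∃ i : Fin n, n ≤ (i : ℕ) + s ∧ p = lf (fun v => g (i, v))} := ⟨_, rfl⟩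
  rw [← hT0, ← hJ]
  by_cases hfin : T0.Finite
  swap
  · rw [Set.Infinite.ncard hfin]
    exact Nat.zero_le _
  obtain ⟨T, hT⟩ : ∃ T : Finset (Fin n →₀ ℕ), (T : Set (Fin n →₀ ℕ)) = T0 :=
    ⟨hfin.toFinset, hfin.coe_toFinset⟩
  have hTm : ∀ μ ∈ T, μ.degree = r ∧ (∀ i ∈ μ.support, (i : ℕ) + s < n) ∧
      μ ∉ inSet (coordI g (srI k L)) := by
    intro μ hμ
    have : μ ∈ T0 := by
      rw [← hT]
      exact_mod_cast hμ
    rw [hT0] at this
    exact this
  rw [← hT, Set.ncard_coe_finset]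
  unfold dimQ
  obtain ⟨W, hW⟩ : ∃ W, W = Submodule.map (Ideal.Quotient.mkₐ k J).toLinearMap
    (homogeneousSubmodule (Fin n) k r) := ⟨_, rfl⟩
  have hWfin : Module.Finite k W := by
    rw [hW]
    exact Module.Finite.iff_fg.2 ((homogeneousSubmodule_fg (σ := Fin n) k r).map _)
  rw [← hW]
  have hv : ∀ μ : T, (Ideal.Quotient.mkₐ k J).toLinearMap (subst g (monomial μ.1 1)) ∈ W := by
    intro μ
    rw [hW]
    refine Submodule.mem_map_of_mem ?_
    rw [mem_homogeneousSubmodule]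
    exact Pool.Agent.W460.KS.subst_homog g (isHomogeneous_monomial _ (hTm μ.1 μ.2).1)
  have hli : LinearIndependent k (fun μ : T => (⟨_, hv μ⟩ : W)) := by
    rw [Fintype.linearIndependent_iff]
    intro c hc
    have hc2 : ∑ μ : T, c μ • (Ideal.Quotient.mkₐ k J).toLinearMap
        (subst g (monomial μ.1 1)) = 0 := by
      have := congrArg (fun w : W => (w : MvPolynomial (Fin n) k ⧸ J)) hc
      simpa using this
    obtain ⟨p, hp⟩ : ∃ p : MvPolynomial (Fin n) k, p = ∑ μ : T, monomial μ.1 (c μ) := ⟨_, rfl⟩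
    have hco : ∀ ν : Fin n →₀ ℕ, coeff ν p = ∑ μ : T, if μ.1 = ν then c μ else 0 := by
      intro ν
      rw [hp, coeff_sum]
      exact Finset.sum_congr rfl fun μ _ => coeff_monomial _ _ _
    have hp2 : subst g p ∈ J := by
      rw [← Ideal.Quotient.eq_zero_iff_mem, hp, map_sum, map_sum, ← hc2]
      refine Finset.sum_congr rfl fun μ _ => ?_
      have h1 : (monomial μ.1 (c μ) : MvPolynomial (Fin n) k) = c μ • monomial μ.1 1 := by
        rw [smul_monomial, smul_eq_mul, mul_one]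
      rw [h1, map_smul]
      exact (Ideal.Quotient.mkₐ k J).toLinearMap.map_smul _ _
    have hp3 : p = 0 := by
      apply PSCnt.key_point n s r L g hg p _ (hJ ▸ hp2)
      intro ν hν
      rw [mem_support_iff, hco] at hν
      obtain ⟨μ, _, hμ⟩ := Finset.exists_ne_zero_of_sum_ne_zero hν
      have h2 : μ.1 = ν := by
        by_contra h
        exact hμ (if_neg h)
      rw [← h2]
      exact hTm μ.1 μ.2
    intro μ
    have h3 := hco μ.1
    rw [hp3, coeff_zero, Finset.sum_eq_single μ, if_pos rfl] at h3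
    · exact h3.symm
    · intro ν _ hν
      exact if_neg (fun h => hν (Subtype.ext h))
    · intro h
      exact absurd (Finset.mem_univ μ) h
  have hcard := hli.fintype_card_le_finrank
  rw [Fintype.card_coe] at hcard
  exact hcard

end Pool.Agent.H29.HK
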