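import Pool.Agent.H29.HK.Defs2
import Pool.Graph.R_seed8.W460.KS.G1

set_option autoImplicit false

namespace Pool.Agent.H29.HK

open Finset MvPolynomial Pool.Agent.W555.KS

namespace PSDich

open Pool.Agent.W460.KS

/-- membership of a row in the span of other rows, all depending polynomially on a point: either it
holds outside a hypersurface or it fails outside a hypersurface -/
theorem dich {σ k ι m : Type*} [Field k] [Fintype ι] [Fintype m]
    (A : ι → m → MvPolynomial σ k) (b : m → MvPolynomial σ k) :
    (∃ F : MvPolynomial σ k, F ≠ 0 ∧ ∀ g : σ → k, eval g F ≠ 0 →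
      (fun j => eval g (b j)) ∈
        Submodule.span k (Set.range (fun i : ι => fun j : m => eval g (A i j)))) ∨
    (∃ F : MvPolynomial σ k, F ≠ 0 ∧ ∀ g : σ → k, eval g F ≠ 0 →
      (fun j => eval g (b j)) ∉
        Submodule.span k (Set.range (fun i : ι => fun j : m => eval g (A i j)))) := by
  classical
  have hinj : Function.Injective (algebraMap (MvPolynomial σ k) (FractionRing (MvPolynomial σ k))) := IsFractionRing.injective _ _
  by_cases h : (fun j => algebraMap (MvPolynomial σ k) (FractionRing (MvPolynomial σ k)) (b j)) ∈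
      Submodule.span (FractionRing (MvPolynomial σ k)) (Set.range (fun i : ι => fun j : m => algebraMap (MvPolynomial σ k) (FractionRing (MvPolynomial σ k)) (A i j)))
  · left
    rw [Submodule.mem_span_range_iff_exists_fun] at h
    obtain ⟨c, hc⟩ := h
    obtain ⟨q, hq⟩ := IsLocalization.exist_integer_multiples_of_finite (nonZeroDivisors (MvPolynomial σ k)) c
    choose p hp using hq
    refine ⟨(q : MvPolynomial σ k), nonZeroDivisors.ne_zero q.2, fun g hg => ?_⟩
    rw [Submodule.mem_span_range_iff_exists_fun]
    refine ⟨fun i => eval g (p i) / eval g (q : MvPolynomial σ k), ?_⟩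
    funext j
    have h1 : ∑ i, p i * A i j = (q : MvPolynomial σ k) * b j := by
      apply hinj
      rw [map_sum, map_mul]
      have h2 := congrFun hc j
      rw [Finset.sum_apply] at h2
      rw [← h2, Finset.mul_sum]
      refine Finset.sum_congr rfl fun i _ => ?_
      rw [map_mul, hp i, Algebra.smul_def, Pi.smul_apply, smul_eq_mul, mul_assoc]
    have h3 := congrArg (eval g) h1
    rw [map_sum, map_mul] at h3
    rw [Finset.sum_apply]
    have h4 : eval g (b j) = (∑ i, eval g (p i * A i j)) / eval g (q : MvPolynomial σ k) := by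
      rw [h3, mul_div_cancel_left₀ _ hg]
    rw [h4, Finset.sum_div]
    refine Finset.sum_congr rfl fun i _ => ?_
    rw [Pi.smul_apply, smul_eq_mul, map_mul]
    ring
  · right
    obtain ⟨f, hf, hle⟩ := Submodule.exists_le_ker_of_notMem h
    obtain ⟨q, hq⟩ := IsLocalization.exist_integer_multiples_of_finite (nonZeroDivisors (MvPolynomial σ k))
      (fun j : m => f (Pi.single j 1))
    choose w hw using hq
    have hfx : ∀ x : m → MvPolynomial σ k, algebraMap (MvPolynomial σ k) (FractionRing (MvPolynomial σ k)) (∑ j, x j * w j) =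
        algebraMap (MvPolynomial σ k) (FractionRing (MvPolynomial σ k)) (q : MvPolynomial σ k) * f (fun j => algebraMap (MvPolynomial σ k) (FractionRing (MvPolynomial σ k)) (x j)) := by
      intro x
      rw [LinearMap.pi_apply_eq_sum_univ f, Finset.mul_sum, map_sum]
      refine Finset.sum_congr rfl fun j _ => ?_
      rw [map_mul, hw j, Algebra.smul_def, smul_eq_mul]
      have : (fun i => if j = i then (1 : FractionRing (MvPolynomial σ k)) else 0) = Pi.single j 1 := by
        funext i
        rw [Pi.single_apply]
        by_cases h : j = i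
        · rw [if_pos h, if_pos h.symm]
        · rw [if_neg h, if_neg (fun e => h e.symm)]
      rw [this]
      ring
    have hq0 : algebraMap (MvPolynomial σ k) (FractionRing (MvPolynomial σ k)) (q : MvPolynomial σ k) ≠ 0 := by
      rw [Ne, map_eq_zero_iff _ hinj]
      exact nonZeroDivisors.ne_zero q.2
    have hA : ∀ i, ∑ j, A i j * w j = 0 := by
      intro i
      apply hinj
      rw [hfx, map_zero]
      have : f (fun j => algebraMap (MvPolynomial σ k) (FractionRing (MvPolynomial σ k)) (A i j)) = 0 :=
        hle (Submodule.subset_span ⟨i, rfl⟩)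
      rw [this, mul_zero]
    refine ⟨∑ j, b j * w j, ?_, ?_⟩
    · intro h0
      have h1 := hfx b
      rw [h0, map_zero] at h1
      exact (mul_ne_zero hq0 hf) h1.symm
    · intro g hg hmem
      apply hg
      let φ : (m → k) →ₗ[k] k := ∑ j, (eval g (w j)) • (LinearMap.proj j : (m → k) →ₗ[k] k)
      have hφ : ∀ x : m → k, φ x = ∑ j, x j * eval g (w j) := by
        intro x
        simp only [φ, LinearMap.sum_apply, LinearMap.smul_apply, LinearMap.proj_apply, smul_eq_mul]
        exact Finset.sum_congr rfl fun j _ => mul_comm _ _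
      have hker : Submodule.span k (Set.range (fun i : ι => fun j : m => eval g (A i j))) ≤
          LinearMap.ker φ := by
        rw [Submodule.span_le]
        rintro _ ⟨i, rfl⟩
        show φ _ = 0
        rw [hφ]
        have := congrArg (eval g) (hA i)
        rw [map_sum, map_zero] at this
        rw [← this]
        exact Finset.sum_congr rfl fun j _ => (map_mul _ _ _).symm
      have h1 : φ (fun j => eval g (b j)) = 0 := hker hmem
      rw [hφ] at h1
      rw [map_sum, ← h1]
      exact Finset.sum_congr rfl fun j _ => map_mul _ _ _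

/-- the coefficients of the substituted monomials as polynomials in the matrix entries -/
noncomputable def gq {n : ℕ} (k : Type*) [Field k] (ν m : Fin n →₀ ℕ) :
    MvPolynomial (Fin n × Fin n) k :=
  coeff m (ν.prod fun i e => (∑ v, C (X (i, v)) * X v :
    MvPolynomial (Fin n) (MvPolynomial (Fin n × Fin n) k)) ^ e)

theorem eval_gq {n : ℕ} {k : Type*} [Field k] (g : Fin n × Fin n → k) (ν m : Fin n →₀ ℕ) :
    eval g (gq k ν m) = coeff m (subst g (monomial ν 1)) := by
  unfold gq subst
  rw [← coeff_map, aeval_monomial, map_one, one_mul, Finsupp.prod, Finsupp.prod, map_prod]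
  congr 1
  refine Finset.prod_congr rfl fun i _ => ?_
  rw [map_pow, map_sum]
  congr 1
  unfold lf
  refine Finset.sum_congr rfl fun v _ => ?_
  rw [map_mul, map_C, map_X, eval_X]

theorem revLT_irrefl {n : ℕ} (μ : Fin n →₀ ℕ) : ¬ RevLT μ μ := by
  rintro (h | ⟨_, j, hj, _⟩)
  · exact lt_irrefl _ h
  · exact lt_irrefl _ hj

/-- membership of homogeneous polynomials in the Stanley-Reisner ideal -/
theorem mem_srI {n : ℕ} {k : Type*} [Field k] (L : Finset (Finset (Fin n))) (r : ℕ)
    {p : MvPolynomial (Fin n) k} (hp : p.IsHomogeneous r) :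
    p ∈ srI k L ↔ ∀ m : Fin n →₀ ℕ, m.degree = r →
      (¬ ∃ s ∈ {s : Fin n →₀ ℕ | ∃ σ : Finset (Fin n), σ ∉ L ∧ s = ∑ v ∈ σ, Finsupp.single v 1},
        s ≤ m) → coeff m p = 0 := by
  rw [srI_eq, mem_ideal_span_monomial_image]
  constructor
  · intro h m _ hm
    by_contra hc
    exact hm (h m (mem_support_iff.mpr hc))
  · intro h m hm
    by_contra hc
    have hdeg : m.degree = r := by
      have := hp (mem_support_iff.mp hm)
      rw [Finsupp.degree_eq_weight_one]
      exact this
    exact (mem_support_iff.mp hm) (h m hdeg hc)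

end PSDich

open PSDich Pool.Agent.W460.KS in
theorem sDich : SDich := by
  classical
  intro k _ _ n L μ hμ
  set r := μ.degree with hr
  let T := {ν : Fin n →₀ ℕ // ν.degree = r ∧ RevLT ν μ}
  let M := {m : Fin n →₀ ℕ // m.degree = r ∧
    ¬ ∃ s ∈ {s : Fin n →₀ ℕ | ∃ σ : Finset (Fin n), σ ∉ L ∧ s = ∑ v ∈ σ, Finsupp.single v 1},
        s ≤ m}
  have hT : Finite T := ((Finsupp.finite_of_degree_eq r).subset
    (fun ν (hν : ν.degree = r ∧ RevLT ν μ) => hν.1)).to_subtype
  have hM : Finite M := ((Finsupp.finite_of_degree_eq r).subset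
    (fun m (hm : m.degree = r ∧
    ¬ ∃ s ∈ {s : Fin n →₀ ℕ | ∃ σ : Finset (Fin n), σ ∉ L ∧ s = ∑ v ∈ σ, Finsupp.single v 1},
        s ≤ m) => hm.1)).to_subtype
  have := Fintype.ofFinite T
  have := Fintype.ofFinite M
  have key : ∀ g : Fin n × Fin n → k, μ ∈ inSet (coordI g (srI k L)) ↔
      (fun j : M => eval g (gq k μ j.1)) ∈
        Submodule.span k (Set.range (fun i : T => fun j : M => eval g (gq k i.1 j.1))) := by
    intro g
    constructor
    · rintro ⟨f, hf, hfμ, hfs⟩
      set h := homogeneousComponent r f with hh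
      have hhI : subst g h ∈ srI k L := by
        rw [hh, ← subst_component]
        exact srI_component L hf r
      have hhh : h.IsHomogeneous r := homogeneousComponent_isHomogeneous r f
      let Ψ : MvPolynomial (Fin n) k →ₗ[k] (M → k) :=
        LinearMap.pi fun j : M => (lcoeff k j.1).comp (subst g).toLinearMap
      have hΨ : ∀ p j, Ψ p j = coeff j.1 (subst g p) := fun _ _ => rfl
      have hΨm : ∀ ν : Fin n →₀ ℕ, Ψ (monomial ν 1) = fun j : M => eval g (gq k ν j.1) := by
        intro ν
        funext j
        rw [hΨ, eval_gq]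
      have h0 : Ψ h = 0 := by
        funext j
        rw [hΨ]
        exact (mem_srI L r (subst_homog g hhh)).mp hhI j.1 j.2.1 j.2.2
      have hμs : μ ∈ h.support := by
        rw [mem_support_iff, hh, coeff_homogeneousComponent, if_pos rfl]
        exact hfμ
      have h1 : Ψ h = ∑ m ∈ h.support, coeff m h • Ψ (monomial m 1) := by
        conv_lhs => rw [as_sum h, map_sum]
        refine Finset.sum_congr rfl fun m _ => ?_
        rw [← map_smul, smul_monomial, smul_eq_mul, mul_one]
      rw [h0, ← Finset.add_sum_erase _ _ hμs] at h1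
      have h2 : ∑ m ∈ h.support.erase μ, coeff m h • Ψ (monomial m 1) ∈
          Submodule.span k (Set.range (fun i : T => fun j : M => eval g (gq k i.1 j.1))) := by
        refine Submodule.sum_mem _ fun m hm => Submodule.smul_mem _ _ (Submodule.subset_span ?_)
        rw [Finset.mem_erase, mem_support_iff, hh, coeff_homogeneousComponent] at hm
        obtain ⟨hm1, hm2⟩ := hm
        have hd : m.degree = r := by
          by_contra hc
          rw [if_neg hc] at hm2
          exact hm2 rfl
        rw [if_pos hd] at hm2
        exact ⟨⟨m, hd, hfs m (mem_support_iff.mpr hm2) hm1⟩, (hΨm m).symm⟩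
      have h3 : coeff μ h • Ψ (monomial μ 1) ∈
          Submodule.span k (Set.range (fun i : T => fun j : M => eval g (gq k i.1 j.1))) := by
        rw [eq_neg_of_add_eq_zero_left h1.symm]
        exact Submodule.neg_mem _ h2
      rw [Submodule.smul_mem_iff _ (mem_support_iff.mp hμs), hΨm] at h3
      exact h3
    · intro hmem
      rw [Submodule.mem_span_range_iff_exists_fun] at hmem
      obtain ⟨c, hc⟩ := hmem
      refine ⟨monomial μ 1 - ∑ i : T, c i • monomial i.1 1, ?_, ?_, ?_⟩
      · show subst g _ ∈ srI k L
        have hhom : (monomial μ (1 : k) - ∑ i : T, c i • monomial i.1 (1 : k)).IsHomogeneous r := by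
          refine (homogeneousSubmodule (Fin n) k r).sub_mem (isHomogeneous_monomial _ rfl) ?_
          refine (homogeneousSubmodule (Fin n) k r).sum_mem fun i _ => ?_
          exact (homogeneousSubmodule (Fin n) k r).smul_mem _ (isHomogeneous_monomial _ i.2.1)
        rw [mem_srI L r (subst_homog g hhom)]
        intro m hm1 hm2
        rw [map_sub, map_sum, coeff_sub, coeff_sum, ← eval_gq]
        have h1 := congrFun hc (⟨m, hm1, hm2⟩ : M)
        rw [Finset.sum_apply] at h1
        rw [← h1, sub_eq_zero]
        refine Finset.sum_congr rfl fun i _ => ?_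
        rw [map_smul, coeff_smul, ← eval_gq]
        rfl
      · rw [coeff_sub, coeff_sum, coeff_monomial, if_pos rfl]
        have : ∑ i : T, coeff μ (c i • monomial i.1 (1 : k)) = 0 := by
          refine Finset.sum_eq_zero fun i _ => ?_
          rw [coeff_smul, coeff_monomial, if_neg, smul_zero]
          intro e
          have := i.2.2
          rw [e] at this
          exact revLT_irrefl _ this
        rw [this, sub_zero]
        exact one_ne_zero
      · intro m hm hne
        rw [mem_support_iff, coeff_sub, coeff_monomial, if_neg (Ne.symm hne), zero_sub, neg_ne_zero,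
          coeff_sum] at hm
        obtain ⟨i, _, hi⟩ := Finset.exists_ne_zero_of_sum_ne_zero hm
        rw [coeff_smul, coeff_monomial] at hi
        by_cases e : i.1 = m
        · rw [← e]
          exact i.2.2
        · rw [if_neg e, smul_zero] at hi
          exact absurd rfl hi
  rcases dich (fun (i : T) (j : M) => gq k i.1 j.1) (fun j : M => gq k μ j.1) with
    ⟨F, hF0, hF⟩ | ⟨F, hF0, hF⟩
  · exact absurd ⟨F, hF0, fun g _ hg => (key g).2 (hF g hg)⟩ hμ
  · exact ⟨F, hF0, fun g _ hg h => hF g hg ((key g).1 h)⟩

end Pool.Agent.H29.HK
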