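import Pool.Agent.H29.HK.Defs

set_option autoImplicit false

namespace Pool.Agent.H29.HK

open Finset MvPolynomial Pool.Agent.W555.KS

namespace PSE2

/-- The half sum over `SP`. -/
def AA {k : Type} [Field k] {n m : ℕ} (a : Fin (2 * m) → Fin n → k) (i0 : Fin (2 * m))
    (σ τ : Finset (Fin n)) : k :=
  ∑ p ∈ (SP (2 * m) n m σ τ).filter (fun p => i0 ∉ p.1), ∏ i, a i (p.2 i)

theorem group {k : Type} [Field k] {n m : ℕ} (a : Fin (2 * m) → Fin n → k) (i0 : Fin (2 * m))
    (G : Finset (Fin n) → Finset (Fin n) → k) :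
    ∑ I ∈ (powersetCard m (univ : Finset (Fin (2 * m)))).filter (fun I => i0 ∉ I),
      ∑ h ∈ TI m n I, (∏ i, a i (h i)) * G (I.image h) (Iᶜ.image h) =
    ∑ p ∈ powersetCard m (univ : Finset (Fin n)) ×ˢ powersetCard m (univ : Finset (Fin n)),
      G p.1 p.2 * AA a i0 p.1 p.2 := by
  set X : Finset (Finset (Fin (2 * m)) × (Fin (2 * m) → Fin n)) :=
    univ.filter (fun p => (p.1.card = m ∧ i0 ∉ p.1) ∧
      (p.1.image p.2).card = m ∧ (p.1ᶜ.image p.2).card = m) with hX
  have h1 : ∑ p ∈ X, (∏ i, a i (p.2 i)) * G (p.1.image p.2) (p.1ᶜ.image p.2) =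
      ∑ I ∈ (powersetCard m (univ : Finset (Fin (2 * m)))).filter (fun I => i0 ∉ I),
      ∑ h ∈ TI m n I, (∏ i, a i (h i)) * G (I.image h) (Iᶜ.image h) := by
    refine sum_finset_product X _ (fun I => TI m n I) ?_
    intro p
    simp only [hX, TI, mem_filter, mem_univ, true_and, mem_powersetCard, subset_univ]
  rw [← h1]
  rw [← sum_fiberwise_of_maps_to (s := X)
    (t := powersetCard m (univ : Finset (Fin n)) ×ˢ powersetCard m (univ : Finset (Fin n)))
    (g := fun p => (p.1.image p.2, p.1ᶜ.image p.2))]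
  · refine sum_congr rfl fun q hq => ?_
    rw [mem_product, mem_powersetCard, mem_powersetCard] at hq
    unfold AA
    rw [mul_sum]
    have hset : X.filter (fun p => (p.1.image p.2, p.1ᶜ.image p.2) = q) =
        (SP (2 * m) n m q.1 q.2).filter (fun p => i0 ∉ p.1) := by
      ext p
      simp only [hX, SP, mem_filter, mem_univ, true_and, Prod.ext_iff]
      constructor
      · rintro ⟨⟨⟨a1, a2⟩, a3, a4⟩, a5, a6⟩
        exact ⟨⟨a1, a5, a6⟩, a2⟩
      · rintro ⟨⟨a1, a5, a6⟩, a2⟩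
        refine ⟨⟨⟨a1, a2⟩, ?_, ?_⟩, a5, a6⟩
        · rw [a5]; exact hq.1.2
        · rw [a6]; exact hq.2.2
    rw [hset]
    refine sum_congr rfl fun p hp => ?_
    simp only [SP, mem_filter, mem_univ, true_and] at hp
    rw [hp.1.2.1, hp.1.2.2, mul_comm]
  · intro p hp
    simp only [hX, mem_filter, mem_univ, true_and] at hp
    rw [mem_product, mem_powersetCard, mem_powersetCard]
    exact ⟨⟨subset_univ _, hp.2.1⟩, ⟨subset_univ _, hp.2.2⟩⟩

end PSE2

theorem sE2 (ha : SLa) (hb : SLb) (hc : SLc) (hs : SLs) (hf : SFirst) : SE2 := by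
  intro k _ _ n m a i0 G hm hG
  rw [PSE2.group]
  have hsum : ∀ σ τ : Finset (Fin n), PSE2.AA a i0 σ τ + PSE2.AA a i0 τ σ =
      ∑ p ∈ SP (2 * m) n m σ τ, ∏ i, a i (p.2 i) := fun σ τ => hs k n m a i0 σ τ
  rw [← sum_filter_add_sum_filter_not
    (powersetCard m (univ : Finset (Fin n)) ×ˢ powersetCard m (univ : Finset (Fin n)))
    (fun p => Disjoint p.1 p.2)]
  have hnd : ∑ p ∈ (powersetCard m (univ : Finset (Fin n)) ×ˢ
      powersetCard m (univ : Finset (Fin n))).filter (fun p => ¬ Disjoint p.1 p.2),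
      G p.1 p.2 * PSE2.AA a i0 p.1 p.2 = 0 := by
    refine sum_involution (fun p _ => Prod.swap p) ?_ ?_ ?_ ?_
    · rintro ⟨σ, τ⟩ hp
      rw [mem_filter, mem_product, mem_powersetCard, mem_powersetCard] at hp
      show G σ τ * PSE2.AA a i0 σ τ + G τ σ * PSE2.AA a i0 τ σ = 0
      rw [← hG σ τ, ← mul_add, hsum, hb k n m a σ τ hp.1.1.2 hp.1.2.2 hp.2, mul_zero]
    · rintro ⟨σ, τ⟩ hp hne heq
      rw [mem_filter, mem_product, mem_powersetCard, mem_powersetCard] at hp
      have h1 : τ = σ := congrArg Prod.fst heq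
      subst h1
      apply hne
      show G τ τ * PSE2.AA a i0 τ τ = 0
      have h2 : PSE2.AA a i0 τ τ = 0 := hc k n m a i0 τ hm hp.1.1.2
      rw [h2, mul_zero]
    · rintro ⟨σ, τ⟩ hp
      rw [mem_filter, mem_product] at hp ⊢
      exact ⟨⟨hp.1.2, hp.1.1⟩, fun h => hp.2 h.symm⟩
    · intro p _
      exact Prod.swap_swap p
  rw [hnd, add_zero]
  have hset : (powersetCard m (univ : Finset (Fin n)) ×ˢ
      powersetCard m (univ : Finset (Fin n))).filter (fun p => Disjoint p.1 p.2) = pairs n m := by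
    ext p
    simp only [pairs, mem_filter, mem_product, mem_powersetCard, mem_univ, true_and, subset_univ]
    tauto
  rw [hset]
  have h1 := hf k n m (fun σ τ => G σ τ * PSE2.AA a i0 σ τ) (by omega)
  rw [← h1]
  refine sum_congr rfl fun p hp => ?_
  have hp' : p.1.card = m ∧ p.2.card = m ∧ Disjoint p.1 p.2 := by
    unfold fpairs pairs at hp
    exact (mem_filter.1 (mem_filter.1 hp).1).2
  show G p.1 p.2 * PSE2.AA a i0 p.1 p.2 + G p.2 p.1 * PSE2.AA a i0 p.2 p.1 = _
  rw [← hG p.1 p.2, ← mul_add, hsum, ha k n m a p.1 p.2 hp'.1 hp'.2.1 hp'.2.2]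

end Pool.Agent.H29.HK
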