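import Pool.Agent.H29.HK.Defs2

set_option autoImplicit false

namespace Pool.Agent.H29.HK

open Finset MvPolynomial Pool.Agent.W555.KS

namespace PSElim

/-- the polynomial matrix -/
noncomputable def pat0 {N n c : ℕ} (κ : Fin n → Fin c) (r : Fin N → Fin c) (i : Fin N)
    (v : Fin n) : MvPolynomial (Fin N × Fin n) (ZMod 2) :=
  if κ v = r i then X (i, v) else 0

theorem det_ne {N n c : ℕ} (κ : Fin n → Fin c) (r : Fin N → Fin c) (e : Fin N → Fin n)
    (he : Function.Injective e) (hr : ∀ i, κ (e i) = r i) :
    (Matrix.of fun i j => pat κ r i (e j)).det ≠ 0 := by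
  have h1 : (Matrix.of fun i j => pat κ r i (e j)) =
      (algebraMap (MvPolynomial (Fin N × Fin n) (ZMod 2)) (Kf N n)).mapMatrix
        (Matrix.of fun i j => pat0 κ r i (e j)) := by
    ext i j
    simp only [Matrix.of_apply, RingHom.mapMatrix_apply, Matrix.map_apply, pat, pat0]
    split_ifs
    · rfl
    · rw [map_zero]
  rw [h1, ← RingHom.map_det]
  intro h2
  have h3 : (Matrix.of fun i j => pat0 κ r i (e j)).det = 0 :=
    IsFractionRing.injective _ (Kf N n) (h2.trans (map_zero _).symm)
  have h4 := congrArg (MvPolynomial.eval fun p : Fin N × Fin n =>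
    if p.2 = e p.1 then (1 : ZMod 2) else 0) h3
  rw [RingHom.map_det, map_zero] at h4
  have h5 : (MvPolynomial.eval fun p : Fin N × Fin n =>
      if p.2 = e p.1 then (1 : ZMod 2) else 0).mapMatrix
      (Matrix.of fun i j => pat0 κ r i (e j)) = 1 := by
    ext i j
    simp only [Matrix.of_apply, RingHom.mapMatrix_apply, Matrix.map_apply, pat0]
    by_cases hij : i = j
    · subst hij
      rw [if_pos (hr i), eval_X, if_pos rfl, Matrix.one_apply_eq]
    · rw [Matrix.one_apply_ne hij]
      have h6 : e j ≠ e i := fun h => hij (he h).symm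
      split_ifs
      · rw [eval_X, if_neg h6]
      · rw [map_zero]
  rw [h5, Matrix.det_one] at h4
  exact one_ne_zero h4

end PSElim

open PSElim in
theorem sElim : SElim := by
  classical
  intro n N c κ r e he hr
  set A : Matrix (Fin N) (Fin N) (Kf N n) := Matrix.of fun i j => pat κ r i (e j) with hA
  have hdet : IsUnit A.det := (det_ne κ r e he hr).isUnit
  -- the elimination vectors
  have hu : ∀ w : Fin n, ∃ u : Fin N → Kf N n, ∀ i, ∑ j, pat κ r i (e j) * u j + pat κ r i w = 0 := by
    intro w
    refine ⟨-(A⁻¹.mulVec fun i => pat κ r i w), fun i => ?_⟩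
    have h1 : A.mulVec (A⁻¹.mulVec fun i => pat κ r i w) = fun i => pat κ r i w := by
      rw [Matrix.mulVec_mulVec, Matrix.mul_nonsing_inv A hdet, Matrix.one_mulVec]
    have h2 := congrFun h1 i
    rw [Matrix.mulVec, dotProduct] at h2
    have h3 : ∑ j, pat κ r i (e j) * (-(A⁻¹.mulVec fun i => pat κ r i w)) j =
        - ∑ j, A i j * (A⁻¹.mulVec fun i => pat κ r i w) j := by
      rw [← sum_neg_distrib]
      refine sum_congr rfl fun j _ => ?_
      rw [Pi.neg_apply, mul_neg]
      rfl
    rw [h3, h2, neg_add_cancel]
  choose u hu using hu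
  -- the solution without colours
  have hB0 : ∃ B0 : Fin n → Fin n → Kf N n, (∀ w i, ∑ v, pat κ r i v * B0 v w = 0) ∧
      (∀ v w, v ∉ Set.range e → B0 v w = if v = w then 1 else 0) := by
    refine ⟨fun v w => if w ∈ Set.range e then 0 else
      (∑ j, if e j = v then u w j else 0) + if v = w then 1 else 0, ?_, ?_⟩
    · intro w i
      by_cases hw : w ∈ Set.range e
      · simp [hw]
      · simp only [if_neg hw, mul_add, sum_add_distrib, mul_sum]
        rw [sum_comm]
        have h1 : ∀ j, ∑ v, pat κ r i v * (if e j = v then u w j else 0) =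
            pat κ r i (e j) * u w j := by
          intro j
          rw [sum_eq_single (e j)]
          · rw [if_pos rfl]
          · intro v _ hv
            rw [if_neg hv.symm, mul_zero]
          · intro h
            exact (h (mem_univ _)).elim
        have h2 : ∑ v, pat κ r i v * (if v = w then 1 else 0) = pat κ r i w := by
          rw [sum_eq_single w]
          · rw [if_pos rfl, mul_one]
          · intro v _ hv
            rw [if_neg hv, mul_zero]
          · intro h
            exact (h (mem_univ _)).elim
        rw [sum_congr rfl fun j _ => h1 j, h2]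
        exact hu w i
    · intro v w hv
      have h1 : ∀ j, e j ≠ v := fun j h => hv ⟨j, h⟩
      by_cases hw : w ∈ Set.range e
      · simp only [if_pos hw]
        rw [if_neg]
        rintro rfl
        exact hv hw
      · simp only [if_neg hw]
        rw [sum_eq_zero fun j _ => if_neg (h1 j), zero_add]
  obtain ⟨B0, h1, h2⟩ := hB0
  refine ⟨fun v w => if κ v = κ w then B0 v w else 0, ?_, ?_, ?_⟩
  · intro w i
    by_cases hi : r i = κ w
    · rw [← h1 w i]
      refine sum_congr rfl fun v _ => ?_
      by_cases hv : κ v = κ w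
      · simp only [if_pos hv]
      · have h3 : pat κ r i v = 0 := if_neg fun h => hv (h.trans hi)
        rw [h3, zero_mul, zero_mul]
    · refine sum_eq_zero fun v _ => ?_
      by_cases hv : κ v = κ w
      · have h3 : pat κ r i v = 0 := if_neg fun h => hi (h.symm.trans hv)
        rw [h3, zero_mul]
      · simp only [if_neg hv, mul_zero]
  · intro v w hv
    by_cases h3 : κ v = κ w
    · simp only [if_pos h3]
      exact h2 v w hv
    · simp only [if_neg h3]
      rw [if_neg]
      rintro rfl
      exact h3 rfl
  · intro v w h3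
    simp only [if_neg h3]

end Pool.Agent.H29.HK
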