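import Pool.Agent.H29.HK.Defs

set_option autoImplicit false

namespace Pool.Agent.H29.HK

open Finset MvPolynomial Pool.Agent.W555.KS

namespace PSFac

theorem image_sub {N n : ℕ} (h : Fin N → Fin n) (I : Finset (Fin N)) :
    I.image h = univ.image (fun i : {i // i ∈ I} => h i.1) := by
  ext v
  constructor
  · intro hv
    obtain ⟨i, hi, rfl⟩ := Finset.mem_image.mp hv
    exact Finset.mem_image.mpr ⟨⟨i, hi⟩, Finset.mem_univ _, rfl⟩
  · intro hv
    obtain ⟨i, _, rfl⟩ := Finset.mem_image.mp hv
    exact Finset.mem_image_of_mem h i.2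

theorem image_subc {N n : ℕ} (h : Fin N → Fin n) (I : Finset (Fin N)) :
    Iᶜ.image h = univ.image (fun i : {i // ¬ i ∈ I} => h i.1) := by
  ext v
  constructor
  · intro hv
    obtain ⟨i, hi, rfl⟩ := Finset.mem_image.mp hv
    exact Finset.mem_image.mpr ⟨⟨i, Finset.mem_compl.mp hi⟩, Finset.mem_univ _, rfl⟩
  · intro hv
    obtain ⟨i, _, rfl⟩ := Finset.mem_image.mp hv
    exact Finset.mem_image_of_mem h (Finset.mem_compl.mpr i.2)

theorem sum_split {k : Type*} [Field k] {N n : ℕ} (I : Finset (Fin N))
    (U : ({i // i ∈ I} → Fin n) → k) (V : ({i // ¬ i ∈ I} → Fin n) → k) :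
    ∑ h : Fin N → Fin n, U (fun i => h i.1) * V (fun i => h i.1) = (∑ h, U h) * ∑ h, V h := by
  rw [Finset.sum_mul_sum, ← Fintype.sum_prod_type' (f := fun h1 h2 => U h1 * V h2)]
  exact Fintype.sum_equiv (Equiv.piEquivPiSubtypeProd (fun i => i ∈ I) (fun _ => Fin n)) _ _
    (fun h => rfl)

end PSFac

open PSFac in
theorem sFac : SFac := by
  intro k R _ _ _ _ n m b a x M Q y I hz
  let U : Fin b → ({i // i ∈ I} → Fin n) → k := fun j h =>
    (∏ i : {i // i ∈ I}, a i.1 (h i)) *
      (if (univ.image h).card = m then cst k (y (univ.image h) j) * M (∏ v ∈ univ.image h, x v)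
        else 0)
  let V : Fin b → ({i // ¬ i ∈ I} → Fin n) → k := fun j h =>
    (∏ i : {i // ¬ i ∈ I}, a i.1 (h i)) *
      (if (univ.image h).card = m then cst k (y (univ.image h) j) * M (∏ v ∈ univ.image h, x v)
        else 0)
  have hUz : ∀ j, ∑ h, U j h = 0 := hz
  have hsplit : ∀ h : Fin (2 * m) → Fin n,
      (if h ∈ TI m n I then (∏ i, a i (h i)) * Gf x Q y M (I.image h) (Iᶜ.image h) else 0) =
        ∑ j, ∑ j', cst k (Q j j') * (U j (fun i => h i.1) * V j' (fun i => h i.1)) := by
    intro h
    have hprod : ∏ i, a i (h i) = (∏ i : {i // i ∈ I}, a i.1 (h i.1)) *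
        ∏ i : {i // ¬ i ∈ I}, a i.1 (h i.1) := by
      refine (Fintype.prod_subtype_mul_prod_subtype (fun i => i ∈ I)
        (fun i => a i (h i))).symm.trans (congrArg₂ (· * ·) ?_ rfl)
      exact Finset.prod_congr (Finset.ext fun i => by simp) (fun _ _ => rfl)
    by_cases h1 : (I.image h).card = m
    · by_cases h2 : (Iᶜ.image h).card = m
      · have hT : h ∈ TI m n I := by
          simp only [TI, Finset.mem_filter, Finset.mem_univ, true_and]
          exact ⟨h1, h2⟩
        rw [if_pos hT, hprod]
        have hU' : ∀ j, U j (fun i => h i.1) = (∏ i : {i // i ∈ I}, a i.1 (h i.1)) *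
            (cst k (y (I.image h) j) * M (∏ v ∈ I.image h, x v)) := by
          intro j
          have h1' := h1
          rw [image_sub] at h1'
          simp only [U]
          rw [if_pos h1', ← image_sub]
        have hV' : ∀ j, V j (fun i => h i.1) = (∏ i : {i // ¬ i ∈ I}, a i.1 (h i.1)) *
            (cst k (y (Iᶜ.image h) j) * M (∏ v ∈ Iᶜ.image h, x v)) := by
          intro j
          have h2' := h2
          rw [image_subc] at h2'
          simp only [V]
          rw [if_pos h2', ← image_subc]
        simp only [hU', hV', Gf, map_sum, map_mul, Finset.mul_sum, Finset.sum_mul]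
        refine Finset.sum_congr rfl (fun j _ => Finset.sum_congr rfl (fun j' _ => ?_))
        ring
      · have hT : h ∉ TI m n I := by
          simp only [TI, Finset.mem_filter, Finset.mem_univ, true_and]
          exact fun hh => h2 hh.2
        rw [if_neg hT]
        symm
        refine Finset.sum_eq_zero (fun j _ => Finset.sum_eq_zero (fun j' _ => ?_))
        have h2' := h2
        rw [image_subc] at h2'
        simp only [V]
        rw [if_neg h2', mul_zero, mul_zero, mul_zero]
    · have hT : h ∉ TI m n I := by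
        simp only [TI, Finset.mem_filter, Finset.mem_univ, true_and]
        exact fun hh => h1 hh.1
      rw [if_neg hT]
      symm
      refine Finset.sum_eq_zero (fun j _ => Finset.sum_eq_zero (fun j' _ => ?_))
      have h1' := h1
      rw [image_sub] at h1'
      simp only [U]
      rw [if_neg h1', mul_zero, zero_mul, mul_zero]
  have h0 : ∑ h ∈ TI m n I, (∏ i, a i (h i)) * Gf x Q y M (I.image h) (Iᶜ.image h) =
      ∑ h : Fin (2 * m) → Fin n, ∑ j, ∑ j', cst k (Q j j') *
        (U j (fun i => h i.1) * V j' (fun i => h i.1)) := by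
    rw [← Finset.sum_congr rfl (fun h _ => hsplit h), Finset.sum_ite_mem, Finset.univ_inter]
  rw [h0, Finset.sum_comm]
  refine Finset.sum_eq_zero (fun j _ => ?_)
  rw [Finset.sum_comm]
  refine Finset.sum_eq_zero (fun j' _ => ?_)
  rw [← Finset.mul_sum, sum_split I (U j) (V j'), hUz j, zero_mul, mul_zero]

end Pool.Agent.H29.HK
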