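import Pool.Agent.H29.HK.Defs

set_option autoImplicit false

namespace Pool.Agent.H29.HK

open Finset MvPolynomial Pool.Agent.W555.KS

namespace PSFirst

theorem not_both {n : ℕ} {σ τ : Finset (Fin n)} (h1 : first σ τ) (h2 : first τ σ) : False := by
  obtain ⟨u, hu, h⟩ := h1
  obtain ⟨w, hw, h'⟩ := h2
  exact lt_asymm (h w hw) (h' u hu)

theorem some_first {n : ℕ} {σ τ : Finset (Fin n)} (hσ : σ.Nonempty) (hτ : τ.Nonempty)
    (hd : Disjoint σ τ) (h : ¬ first σ τ) : first τ σ := by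
  have hne : σ.min' hσ ≠ τ.min' hτ := by
    intro he
    exact Finset.disjoint_left.mp hd (σ.min'_mem hσ) (he ▸ τ.min'_mem hτ)
  rcases lt_or_gt_of_ne hne with h1 | h1
  · exact absurd ⟨σ.min' hσ, σ.min'_mem hσ, fun w hw => lt_of_lt_of_le h1 (τ.min'_le w hw)⟩ h
  · exact ⟨τ.min' hτ, τ.min'_mem hτ, fun w hw => lt_of_lt_of_le h1 (σ.min'_le w hw)⟩

end PSFirst

open PSFirst in
theorem sFirst : SFirst := by
  intro A _ n m g hm
  rw [Finset.sum_add_distrib]
  have h2 : ∑ p ∈ fpairs n m, g p.2 p.1 =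
      ∑ p ∈ (pairs n m).filter (fun p => ¬ first p.1 p.2), g p.1 p.2 := by
    refine Finset.sum_nbij' Prod.swap Prod.swap ?_ ?_ ?_ ?_ ?_
    · rintro ⟨σ, τ⟩ h
      simp only [fpairs, pairs, Finset.mem_filter, Finset.mem_univ, true_and, Prod.swap_prod_mk]
        at h ⊢
      exact ⟨⟨h.1.2.1, h.1.1, h.1.2.2.symm⟩, fun h' => not_both h.2 h'⟩
    · rintro ⟨σ, τ⟩ h
      simp only [fpairs, pairs, Finset.mem_filter, Finset.mem_univ, true_and, Prod.swap_prod_mk]
        at h ⊢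
      refine ⟨⟨h.1.2.1, h.1.1, h.1.2.2.symm⟩, some_first ?_ ?_ h.1.2.2 h.2⟩
      · exact Finset.card_pos.mp (by omega)
      · exact Finset.card_pos.mp (by omega)
    · intro p _; rfl
    · intro p _; rfl
    · intro p _; rfl
  rw [h2]
  exact Finset.sum_filter_add_sum_filter_not _ _ _

end Pool.Agent.H29.HK
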