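import Pool.Agent.H29.HK.Defs2

set_option autoImplicit false

namespace Pool.Agent.H29.HK

open Finset MvPolynomial Pool.Agent.W555.KS

namespace PSKill

/-- even functions with prescribed fibres, compatible with the pattern -/
theorem exists_fib {n N c : ℕ} (κ : Fin n → Fin c) (r : Fin N → Fin c) (b : Fin n → ℕ)
    (hb : ∀ j, ∑ v ∈ univ.filter (fun v => κ v = j), b v =
      (univ.filter (fun i => r i = j)).card) :
    ∃ h : Fin N → Fin n, (∀ v, fib h v = b v) ∧ ∀ i, κ (h i) = r i := by
  classical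
  have hcard : ∀ j, Fintype.card {p : (v : Fin n) × Fin (b v) // κ p.1 = j} =
      Fintype.card {i : Fin N // r i = j} := by
    intro j
    rw [Fintype.card_congr (Equiv.subtypeSigmaEquiv (fun v : Fin n => Fin (b v))
      (fun v => κ v = j)), Fintype.card_sigma, Fintype.card_subtype (fun i : Fin N => r i = j),
      ← hb j]
    simp_rw [Fintype.card_fin]
    exact (Finset.sum_subtype (univ.filter (fun v => κ v = j))
      (fun v => by rw [mem_filter]; exact ⟨fun h => h.2, fun h => ⟨mem_univ _, h⟩⟩) b).symm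
  let e : ∀ j, {p : (v : Fin n) × Fin (b v) // κ p.1 = j} ≃ {i : Fin N // r i = j} :=
    fun j => Fintype.equivOfCardEq (hcard j)
  let E : ((v : Fin n) × Fin (b v)) ≃ Fin N :=
    Equiv.ofFiberEquiv (f := fun p : (v : Fin n) × Fin (b v) => κ p.1) (g := r) e
  have hE : ∀ p, r (E p) = κ p.1 := fun p =>
    Equiv.ofFiberEquiv_map (f := fun p : (v : Fin n) × Fin (b v) => κ p.1) (g := r) e p
  refine ⟨fun i => (E.symm i).1, fun v => ?_, fun i => ?_⟩
  · unfold fib
    rw [← Fintype.card_subtype]
    have e1 : {i : Fin N // (E.symm i).1 = v} ≃ {p : (i : Fin n) × Fin (b i) // p.1 = v} :=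
      E.symm.subtypeEquiv fun i => Iff.rfl
    rw [Fintype.card_congr e1,
      Fintype.card_congr (Equiv.sigmaSubtype (β := fun v => Fin (b v)) v), Fintype.card_fin]
  · have h1 := hE (E.symm i)
    rw [Equiv.apply_symm_apply] at h1
    exact h1.symm

end PSKill

theorem sKill (hind : StInd) : SKill := by
  classical
  intro R n m c _ _ κ r x M hsum β hβ
  have hβ' : ∀ j, ∑ v ∈ univ.filter (fun v => κ v = j), 2 * β v =
      (univ.filter (fun i => r i = j)).card := by
    intro j
    rw [← hβ j, Finset.mul_sum]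
  obtain ⟨h, hfib, hκ⟩ := PSKill.exists_fib κ r (fun v => 2 * β v) hβ'
  have hev : EvenFun h := fun v => by
    rw [hfib v]
    exact even_two_mul _
  have hhalf : halfMon x h = ∏ v, x v ^ β v := by
    unfold halfMon
    refine Finset.prod_congr rfl fun v _ => ?_
    rw [hfib v, Nat.mul_div_cancel_left _ (by norm_num)]
  rw [← hhalf]
  let S0 : Finset (Fin (2 * m) → Fin n) :=
    (univ.filter EvenFun).filter fun g => ∀ i, κ (g i) = r i
  have e3 : ∑ g ∈ S0, (∏ i, gen (2 * m) n i (g i)) * M (halfMon x g) ^ 2 = 0 := by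
    rw [← hsum]
    have e4 : ∑ g ∈ S0, (∏ i, gen (2 * m) n i (g i)) * M (halfMon x g) ^ 2 =
        ∑ g ∈ S0, (∏ i, pat κ r i (g i)) * M (halfMon x g) ^ 2 := by
      refine Finset.sum_congr rfl fun g hg => ?_
      have h1 := (Finset.mem_filter.1 hg).2
      congr 1
      refine Finset.prod_congr rfl fun i _ => ?_
      exact (if_pos (h1 i)).symm
    rw [e4]
    refine Finset.sum_subset (Finset.filter_subset _ _) ?_
    intro g hg hgn
    have h1 : ¬ ∀ i, κ (g i) = r i := fun h2 => hgn (Finset.mem_filter.2 ⟨hg, h2⟩)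
    push Not at h1
    obtain ⟨i, hi⟩ := h1
    have h2 : ∏ i, pat κ r i (g i) = 0 :=
      Finset.prod_eq_zero (Finset.mem_univ i) (if_neg hi)
    rw [h2, zero_mul]
  -- independence
  let s : (Fin (2 * m) → Fin n) → Finset (Fin (2 * m) × Fin n) := fun h =>
    univ.image fun i => (i, h i)
  have hs : Function.Injective s := by
    intro h h' hhh
    funext i
    have h3 : (i, h i) ∈ s h := Finset.mem_image_of_mem _ (Finset.mem_univ i)
    rw [hhh] at h3
    obtain ⟨j, -, hj⟩ := Finset.mem_image.mp h3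
    have h4 : j = i := congrArg Prod.fst hj
    have h5 : h' j = h i := congrArg Prod.snd hj
    rw [← h5, h4]
  let cc : Finset (Fin (2 * m) × Fin n) → Kf (2 * m) n :=
    Function.extend s (fun g => M (halfMon x g)) 0
  have hc : ∀ g, cc (s g) = M (halfMon x g) := fun g => hs.extend_apply _ _ g
  have e5 := hind (Fin (2 * m) × Fin n) (S0.image s) cc (by
    rw [Finset.sum_image fun _ _ _ _ hh => hs hh]
    rw [← e3]
    refine Finset.sum_congr rfl fun g _ => ?_
    rw [hc]
    congr 1
    rw [map_prod, Finset.prod_image (by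
      intro i _ j _ hij
      exact congrArg Prod.fst hij)]
    rfl)
  have e6 := e5 (s h) (Finset.mem_image_of_mem _ (Finset.mem_filter.mpr
    ⟨Finset.mem_filter.mpr ⟨Finset.mem_univ _, hev⟩, hκ⟩))
  rw [hc] at e6
  exact e6

end Pool.Agent.H29.HK
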