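import Pool.Agent.H29.HK.Defs

set_option autoImplicit false

namespace Pool.Agent.H29.HK

open Finset MvPolynomial Pool.Agent.W555.KS

namespace PSLa

theorem inj_of {m n : ℕ} {σ τ : Finset (Fin n)} (hσ : σ.card = m) (hτ : τ.card = m)
    {I : Finset (Fin (2 * m))} {h : Fin (2 * m) → Fin n} (h1 : I.card = m) (h2 : I.image h = σ)
    (h3 : Iᶜ.image h = τ) : Set.InjOn h I ∧ Set.InjOn h (Iᶜ : Finset (Fin (2 * m))) := by
  refine ⟨card_image_iff.1 ?_, card_image_iff.1 ?_⟩
  · rw [h2, hσ, h1]
  · rw [h3, hτ, card_compl, Fintype.card_fin, h1]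
    omega

end PSLa

theorem sLa : SLa := by
  intro k _ n m a σ τ hσ hτ hd
  unfold bra
  refine sum_bij' (fun p _ => p.2) (fun h _ => (univ.filter (fun i => h i ∈ σ), h)) ?_ ?_ ?_ ?_ ?_
  · rintro ⟨I, h⟩ hp
    simp only [SP, mem_filter, mem_univ, true_and] at hp
    obtain ⟨h1, h2, h3⟩ := hp
    obtain ⟨i1, i2⟩ := PSLa.inj_of hσ hτ h1 h2 h3
    rw [mem_filter]
    refine ⟨mem_univ _, ?_, ?_⟩
    · intro x y hxy
      have hx : ∀ z : Fin (2 * m), z ∈ I → h z ∈ σ := fun z hz => by
        rw [← h2]; exact mem_image_of_mem h hz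
      have hx' : ∀ z : Fin (2 * m), z ∉ I → h z ∈ τ := fun z hz => by
        rw [← h3]; exact mem_image_of_mem h (mem_compl.2 hz)
      have hxy' : h x = h y := hxy
      by_cases hxI : x ∈ I
      · by_cases hyI : y ∈ I
        · exact i1 hxI hyI hxy
        · exact absurd (hx' y hyI) (hxy' ▸ disjoint_left.1 hd (hx x hxI))
      · by_cases hyI : y ∈ I
        · exact absurd (hx' x hxI) (hxy'.symm ▸ disjoint_left.1 hd (hx y hyI))
        · exact i2 (mem_coe.2 (mem_compl.2 hxI)) (mem_coe.2 (mem_compl.2 hyI)) hxy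
    · show univ.image h = σ ∪ τ
      rw [← h2, ← h3, ← image_union, union_compl]
  · intro h hh
    rw [mem_filter] at hh
    obtain ⟨-, hinj, him⟩ := hh
    have e1 : (univ.filter (fun i => h i ∈ σ)).image h = σ := by
      ext x
      rw [mem_image]
      constructor
      · rintro ⟨i, hi, rfl⟩
        exact (mem_filter.1 hi).2
      · intro hx
        have : x ∈ univ.image h := by
          rw [him]
          exact mem_union_left _ hx
        obtain ⟨i, _, rfl⟩ := mem_image.1 this
        exact ⟨i, mem_filter.2 ⟨mem_univ _, hx⟩, rfl⟩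
    have e2 : ((univ.filter (fun i => h i ∈ σ))ᶜ).image h = τ := by
      ext x
      rw [mem_image]
      constructor
      · rintro ⟨i, hi, rfl⟩
        have h1 : h i ∉ σ := fun h' => (mem_compl.1 hi) (mem_filter.2 ⟨mem_univ _, h'⟩)
        have : h i ∈ σ ∪ τ := by
          rw [← him]
          exact mem_image_of_mem h (mem_univ _)
        exact (mem_union.1 this).resolve_left h1
      · intro hx
        have : x ∈ univ.image h := by
          rw [him]
          exact mem_union_right _ hx
        obtain ⟨i, _, rfl⟩ := mem_image.1 this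
        refine ⟨i, mem_compl.2 fun h' => ?_, rfl⟩
        exact disjoint_left.1 hd (mem_filter.1 h').2 hx
    simp only [SP, mem_filter, mem_univ, true_and]
    refine ⟨?_, e1, e2⟩
    have h5 := card_image_of_injective (univ.filter (fun i => h i ∈ σ)) hinj
    rw [e1] at h5
    exact h5.symm.trans hσ
  · rintro ⟨I, h⟩ hp
    simp only [SP, mem_filter, mem_univ, true_and] at hp
    obtain ⟨h1, h2, h3⟩ := hp
    have : univ.filter (fun i => h i ∈ σ) = I := by
      ext z
      rw [mem_filter]
      constructor
      · rintro ⟨_, hz⟩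
        by_contra hzI
        have : h z ∈ τ := by
          rw [← h3]; exact mem_image_of_mem h (mem_compl.2 hzI)
        exact disjoint_left.1 hd hz this
      · intro hz
        refine ⟨mem_univ _, ?_⟩
        rw [← h2]; exact mem_image_of_mem h hz
    show (univ.filter (fun i => h i ∈ σ), h) = (I, h)
    rw [this]
  · intro h _
    rfl
  · intro p _
    rfl

end Pool.Agent.H29.HK
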