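import Pool.Agent.H29.HK.Defs

set_option autoImplicit false

namespace Pool.Agent.H29.HK

open Finset MvPolynomial Pool.Agent.W555.KS

namespace PSLb

theorem inj_of {m n : ℕ} {σ τ : Finset (Fin n)} (hσ : σ.card = m) (hτ : τ.card = m)
    {I : Finset (Fin (2 * m))} {h : Fin (2 * m) → Fin n} (h1 : I.card = m) (h2 : I.image h = σ)
    (h3 : Iᶜ.image h = τ) : Set.InjOn h I ∧ Set.InjOn h (Iᶜ : Finset (Fin (2 * m))) := by
  refine ⟨card_image_iff.1 ?_, card_image_iff.1 ?_⟩
  · rw [h2, hσ, h1]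
  · rw [h3, hτ, card_compl, Fintype.card_fin, h1]
    omega

/-- Swap the membership on the fibre of `w`. -/
def sw {m n : ℕ} (w : Fin n) (p : Finset (Fin (2 * m)) × (Fin (2 * m) → Fin n)) :
    Finset (Fin (2 * m)) × (Fin (2 * m) → Fin n) :=
  (univ.filter (fun i => if p.2 i = w then i ∉ p.1 else i ∈ p.1), p.2)

theorem mem_sw {m n : ℕ} (w : Fin n) (p : Finset (Fin (2 * m)) × (Fin (2 * m) → Fin n))
    (i : Fin (2 * m)) : i ∈ (sw w p).1 ↔ (if p.2 i = w then i ∉ p.1 else i ∈ p.1) := by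
  simp [sw]

theorem sw_sw {m n : ℕ} (w : Fin n) (p : Finset (Fin (2 * m)) × (Fin (2 * m) → Fin n)) :
    sw w (sw w p) = p := by
  refine Prod.ext ?_ rfl
  ext i
  rw [mem_sw, mem_sw]
  show (if p.2 i = w then ¬ (if p.2 i = w then i ∉ p.1 else i ∈ p.1)
    else (if p.2 i = w then i ∉ p.1 else i ∈ p.1)) ↔ i ∈ p.1
  by_cases h : p.2 i = w
  · rw [if_pos h, if_pos h, not_not]
  · rw [if_neg h, if_neg h]

theorem sw_mem {m n : ℕ} {σ τ : Finset (Fin n)} (hσ : σ.card = m) (hτ : τ.card = m) {w : Fin n}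
    (hw1 : w ∈ σ) (hw2 : w ∈ τ) {p : Finset (Fin (2 * m)) × (Fin (2 * m) → Fin n)}
    (hp : p ∈ SP (2 * m) n m σ τ) : sw w p ∈ SP (2 * m) n m σ τ := by
  obtain ⟨I, h⟩ := p
  simp only [SP, mem_filter, mem_univ, true_and] at hp
  obtain ⟨h1, h2, h3⟩ := hp
  obtain ⟨i1, i2⟩ := inj_of hσ hτ h1 h2 h3
  obtain ⟨i, hiI, hiw⟩ : ∃ i ∈ I, h i = w := by
    rw [← h2] at hw1
    exact mem_image.1 hw1
  obtain ⟨j, hjI, hjw⟩ : ∃ j ∈ Iᶜ, h j = w := by
    rw [← h3] at hw2
    exact mem_image.1 hw2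
  have hjI' : j ∉ I := mem_compl.1 hjI
  have hmem : ∀ z, z ∈ (sw w (I, h)).1 ↔ (if h z = w then z ∉ I else z ∈ I) := mem_sw w (I, h)
  have hset : (sw w (I, h)).1 = insert j (I.erase i) := by
    ext z
    rw [hmem, mem_insert, mem_erase]
    by_cases hz : h z = w
    · rw [if_pos hz]
      constructor
      · intro hzI
        left
        exact i2 (mem_coe.2 (mem_compl.2 hzI)) (mem_coe.2 hjI) (hz.trans hjw.symm)
      · rintro (rfl | ⟨hne, hzI⟩)
        · exact hjI'
        · exact absurd (i1 hzI hiI (hz.trans hiw.symm)) hne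
    · rw [if_neg hz]
      constructor
      · intro hzI
        right
        refine ⟨?_, hzI⟩
        rintro rfl
        exact hz hiw
      · rintro (rfl | ⟨_, hzI⟩)
        · exact absurd hjw hz
        · exact hzI
  have hne : i ≠ j := by
    rintro rfl
    exact hjI' hiI
  simp only [SP, mem_filter, mem_univ, true_and]
  refine ⟨?_, ?_, ?_⟩
  · rw [hset, card_insert_of_notMem, card_erase_of_mem hiI, h1]
    · have : 0 < m := by
        rw [← h1]
        exact card_pos.2 ⟨i, hiI⟩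
      omega
    · rw [mem_erase]
      exact fun h' => hjI' h'.2
  · show (sw w (I, h)).1.image h = σ
    ext x
    rw [mem_image]
    constructor
    · rintro ⟨z, hz, rfl⟩
      rw [hmem] at hz
      by_cases hzw : h z = w
      · rw [hzw]; exact hw1
      · rw [if_neg hzw] at hz
        rw [← h2]
        exact mem_image_of_mem h hz
    · intro hx
      by_cases hxw : x = w
      · refine ⟨j, ?_, hjw.trans hxw.symm⟩
        rw [hmem, if_pos hjw]
        exact hjI'
      · rw [← h2] at hx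
        obtain ⟨z, hz, rfl⟩ := mem_image.1 hx
        refine ⟨z, ?_, rfl⟩
        rw [hmem, if_neg hxw]
        exact hz
  · show (sw w (I, h)).1ᶜ.image h = τ
    ext x
    rw [mem_image]
    constructor
    · rintro ⟨z, hz, rfl⟩
      rw [mem_compl, hmem] at hz
      by_cases hzw : h z = w
      · rw [hzw]; exact hw2
      · rw [if_neg hzw] at hz
        rw [← h3]
        exact mem_image_of_mem h (mem_compl.2 hz)
    · intro hx
      by_cases hxw : x = w
      · refine ⟨i, ?_, hiw.trans hxw.symm⟩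
        rw [mem_compl, hmem, if_pos hiw, not_not]
        exact hiI
      · rw [← h3] at hx
        obtain ⟨z, hz, rfl⟩ := mem_image.1 hx
        refine ⟨z, ?_, rfl⟩
        rw [mem_compl, hmem, if_neg hxw]
        exact mem_compl.1 hz

end PSLb

theorem sLb : SLb := by
  intro k _ _ n m a σ τ hσ hτ hd
  rw [disjoint_left] at hd
  push Not at hd
  obtain ⟨w, hw1, hw2⟩ := hd
  refine sum_involution (fun p _ => PSLb.sw w p) ?_ ?_ ?_ ?_
  · intro p _
    show ∏ i, a i (p.2 i) + ∏ i, a i (p.2 i) = 0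
    exact CharTwo.add_self_eq_zero _
  · rintro ⟨I, h⟩ hp _ heq
    simp only [SP, mem_filter, mem_univ, true_and] at hp
    obtain ⟨h1, h2, h3⟩ := hp
    obtain ⟨i, hiI, hiw⟩ : ∃ i ∈ I, h i = w := by
      rw [← h2] at hw1
      exact mem_image.1 hw1
    have h4 : (PSLb.sw w (I, h)).1 = I := congrArg Prod.fst heq
    have h5 : i ∈ (PSLb.sw w (I, h)).1 := by
      rw [h4]; exact hiI
    rw [PSLb.mem_sw] at h5
    have h6 : (if h i = w then i ∉ I else i ∈ I) := h5
    rw [if_pos hiw] at h6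
    exact h6 hiI
  · intro p hp
    exact PSLb.sw_mem hσ hτ hw1 hw2 hp
  · intro p _
    exact PSLb.sw_sw w p

end Pool.Agent.H29.HK
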