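import Pool.Agent.H29.HK.Defs

set_option autoImplicit false

namespace Pool.Agent.H29.HK

open Finset MvPolynomial Pool.Agent.W555.KS

namespace PSLc

/-- the swap of the two elements of the fibre of `w` -/
def sw {N n : ℕ} (h : Fin N → Fin n) (w : Fin n) (I : Finset (Fin N)) : Finset (Fin N) :=
  symmDiff I (univ.filter (fun i => h i = w))

theorem mem_sw {N n : ℕ} (h : Fin N → Fin n) (w : Fin n) (I : Finset (Fin N)) (x : Fin N) :
    x ∈ sw h w I ↔ (x ∈ I ∧ h x ≠ w) ∨ (h x = w ∧ x ∉ I) := by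
  simp [sw, Finset.mem_symmDiff]

theorem sw_sw {N n : ℕ} (h : Fin N → Fin n) (w : Fin n) (I : Finset (Fin N)) :
    sw h w (sw h w I) = I := by
  simp [sw]

theorem image_sw {N n : ℕ} (h : Fin N → Fin n) (w : Fin n) (I : Finset (Fin N))
    (σ : Finset (Fin n)) (h1 : I.image h = σ) (h2 : Iᶜ.image h = σ) (hw : w ∈ σ) :
    (sw h w I).image h = σ := by
  ext v
  constructor
  · intro hv
    obtain ⟨x, hx, rfl⟩ := Finset.mem_image.mp hv
    by_cases hxI : x ∈ I
    · rw [← h1]; exact Finset.mem_image_of_mem h hxI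
    · rw [← h2]; exact Finset.mem_image_of_mem h (Finset.mem_compl.mpr hxI)
  · intro hv
    by_cases hvw : v = w
    · subst hvw
      rw [← h2] at hv
      obtain ⟨x, hx, hxv⟩ := Finset.mem_image.mp hv
      exact Finset.mem_image.mpr ⟨x, (mem_sw h v I x).mpr
        (Or.inr ⟨hxv, Finset.mem_compl.mp hx⟩), hxv⟩
    · rw [← h1] at hv
      obtain ⟨x, hx, hxv⟩ := Finset.mem_image.mp hv
      exact Finset.mem_image.mpr ⟨x, (mem_sw h w I x).mpr
        (Or.inl ⟨hx, by rw [hxv]; exact hvw⟩), hxv⟩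

theorem sw_compl {N n : ℕ} (h : Fin N → Fin n) (w : Fin n) (I : Finset (Fin N)) :
    (sw h w I)ᶜ = sw h w Iᶜ := by
  ext x
  rw [Finset.mem_compl, mem_sw, mem_sw, Finset.mem_compl]
  by_cases hxI : x ∈ I <;> by_cases hxw : h x = w <;> simp [hxI, hxw]

theorem card_sw {N n m : ℕ} (h : Fin N → Fin n) (w : Fin n) (I : Finset (Fin N))
    (σ : Finset (Fin n)) (h1 : I.image h = σ) (h2 : Iᶜ.image h = σ) (hw : w ∈ σ)
    (hσ : σ.card = m) (hI : I.card = m) (hIc : Iᶜ.card = m) :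
    (sw h w I).card = m := by
  have inj1 : Set.InjOn h (I : Set (Fin N)) := by
    apply Finset.card_image_iff.mp; rw [h1, hσ, hI]
  have inj2 : Set.InjOn h ((Iᶜ : Finset (Fin N)) : Set (Fin N)) := by
    apply Finset.card_image_iff.mp; rw [h2, hσ, hIc]
  obtain ⟨i, hi, hiw⟩ := Finset.mem_image.mp (h1.symm ▸ hw : w ∈ I.image h)
  obtain ⟨j, hj, hjw⟩ := Finset.mem_image.mp (h2.symm ▸ hw : w ∈ Iᶜ.image h)
  have hj' : j ∉ I := Finset.mem_compl.mp hj
  have e : sw h w I = insert j (I.erase i) := by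
    ext x
    rw [mem_sw, Finset.mem_insert, Finset.mem_erase]
    constructor
    · rintro (⟨hx, hxw⟩ | ⟨hxw, hx⟩)
      · right
        refine ⟨?_, hx⟩
        rintro rfl
        exact hxw hiw
      · left
        exact inj2 (Finset.mem_coe.mpr (Finset.mem_compl.mpr hx)) (Finset.mem_coe.mpr hj)
          (hxw.trans hjw.symm)
    · rintro (rfl | ⟨hxi, hx⟩)
      · exact Or.inr ⟨hjw, hj'⟩
      · left
        refine ⟨hx, fun hxw => hxi ?_⟩
        exact inj1 (Finset.mem_coe.mpr hx) (Finset.mem_coe.mpr hi) (hxw.trans hiw.symm)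
  rw [e, Finset.card_insert_of_notMem (fun hh => hj' (Finset.mem_of_mem_erase hh)),
    Finset.card_erase_of_mem hi, hI]
  have : 0 < I.card := Finset.card_pos.mpr ⟨i, hi⟩
  omega

end PSLc

open PSLc in
theorem sLc : SLc := by
  intro k _ _ n m a i0 σ hm hσ
  obtain ⟨w1, hw1, w2, hw2, hne⟩ := Finset.one_lt_card.mp (by omega : 1 < σ.card)
  set W : (Fin (2 * m) → Fin n) → Fin n := fun h => if h i0 ≠ w1 then w1 else w2 with hW
  have hWσ : ∀ h, W h ∈ σ := by
    intro h
    simp only [hW]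
    split_ifs
    · exact hw1
    · exact hw2
  have hWi : ∀ h, h i0 ≠ W h := by
    intro h
    simp only [hW]
    split_ifs with hh
    · exact hh
    · intro h'
      rw [not_not] at hh
      exact hne (hh.symm.trans h')
  have hdata : ∀ p ∈ (SP (2 * m) n m σ σ).filter (fun p => i0 ∉ p.1),
      p.1.card = m ∧ p.1ᶜ.card = m ∧ p.1.image p.2 = σ ∧ p.1ᶜ.image p.2 = σ ∧ i0 ∉ p.1 := by
    intro p hp
    rw [Finset.mem_filter] at hp
    have h1 := hp.1
    simp only [SP, Finset.mem_filter, Finset.mem_univ, true_and] at h1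
    refine ⟨h1.1, ?_, h1.2.1, h1.2.2, hp.2⟩
    rw [Finset.card_compl, Fintype.card_fin, h1.1]; omega
  refine Finset.sum_involution (fun p _ => (sw p.2 (W p.2) p.1, p.2)) ?_ ?_ ?_ ?_
  · intro p _
    exact CharTwo.add_self_eq_zero _
  · intro p hp _ heq
    obtain ⟨_, _, h3, _, _⟩ := hdata p hp
    obtain ⟨i, hi, hiw⟩ := Finset.mem_image.mp (h3.symm ▸ hWσ p.2 : W p.2 ∈ p.1.image p.2)
    have h4 : sw p.2 (W p.2) p.1 = p.1 := congrArg Prod.fst heq
    have h5 : i ∈ sw p.2 (W p.2) p.1 := by rw [h4]; exact hi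
    rcases (mem_sw _ _ _ _).mp h5 with h6 | h6
    · exact h6.2 hiw
    · exact h6.2 hi
  · intro p hp
    obtain ⟨h1, h2, h3, h4, h5⟩ := hdata p hp
    rw [Finset.mem_filter]
    refine ⟨?_, ?_⟩
    · simp only [SP, Finset.mem_filter, Finset.mem_univ, true_and]
      refine ⟨card_sw _ _ _ σ h3 h4 (hWσ _) hσ h1 h2, image_sw _ _ _ σ h3 h4 (hWσ _), ?_⟩
      rw [sw_compl]
      exact image_sw _ _ _ σ h4 (by rw [compl_compl]; exact h3) (hWσ _)
    · intro h6
      rcases (mem_sw _ _ _ _).mp h6 with h7 | h7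
      · exact h5 h7.1
      · exact hWi _ h7.1
  · intro p hp
    simp [sw_sw]

end Pool.Agent.H29.HK
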