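import Pool.Agent.H29.HK.Defs

set_option autoImplicit false

namespace Pool.Agent.H29.HK

open Finset MvPolynomial Pool.Agent.W555.KS

theorem sLs : SLs := by
  intro k _ n m a i0 σ τ
  have h2 : ∑ p ∈ (SP (2 * m) n m τ σ).filter (fun p => i0 ∉ p.1), ∏ i, a i (p.2 i) =
      ∑ p ∈ (SP (2 * m) n m σ τ).filter (fun p => ¬ (i0 ∉ p.1)), ∏ i, a i (p.2 i) := by
    have key : ∀ (σ τ : Finset (Fin n)) (p : Finset (Fin (2 * m)) × (Fin (2 * m) → Fin n)),
        p ∈ SP (2 * m) n m σ τ → (p.1ᶜ, p.2) ∈ SP (2 * m) n m τ σ := by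
      rintro σ τ ⟨I, h⟩ hp
      simp only [SP, Finset.mem_filter, Finset.mem_univ, true_and] at hp ⊢
      refine ⟨?_, hp.2.2, ?_⟩
      · rw [Finset.card_compl, Fintype.card_fin, hp.1]; omega
      · rw [compl_compl]; exact hp.2.1
    refine Finset.sum_nbij' (fun p => (p.1ᶜ, p.2)) (fun p => (p.1ᶜ, p.2)) ?_ ?_ ?_ ?_ ?_
    · intro p hp
      rw [Finset.mem_filter] at hp ⊢
      exact ⟨key _ _ p hp.1, by simpa using hp.2⟩
    · intro p hp
      rw [Finset.mem_filter] at hp ⊢
      refine ⟨key _ _ p hp.1, ?_⟩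
      have := hp.2
      simp only [not_not] at this
      simpa using this
    · intro p _
      simp
    · intro p _
      simp
    · intro p _
      rfl
  rw [h2]
  exact Finset.sum_filter_add_sum_filter_not _ _ _

end Pool.Agent.H29.HK
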