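import Pool.Agent.H29.HK.Defs2

set_option autoImplicit false

namespace Pool.Agent.H29.HK

open Finset MvPolynomial Pool.Agent.W555.KS

theorem sMulti : SMulti := by
  intro k _ n c κ t B hB ω hω σ hne
  have hlin : ∀ v : Fin n, IsWeightedHomogeneous (fun w : Fin n => (Pi.single (κ w) 1 : Fin c → ℕ))
      (∑ w, B v w • (X w : MvPolynomial (Fin n) k)) (Pi.single (κ v) 1 : Fin c → ℕ) := by
    intro v
    apply IsWeightedHomogeneous.sum
    intro w _
    by_cases h : κ v = κ w
    · rw [h]
      exact (weightedHomogeneousSubmodule k _ _).smul_mem _ (isWeightedHomogeneous_X k _ w)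
    · rw [hB v w h, zero_smul]
      exact isWeightedHomogeneous_zero _ _ _
  have hprod := IsWeightedHomogeneous.prod σ (fun v => ∑ w, B v w • (X w : MvPolynomial (Fin n) k))
    (fun v => (Pi.single (κ v) 1 : Fin c → ℕ)) (fun v _ => hlin v)
  have hw := hprod hne
  unfold tsets
  rw [Finset.mem_filter]
  refine ⟨Finset.mem_univ _, fun j => ?_⟩
  have h1 := congrFun hw j
  have e0 : ω.sum (fun i c' => c' • (Pi.single (κ i) 1 : Fin c → ℕ)) =
      ∑ v, ω v • (Pi.single (κ v) 1 : Fin c → ℕ) :=
    Finsupp.sum_fintype ω (fun i c' => c' • (Pi.single (κ i) 1 : Fin c → ℕ))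
      (fun i => zero_smul ℕ _)
  rw [Finsupp.weight_apply, e0, Finset.sum_apply, Finset.sum_apply] at h1
  rw [← hω j, Finset.sum_filter, Finset.card_filter]
  have h2 : ∀ v : Fin n, (ω v • (Pi.single (κ v) 1 : Fin c → ℕ)) j = if κ v = j then ω v else 0 := by
    intro v
    rw [Pi.smul_apply, smul_eq_mul, Pi.single_apply]
    by_cases h : κ v = j
    · rw [if_pos h, if_pos h.symm, mul_one]
    · rw [if_neg h, if_neg (fun e => h e.symm), mul_zero]
  have h3 : ∀ v : Fin n, (Pi.single (κ v) 1 : Fin c → ℕ) j = if κ v = j then 1 else 0 := by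
    intro v
    rw [Pi.single_apply]
    by_cases h : κ v = j
    · rw [if_pos h, if_pos h.symm]
    · rw [if_neg h, if_neg (fun e => h e.symm)]
  rw [Finset.sum_congr rfl fun v _ => h2 v, Finset.sum_congr rfl fun v _ => h3 v] at h1
  exact h1.symm

end Pool.Agent.H29.HK
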