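import Pool.Agent.H29.HK.Defs2
import Mathlib.Algebra.Order.Antidiag.FinsuppEquiv

set_option autoImplicit false

namespace Pool.Agent.H29.HK

open Finset MvPolynomial Pool.Agent.W555.KS

namespace PSOmega

variable {n c : ℕ}

/-- the class `j` without the chosen vertices -/
def W {N : ℕ} (κ : Fin n → Fin c) (e : Fin N → Fin n) (j : Fin c) : Finset (Fin n) :=
  (univ.filter (fun v => κ v = j)).filter (fun v => ¬ ∃ i, e i = v)

theorem card_W {N : ℕ} (κ : Fin n → Fin c) (t : Fin c → ℕ) (e : Fin N → Fin n)
    (he : Function.Injective e)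
    (ht : ∀ j, (univ.filter (fun i => κ (e i) = j)).card = 2 * t j) (j : Fin c) :
    (W κ e j).card + 2 * t j = cls κ j := by
  have h1 := Finset.card_filter_add_card_filter_not (s := univ.filter (fun v => κ v = j))
    (fun v => ∃ i, e i = v)
  have h2 : ((univ.filter (fun v => κ v = j)).filter (fun v => ∃ i, e i = v)).card = 2 * t j := by
    rw [← ht j]
    have : (univ.filter (fun v => κ v = j)).filter (fun v => ∃ i, e i = v) =
        (univ.filter (fun i => κ (e i) = j)).map ⟨e, he⟩ := by
      ext v
      simp only [mem_filter, mem_univ, true_and, mem_map, Function.Embedding.coeFn_mk]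
      constructor
      · rintro ⟨h, i, rfl⟩
        exact ⟨i, h, rfl⟩
      · rintro ⟨i, h, rfl⟩
        exact ⟨h, i, rfl⟩
    rw [this, card_map]
  unfold W cls
  omega

theorem choose_le {w t C : ℕ} (h : w + 2 * t = C) : (C - t - 1).choose t ≤ w.multichoose t := by
  rw [Nat.multichoose_eq]
  refine le_of_eq ?_
  congr 1
  omega

end PSOmega

open PSOmega in
theorem sOmega : SOmega := by
  intro n c N κ t e he ht
  classical
  let S : Finset (Fin c → (Fin n →₀ ℕ)) :=
    Fintype.piFinset (fun j => finsuppAntidiag (W κ e j) (t j))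
  have hS : ∀ f, f ∈ S ↔ ∀ j, (W κ e j).sum (f j) = t j ∧ (f j).support ⊆ W κ e j := by
    intro f
    simp only [S, Fintype.mem_piFinset, mem_finsuppAntidiag]
  have hval : ∀ f ∈ S, ∀ v j, κ v ≠ j → f j v = 0 := by
    intro f hf v j hv
    by_contra h
    have := ((hS f).1 hf j).2 (Finsupp.mem_support_iff.2 h)
    unfold W at this
    simp only [mem_filter, mem_univ, true_and] at this
    exact hv this.1
  have hsum : ∀ f ∈ S, ∀ v, (∑ j, f j) v = f (κ v) v := by
    intro f hf v
    rw [Finsupp.finsetSum_apply]
    refine Finset.sum_eq_single (κ v) (fun j _ hj => hval f hf v j (Ne.symm hj)) ?_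
    intro h
    exact absurd (mem_univ _) h
  refine ⟨S.image (fun f => ∑ j, f j), ?_, ?_⟩
  · rw [card_image_of_injOn, Fintype.card_piFinset]
    · refine Finset.prod_le_prod' fun j _ => ?_
      rw [card_finsuppAntidiag_nat_eq_multichoose]
      exact choose_le (card_W κ t e he ht j)
    · intro f hf g hg hfg
      have hf' : f ∈ S := hf
      have hg' : g ∈ S := hg
      funext j
      ext v
      by_cases hv : κ v = j
      · have h1 := hsum f hf' v
        have h2 := hsum g hg' v
        simp only at hfg
        rw [hfg, h2, hv] at h1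
        exact h1.symm
      · rw [hval f hf' v j hv, hval g hg' v j hv]
  · intro β hβ
    rw [mem_image] at hβ
    obtain ⟨f, hf, rfl⟩ := hβ
    refine ⟨?_, ?_⟩
    · intro i
      rw [hsum f hf]
      by_contra h
      have := ((hS f).1 hf (κ (e i))).2 (Finsupp.mem_support_iff.2 h)
      unfold W at this
      rw [mem_filter] at this
      exact this.2 ⟨i, rfl⟩
    · intro j
      have h1 := (hS f).1 hf j
      rw [← h1.1]
      have h2 : ∑ v ∈ univ.filter (fun v => κ v = j), (∑ j, f j) v =
          ∑ v ∈ univ.filter (fun v => κ v = j), f j v := by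
        refine Finset.sum_congr rfl fun v hv => ?_
        rw [mem_filter] at hv
        rw [hsum f hf, hv.2]
      rw [h2]
      refine (Finset.sum_subset (Finset.filter_subset _ _) ?_).symm
      intro v _ hv
      by_contra h
      exact hv (h1.2 (Finsupp.mem_support_iff.2 h))

end Pool.Agent.H29.HK
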