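import Pool.Agent.H29.HK.Defs2

set_option autoImplicit false

namespace Pool.Agent.H29.HK

open Finset MvPolynomial Pool.Agent.W555.KS

theorem sPhi : SPhi := by
  intro n μ
  have hlen : (idxList μ).length = μ.degree := by
    unfold idxList
    rw [Multiset.length_sort, Multiset.card_map, Finsupp.card_toMultiset]
    rfl
  have hsort : (idxList μ).Pairwise (· ≤ ·) := by
    unfold idxList
    exact Multiset.pairwise_sort _ _
  have hmono : StrictMono (fun i : Fin (idxList μ).length => (idxList μ).get i + (i : ℕ)) := by
    intro i j hij
    have h1 : (idxList μ).get i ≤ (idxList μ).get j := (List.pairwise_iff_get.1 hsort) i j hij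
    have h2 : (i : ℕ) < (j : ℕ) := hij
    show (idxList μ).get i + (i : ℕ) < (idxList μ).get j + (j : ℕ)
    omega
  unfold phi
  rw [Finset.card_image_of_injective _ hmono.injective, Finset.card_univ, Fintype.card_fin, hlen]

end Pool.Agent.H29.HK
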