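import Pool.Agent.H29.HK.Defs2
import Pool.Graph.R_seed8.W386.KS.Span

set_option autoImplicit false

namespace Pool.Agent.H29.HK

open Finset MvPolynomial Pool.Agent.W555.KS

namespace PSRank

/-- a matrix whose rows span a space of dimension at least `ρ` has a nonzero minor of order `ρ` -/
lemma exists_minor {K N m : Type} [Field K] [Fintype N] [Fintype m] (B : N → m → K) (ρ : ℕ)
    (hB : ρ ≤ Module.finrank K (Submodule.span K (Set.range B))) :
    ∃ (i : Fin ρ → N) (f : Fin ρ → m),
      (Matrix.of (fun a b => B (i a) (f b)) : Matrix (Fin ρ) (Fin ρ) K).det ≠ 0 := by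
  classical
  obtain ⟨g, hg, _, hind⟩ := Submodule.exists_fun_fin_finrank_span_eq K (Set.range B)
  choose i hi using hg
  have h1 : LinearIndependent K (fun a : Fin ρ => g (Fin.castLE hB a)) :=
    hind.comp (Fin.castLE hB) (Fin.castLE_injective hB)
  let C : Matrix (Fin ρ) m K := Matrix.of (fun a j => B (i (Fin.castLE hB a)) j)
  have h2 : C.row = fun a : Fin ρ => g (Fin.castLE hB a) := by
    funext a
    exact hi (Fin.castLE hB a)
  have h3 : C.rank = ρ := by
    have h4 : LinearIndependent K C.row := by rw [h2]; exact h1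
    rw [h4.rank_matrix, Fintype.card_fin]
  have h5 : Submodule.span K (Set.range (fun (j : m) (a : Fin ρ) => B (i (Fin.castLE hB a)) j)) =
      ⊤ := by
    apply Submodule.eq_top_of_finrank_eq
    have h6 : Module.finrank K (Submodule.span K (Set.range C.col)) = ρ := by
      rw [← Matrix.rank_eq_finrank_span_cols, h3]
    rw [Module.finrank_fintype_fun_eq_card, Fintype.card_fin]
    exact h6
  obtain ⟨f, hf⟩ := Pool.Agent.W386.KS.exists_rows
    (fun (j : m) (a : Fin ρ) => B (i (Fin.castLE hB a)) j) h5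
  refine ⟨fun a => i (Fin.castLE hB a), f, ?_⟩
  rw [← Matrix.det_transpose]
  exact hf

end PSRank

theorem sRank : SRank := by
  classical
  intro ι N m _ _ _ A ρ hA
  obtain ⟨i, f, hi⟩ := PSRank.exists_minor (fun (i : N) (j : m) =>
    algebraMap (MvPolynomial ι (ZMod 2)) (FractionRing (MvPolynomial ι (ZMod 2)))
      (MvPolynomial.map (Int.castRingHom (ZMod 2)) (A i j))) ρ hA
  refine ⟨(Matrix.of (fun a b => A (i a) (f b)) :
    Matrix (Fin ρ) (Fin ρ) (MvPolynomial ι ℤ)).det, ?_, ?_⟩
  · intro h0
    apply hi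
    have h1 : ((algebraMap (MvPolynomial ι (ZMod 2))
        (FractionRing (MvPolynomial ι (ZMod 2)))).comp
        (MvPolynomial.map (Int.castRingHom (ZMod 2)))) (Matrix.of (fun a b => A (i a) (f b)) :
          Matrix (Fin ρ) (Fin ρ) (MvPolynomial ι ℤ)).det = 0 := by
      rw [RingHom.comp_apply, h0, map_zero]
    rw [RingHom.map_det] at h1
    rw [← h1]
    rfl
  · intro k _ c hc
    have h1 : (Matrix.of (fun a b => aeval c (A (i a) (f b))) :
        Matrix (Fin ρ) (Fin ρ) k).det ≠ 0 := by
      intro h0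
      apply hc
      have h2 := RingHom.map_det (aeval c : MvPolynomial ι ℤ →ₐ[ℤ] k).toRingHom
        (Matrix.of (fun a b => A (i a) (f b)) : Matrix (Fin ρ) (Fin ρ) (MvPolynomial ι ℤ))
      have h3 : (RingHom.mapMatrix (aeval c : MvPolynomial ι ℤ →ₐ[ℤ] k).toRingHom)
        (Matrix.of (fun a b => A (i a) (f b)) : Matrix (Fin ρ) (Fin ρ) (MvPolynomial ι ℤ)) =
        (Matrix.of (fun a b => aeval c (A (i a) (f b))) : Matrix (Fin ρ) (Fin ρ) k) := by
        ext a b; rfl
      rw [h3, h0] at h2
      exact h2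
    have h2 : LinearIndependent k
        (Matrix.of (fun a b => aeval c (A (i a) (f b))) : Matrix (Fin ρ) (Fin ρ) k).row :=
      Matrix.linearIndependent_rows_iff_isUnit.2
        ((Matrix.isUnit_iff_isUnit_det _).2 (isUnit_iff_ne_zero.2 h1))
    let pr : (m → k) →ₗ[k] (Fin ρ → k) := LinearMap.funLeft k k f
    have h3 : LinearIndependent k (fun (a : Fin ρ) (j : m) => aeval c (A (i a) j)) :=
      LinearIndependent.of_comp pr h2
    have h4 := finrank_span_eq_card h3
    rw [Fintype.card_fin] at h4
    have h5 : Submodule.span k (Set.range (fun (a : Fin ρ) (j : m) => aeval c (A (i a) j))) ≤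
        Submodule.span k (Set.range (fun i : N => fun j : m => aeval c (A i j))) := by
      apply Submodule.span_mono
      rintro _ ⟨a, rfl⟩
      exact ⟨i a, rfl⟩
    calc ρ = Module.finrank k
          (Submodule.span k (Set.range (fun (a : Fin ρ) (j : m) => aeval c (A (i a) j)))) := h4.symm
      _ ≤ _ := Submodule.finrank_mono h5

end Pool.Agent.H29.HK
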