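import Pool.Agent.H29.HK.Defs2

set_option autoImplicit false

namespace Pool.Agent.H29.HK

open Finset MvPolynomial Pool.Agent.W555.KS

namespace PSRing

/-- linear functionals on a large finite dimensional subspace annihilated by few conditions -/
lemma exists_functional {K R E : Type} [Field K] [CommRing R] [Algebra K R] [Fintype E]
    (V : Submodule K R) [Module.Finite K V] (z : (R →ₗ[K] K) →ₗ[K] (E → K))
    (hlt : Fintype.card E < Module.finrank K V) :
    ∃ M : R →ₗ[K] K, z M = 0 ∧ ∃ v ∈ V, M v ≠ 0 := by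
  obtain ⟨P, hP⟩ := LinearMap.exists_leftInverse_of_injective V.subtype (by
    exact Submodule.ker_subtype V)
  let comp : (Module.Dual K V) →ₗ[K] (R →ₗ[K] K) := LinearMap.lcomp K K P
  have hker : LinearMap.ker (z ∘ₗ comp) ≠ ⊥ := by
    apply LinearMap.ker_ne_bot_of_finrank_lt
    rw [Module.finrank_fintype_fun_eq_card, Subspace.dual_finrank_eq]
    exact hlt
  obtain ⟨f, hf, hf0⟩ := (Submodule.ne_bot_iff _).1 hker
  refine ⟨comp f, by simpa using hf, ?_⟩
  by_contra hcon
  push Not at hcon
  apply hf0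
  ext v
  have h1 := hcon v v.2
  have h2 : P (v : R) = v := by
    have := LinearMap.congr_fun hP v
    simpa using this
  have h3 : comp f (v : R) = f (P (v : R)) := rfl
  rw [h3, h2] at h1
  simpa using h1

/-- `zI` is linear in the functional -/
noncomputable def zMap {k R : Type} [Field k] [CharP k 2] [CommRing R] [Algebra k R] {n m b : ℕ}
    (a : Fin (2 * m) → Fin n → k) (x : Fin n → R) (y : Finset (Fin n) → Fin b → ZMod 2)
    (Hs : Finset (Finset (Fin (2 * m)))) :
    (R →ₗ[k] k) →ₗ[k] ((Hs × Fin b) → k) where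
  toFun M := fun e => zI a x y M e.1.1 e.2
  map_add' M M' := by
    funext e
    simp only [zI, Pi.add_apply, LinearMap.add_apply]
    rw [← Finset.sum_add_distrib]
    refine Finset.sum_congr rfl fun h _ => ?_
    split_ifs
    · ring
    · ring
  map_smul' c M := by
    funext e
    simp only [zI, Pi.smul_apply, LinearMap.smul_apply, RingHom.id_apply, smul_eq_mul]
    rw [Finset.mul_sum]
    refine Finset.sum_congr rfl fun h _ => ?_
    split_ifs
    · ring
    · ring

lemma zMap_apply {k R : Type} [Field k] [CharP k 2] [CommRing R] [Algebra k R] {n m b : ℕ}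
    (a : Fin (2 * m) → Fin n → k) (x : Fin n → R) (y : Finset (Fin n) → Fin b → ZMod 2)
    (Hs : Finset (Finset (Fin (2 * m)))) (M : R →ₗ[k] k) (e : Hs × Fin b) :
    zMap a x y Hs M e = zI a x y M e.1.1 e.2 := rfl

lemma card_Hs (q : ℕ) :
    ((powersetCard (q + 1) (univ : Finset (Fin (2 * (q + 1))))).filter
      (fun I => Fin.last _ ∉ I)).card = (2 * q + 1).choose (q + 1) := by
  have h : (powersetCard (q + 1) (univ : Finset (Fin (2 * (q + 1))))).filter
      (fun I => Fin.last _ ∉ I) =
      powersetCard (q + 1) ((univ : Finset (Fin (2 * (q + 1)))).erase (Fin.last (2 * q + 1))) := by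
    ext I
    simp only [mem_filter, mem_powersetCard, subset_univ, true_and]
    constructor
    · rintro ⟨h1, h2⟩
      refine ⟨fun v hv => ?_, h1⟩
      rw [mem_erase]
      exact ⟨fun h3 => h2 (h3 ▸ hv), mem_univ _⟩
    · rintro ⟨h1, h2⟩
      refine ⟨h2, fun h3 => ?_⟩
      exact (mem_erase.1 (h1 h3)).1 rfl
  rw [h, card_powersetCard, card_erase_of_mem (mem_univ _), card_univ, Fintype.card_fin]
  rfl

/-- a homogeneous polynomial is killed by a functional which kills all monomials -/
lemma kill_homog {k R : Type} [Field k] [CommRing R] [Algebra k R] {n : ℕ}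
    (π : MvPolynomial (Fin n) k →ₐ[k] R) (M : R →ₗ[k] k) (r : ℕ)
    (h : ∀ β : Fin n → ℕ, ∑ v, β v = r → M (∏ v, (π (X v)) ^ β v) = 0)
    (p : MvPolynomial (Fin n) k) (hp : p ∈ homogeneousSubmodule (Fin n) k r) : M (π p) = 0 := by
  rw [← support_sum_monomial_coeff p, map_sum, map_sum]
  apply Finset.sum_eq_zero
  intro s hs
  have hdeg : s.degree = r := by
    have h1 := (mem_homogeneousSubmodule r p).1 hp
    have h2 := h1 (mem_support_iff.1 hs)
    rw [← h2, Finsupp.degree_eq_weight_one]
    rfl
  have h3 : (monomial s) (coeff s p) = coeff s p • ∏ v, (X v : MvPolynomial (Fin n) k) ^ s v := by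
    rw [monomial_eq, smul_eq_C_mul, Finsupp.prod_fintype _ _ (fun i => pow_zero _)]
  rw [h3, map_smul, map_smul, map_prod]
  simp only [map_pow]
  rw [h (fun v => s v) ?_, smul_zero]
  rw [← hdeg, Finsupp.degree_eq_sum]

end PSRing

theorem sRing (hcore : SCore) (hkill : SKill) : SRing := by
  intro n q b L F Q y φ hq hData hLF
  by_contra hcon
  push Not at hcon
  let k : Type := Kf (2 * (q + 1)) n
  let I : Ideal (MvPolynomial (Fin n) k) := Ij n (2 * q + 1) (2 * q + 2) L
  let π : MvPolynomial (Fin n) k →ₐ[k] (MvPolynomial (Fin n) k ⧸ I) := Ideal.Quotient.mkₐ k I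
  let V : Submodule k (MvPolynomial (Fin n) k ⧸ I) := Submodule.map π.toLinearMap
    (homogeneousSubmodule (Fin n) k (q + 1))
  have hfin0 : Module.Finite k (homogeneousSubmodule (Fin n) k (q + 1)) :=
    Module.Finite.iff_fg.mpr (homogeneousSubmodule_fg (Fin n) k (q + 1))
  have hfin : Module.Finite k V := by
    change Module.Finite k (Submodule.map _ _)
    infer_instance
  have hV : dimQ (Ij n (2 * q + 1) (2 * q + 2) L) (q + 1) = Module.finrank k V := rfl
  set Hs : Finset (Finset (Fin (2 * (q + 1)))) :=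
    (powersetCard (q + 1) (univ : Finset (Fin (2 * (q + 1))))).filter
      (fun I => Fin.last _ ∉ I) with hHs
  let x : Fin n → MvPolynomial (Fin n) k ⧸ I := fun v => π (X v)
  obtain ⟨M, hM0, v, hvV, hMv⟩ := PSRing.exists_functional V
    (PSRing.zMap (gen (2 * (q + 1)) n) x y Hs) (by
      rw [Fintype.card_prod, Fintype.card_coe, Fintype.card_fin, hHs, PSRing.card_Hs, ← hV]
      exact hcon)
  apply hMv
  obtain ⟨p, hp, rfl⟩ := hvV
  refine PSRing.kill_homog π M (q + 1) ?_ p hp
  intro β hβ
  -- relations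
  have hrel : ∀ i : Fin (2 * (q + 1)), ∑ v, gen (2 * (q + 1)) n i v • x v = 0 := by
    intro i
    have h1 : π (lf (gen (2 * (q + 1)) n i)) = 0 := by
      have h2 : lf (gen (2 * (q + 1)) n i) ∈ I := by
        refine Submodule.mem_sup_right (Ideal.subset_span ⟨i, i.2, rfl⟩)
      exact Ideal.Quotient.eq_zero_iff_mem.2 h2
    rw [← h1, lf, map_sum]
    refine Finset.sum_congr rfl fun v _ => ?_
    rw [← smul_eq_C_mul, map_smul]
  have hsq : ∀ σ : Finset (Fin n), σ.card = q + 1 → M (∏ v ∈ σ, x v) ≠ 0 → σ ∈ F := by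
    intro σ hσ hne
    apply hLF σ _ hσ
    by_contra hL
    apply hne
    have h1 : π (∏ v ∈ σ, X v) = 0 := by
      have h2 : (∏ v ∈ σ, X v) ∈ I :=
        Submodule.mem_sup_left (Ideal.subset_span ⟨σ, hL, rfl⟩)
      exact Ideal.Quotient.eq_zero_iff_mem.2 h2
    rw [map_prod] at h1
    rw [show (∏ v ∈ σ, x v) = ∏ v ∈ σ, π (X v) from rfl, h1, map_zero]
  have hzero := hcore k (MvPolynomial (Fin n) k ⧸ I) n q b (gen (2 * (q + 1)) n) x M F Q y φ hq
    hData hrel hsq (by
      intro J hJ hlast j
      have hJ' : J ∈ Hs := by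
        rw [hHs, mem_filter]
        exact ⟨hJ, hlast⟩
      have := congrFun hM0 (⟨J, hJ'⟩, j)
      rw [PSRing.zMap_apply] at this
      simpa using this)
  have hpat : ∀ (i : Fin (2 * (q + 1))) (v : Fin n),
      pat (fun _ : Fin n => (0 : Fin 1)) (fun _ : Fin (2 * (q + 1)) => (0 : Fin 1)) i v =
        gen (2 * (q + 1)) n i v := by
    intro i v
    simp [pat]
  have hkk := hkill (MvPolynomial (Fin n) k ⧸ I) n (q + 1) 1 (fun _ => 0) (fun _ => 0) x M (by
      rw [← hzero]
      refine Finset.sum_congr rfl fun h _ => ?_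
      simp only [hpat]) β (by
      intro j
      have h1 : (univ.filter (fun v : Fin n => (0 : Fin 1) = j)) = univ := by
        rw [filter_true_of_mem]
        intro v _
        exact Subsingleton.elim _ _
      have h2 : (univ.filter (fun i : Fin (2 * (q + 1)) => (0 : Fin 1) = j)) = univ := by
        rw [filter_true_of_mem]
        intro v _
        exact Subsingleton.elim _ _
      rw [h1, h2, hβ, card_univ, Fintype.card_fin])
  exact hkk

end Pool.Agent.H29.HK
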