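import Pool.Agent.H29.HK.Defs2
import Pool.Graph.R_seed8.Y131.KS.Chain

set_option autoImplicit false

namespace Pool.Agent.H29.HK

open Finset MvPolynomial Pool.Agent.W555.KS

namespace PSShift

/-- the exponents outside the generic initial ideal without the last `2 q + 2` variables -/
def Bad {n : ℕ} (k : Type) [Field k] (q : ℕ) (L : Finset (Finset (Fin n))) :
    Set (Fin n →₀ ℕ) :=
  {μ | μ.degree = q + 1 ∧ (∀ i ∈ μ.support, (i : ℕ) + (2 * q + 2) < n) ∧
    μ ∉ ginSet (srI k L)}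

theorem bad_finite {n : ℕ} (k : Type) [Field k] (q : ℕ) (L : Finset (Finset (Fin n))) :
    (Bad k q L).Finite :=
  (Pool.Agent.W689.KS.finite_degree n (q + 1)).subset fun _ h => h.1

theorem not_allowed {n q : ℕ} {μ : Fin n →₀ ℕ} (hd : μ.degree = q + 1)
    (h : ¬ Allowed n (2 * q + 1) μ) : ∀ i ∈ μ.support, (i : ℕ) + (2 * q + 2) < n := by
  intro i hi
  unfold Allowed at h
  have hsum := Finset.sum_filter_add_sum_filter_not (univ : Finset (Fin n))
    (fun i : Fin n => (i : ℕ) + (2 * q + 1) < n) (fun i => μ i)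
  have hdeg : ∑ i, μ i = q + 1 := by rw [← hd, Finsupp.degree_eq_sum]
  rw [hdeg] at hsum
  have hμ : 1 ≤ μ i := Nat.one_le_iff_ne_zero.2 (Finsupp.mem_support_iff.1 hi)
  have h1 : (i : ℕ) + (2 * q + 1) < n := by
    by_contra h2
    have h3 : μ i ≤ ∑ i ∈ univ.filter (fun i : Fin n => ¬ (i : ℕ) + (2 * q + 1) < n), μ i :=
      Finset.single_le_sum (f := fun i => μ i) (fun _ _ => Nat.zero_le _)
        (mem_filter.2 ⟨mem_univ i, h2⟩)
    omega
  by_contra h2
  have h4 : (i : ℕ) + (2 * q + 1) + 1 = n := by omega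
  have h3 : μ i ≤ ∑ i ∈ univ.filter (fun i : Fin n => (i : ℕ) + (2 * q + 1) + 1 = n), μ i :=
    Finset.single_le_sum (f := fun i => μ i) (fun _ _ => Nat.zero_le _)
      (mem_filter.2 ⟨mem_univ i, h4⟩)
  omega

end PSShift

open PSShift in
theorem sShift (hring : SRing) (hspec : SSpecDim) (hdich : SDich) (hcnt : SCnt) (hall : SAllow) (hphi : SPhi) : SShift := by
  classical
  intro k _ _ hk n q b L Q y φ hq hn hL hD
  have hfin := bad_finite k q L
  -- the first part
  have hsub : {S | S ∈ shift k L ∧ S.card = q + 1 ∧ S ∉ shift k (cyc n (2 * q + 1))} ⊆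
      phi '' Bad k q L := by
    rintro S ⟨⟨m, hm1, hm2, rfl⟩, hc, hS⟩
    rw [hphi] at hc
    have hna : ¬ Allowed n (2 * q + 1) m := by
      intro ha
      exact hS ⟨m, hall k hk n (2 * q + 1) (by omega) hn m ha hm2, hm2, rfl⟩
    exact ⟨m, ⟨hc, not_allowed hc hna, hm1⟩, rfl⟩
  refine ⟨(hfin.image _).subset hsub, ?_⟩
  refine (Set.ncard_le_ncard hsub (hfin.image _)).trans ((Set.ncard_image_le hfin).trans ?_)
  -- the dimension bound
  have h1 := hring n q b L (L.filter (fun σ => σ.card = q + 1)) Q y φ hq hD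
    fun σ hσ hc => mem_filter.2 ⟨hσ, hc⟩
  obtain ⟨F0, hF0, hF0'⟩ := hspec n (2 * q + 1) (q + 1) _ L h1
  let row : Fin (2 * q + 1 + 1) → Fin n := fun i => ⟨n - 1 - i, by omega⟩
  have hrow : Function.Injective row := by
    intro i j hij
    have := congrArg Fin.val hij
    simp only [row] at this
    apply Fin.ext
    omega
  let ρ : Fin (2 * q + 1 + 1) × Fin n → Fin n × Fin n := fun p => (row p.1, p.2)
  have hρ : Function.Injective ρ := by
    rintro ⟨i, v⟩ ⟨j, u⟩ h
    have h1 : row i = row j := congrArg Prod.fst h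
    have h2 : v = u := congrArg Prod.snd h
    rw [hrow h1, h2]
  set F1 : MvPolynomial (Fin n × Fin n) k := rename ρ (MvPolynomial.map (Int.castRingHom k) F0)
    with hF1d
  have hF1 : F1 ≠ 0 := by
    intro h
    exact Pool.Agent.Y131.KS.map_ne hk hF0 (rename_injective ρ hρ (by rw [← hF1d, h, map_zero]))
  set D : MvPolynomial (Fin n × Fin n) k := (Matrix.mvPolynomialX (Fin n) (Fin n) k).det with hDd
  have hD0 : D ≠ 0 := Matrix.det_mvPolynomialX_ne_zero (Fin n) k
  have hDg : ∀ g : Fin n × Fin n → k, eval g D = (Matrix.of (fun i j => g (i, j))).det := by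
    intro g
    rw [hDd, RingHom.map_det]
    congr 1
    ext i j
    simp [Matrix.mvPolynomialX]
  have hd2 : ∀ μ : Fin n →₀ ℕ, μ ∉ ginSet (srI k L) →
      ∃ F : MvPolynomial (Fin n × Fin n) k, F ≠ 0 ∧ ∀ g : Fin n × Fin n → k,
        (Matrix.of (fun i j => g (i, j))).det ≠ 0 → eval g F ≠ 0 →
          μ ∉ inSet (coordI g (srI k L)) := fun μ hμ => hdich k n L μ hμ
  choose! G hG0 hGg using hd2
  set F2 : MvPolynomial (Fin n × Fin n) k := ∏ μ ∈ hfin.toFinset, G μ with hF2
  have hF20 : F2 ≠ 0 := by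
    rw [hF2, prod_ne_zero_iff]
    intro μ hμ
    exact hG0 μ (hfin.mem_toFinset.1 hμ).2.2
  obtain ⟨g, hg⟩ := Pool.Agent.W689.KS.exists_eval_ne (F1 * F2 * D)
    (mul_ne_zero (mul_ne_zero hF1 hF20) hD0)
  rw [map_mul, map_mul] at hg
  have hgD := right_ne_zero_of_mul hg
  have hg2' := right_ne_zero_of_mul (left_ne_zero_of_mul hg)
  have hg1' := left_ne_zero_of_mul (left_ne_zero_of_mul hg)
  rw [hDg] at hgD
  have hF3 := hF0' k (fun p => g (ρ p)) (by
    rw [hF1d, eval_rename, eval_map] at hg1'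
    rw [aeval_def]
    exact hg1')
  have hc := hcnt k n (2 * q + 2) (q + 1) L g hgD
  have hideal : Ideal.span {p : MvPolynomial (Fin n) k | ∃ i : Fin n, n ≤ (i : ℕ) + (2 * q + 2) ∧
      p = lf (fun v => g (i, v))} =
      Ideal.span (Set.range (fun i : Fin (2 * q + 1 + 1) => lf (fun v => g (ρ (i, v))))) := by
    congr 1
    ext p
    constructor
    · rintro ⟨i, hi, rfl⟩
      have hi2 := i.isLt
      refine ⟨⟨n - 1 - i, by omega⟩, ?_⟩
      have e : row ⟨n - 1 - i, by omega⟩ = i := by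
        apply Fin.ext
        simp only [row]
        omega
      show lf (fun v => g (row ⟨n - 1 - i, by omega⟩, v)) = _
      rw [e]
    · rintro ⟨i, rfl⟩
      refine ⟨row i, ?_, rfl⟩
      simp only [row]
      have := i.isLt
      omega
  rw [hideal] at hc
  refine le_trans ?_ (hc.trans hF3)
  refine Set.ncard_le_ncard ?_ ((Pool.Agent.W689.KS.finite_degree n (q + 1)).subset fun _ h => h.1)
  intro μ hμ
  refine ⟨hμ.1, hμ.2.1, hGg μ hμ.2.2 g hgD ?_⟩
  rw [hF2, map_prod, prod_ne_zero_iff] at hg2'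
  exact hg2' μ (hfin.mem_toFinset.2 hμ)

end Pool.Agent.H29.HK
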