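import Pool.Agent.H29.HK.Defs2
import Pool.Graph.R_seed8.W472.KS.Spec

set_option autoImplicit false

namespace Pool.Agent.H29.HK

open Finset MvPolynomial Pool.Agent.W555.KS

namespace PSSpecDim

open Pool.Agent.W472.KS (mem_span_of_homog coeffs coeffs_apply coeffs_inj coeffs_surj)

/-- the homogeneous elements of the ideal -/
theorem mem_T {k : Type} [Field k] {n : ℕ} {J : Type} (g : J → MvPolynomial (Fin n) k)
    (e : J → ℕ) (hg : ∀ j, (g j).IsHomogeneous (e j)) (r : ℕ) (p : MvPolynomial (Fin n) k) :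
    p ∈ Submodule.span k (Set.range (fun x : {x : J × (Fin n →₀ ℕ) // x.2.degree + e x.1 = r} =>
      monomial x.1.2 (1 : k) * g x.1.1)) ↔ p.IsHomogeneous r ∧ p ∈ Ideal.span (Set.range g) := by
  constructor
  · intro hq
    refine Submodule.span_induction (p := fun q _ => q.IsHomogeneous r ∧
      q ∈ Ideal.span (Set.range g)) ?_ ?_ ?_ ?_ hq
    · rintro _ ⟨x, rfl⟩
      refine ⟨?_, ?_⟩
      · have := (isHomogeneous_monomial (σ := Fin n) (d := x.1.2) (1 : k) rfl).mul (hg x.1.1)
        rw [x.2] at this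
        exact this
      · exact Ideal.mul_mem_left _ _ (Ideal.subset_span ⟨_, rfl⟩)
    · exact ⟨isHomogeneous_zero _ _ _, Ideal.zero_mem _⟩
    · intro x y _ _ hx hy
      exact ⟨hx.1.add hy.1, Ideal.add_mem _ hx.2 hy.2⟩
    · intro a x _ hx
      refine ⟨(homogeneousSubmodule (Fin n) k r).smul_mem a hx.1, ?_⟩
      rw [MvPolynomial.smul_eq_C_mul]
      exact Ideal.mul_mem_left _ _ hx.2
  · rintro ⟨h1, h2⟩
    exact mem_span_of_homog g e hg r p h1 h2

/-- the dimension of the degree `r` part of the quotient -/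
theorem dim_formula (k : Type) [Field k] {n : ℕ} {J : Type} (g : J → MvPolynomial (Fin n) k)
    (e : J → ℕ) (hg : ∀ j, (g j).IsHomogeneous (e j)) (r : ℕ)
    [Fintype {μ : Fin n →₀ ℕ // μ.degree = r}] :
    dimQ (Ideal.span (Set.range g)) r + Module.finrank k (Submodule.span k (Set.range
      (fun x : {x : J × (Fin n →₀ ℕ) // x.2.degree + e x.1 = r} =>
        coeffs k n r (monomial x.1.2 (1 : k) * g x.1.1)))) =
      Fintype.card {μ : Fin n →₀ ℕ // μ.degree = r} := by
  set V : Submodule k (MvPolynomial (Fin n) k) := homogeneousSubmodule (Fin n) k r with hV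
  set I : Ideal (MvPolynomial (Fin n) k) := Ideal.span (Set.range g) with hI
  set φ : MvPolynomial (Fin n) k →ₗ[k] (MvPolynomial (Fin n) k ⧸ I) :=
    (Ideal.Quotient.mkₐ k I).toLinearMap with hφ
  set W : Submodule k ({μ : Fin n →₀ ℕ // μ.degree = r} → k) := Submodule.span k (Set.range
      (fun x : {x : J × (Fin n →₀ ℕ) // x.2.degree + e x.1 = r} =>
        coeffs k n r (monomial x.1.2 (1 : k) * g x.1.1))) with hW
  have hbij : Function.Bijective ((coeffs k n r).domRestrict V) := by
    constructor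
    · intro p q hpq
      exact Subtype.ext (coeffs_inj k n r p.1 q.1 p.2 q.2 hpq)
    · intro w
      obtain ⟨p, hp, rfl⟩ := coeffs_surj k n r w
      exact ⟨⟨p, hp⟩, rfl⟩
  set cV : V ≃ₗ[k] ({μ : Fin n →₀ ℕ // μ.degree = r} → k) :=
    LinearEquiv.ofBijective ((coeffs k n r).domRestrict V) hbij with hcV
  have hfin : Module.Finite k V := Module.Finite.equiv cV.symm
  have hfr : Module.finrank k V = Fintype.card {μ : Fin n →₀ ℕ // μ.degree = r} := by
    rw [cV.finrank_eq, Module.finrank_fintype_fun_eq_card]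
  have hrange : LinearMap.range (φ.domRestrict V) = Submodule.map φ V := by
    rw [LinearMap.range_domRestrict]
  have hrn := (φ.domRestrict V).finrank_range_add_finrank_ker
  have hT : W = Submodule.map (coeffs k n r) (Submodule.span k (Set.range
      (fun x : {x : J × (Fin n →₀ ℕ) // x.2.degree + e x.1 = r} =>
        monomial x.1.2 (1 : k) * g x.1.1))) := by
    rw [hW, Submodule.map_span, ← Set.range_comp]
    rfl
  have hker : Submodule.map (cV : V →ₗ[k] ({μ : Fin n →₀ ℕ // μ.degree = r} → k))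
      (LinearMap.ker (φ.domRestrict V)) = W := by
    rw [hT]
    ext w
    rw [Submodule.mem_map, Submodule.mem_map]
    constructor
    · rintro ⟨p, hp, rfl⟩
      refine ⟨p.1, ?_, rfl⟩
      rw [mem_T g e hg r]
      refine ⟨p.2, ?_⟩
      have h1 : φ p.1 = 0 := hp
      exact Ideal.Quotient.eq_zero_iff_mem.1 h1
    · rintro ⟨p, hp, rfl⟩
      rw [mem_T g e hg r] at hp
      exact ⟨⟨p, hp.1⟩, Ideal.Quotient.eq_zero_iff_mem.2 hp.2, rfl⟩
  have hfk : Module.finrank k (LinearMap.ker (φ.domRestrict V)) = Module.finrank k W := by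
    rw [← hker]
    exact (LinearEquiv.finrank_map_eq cV _).symm
  rw [hrange, hfk, hfr] at hrn
  exact hrn

/-- the index type of the generators -/
abbrev GI (n d : ℕ) (L : Finset (Finset (Fin n))) : Type :=
  {σ : Finset (Fin n) // σ ∉ L} ⊕ Fin (d + 1)

/-- the generators over a commutative ring, for a matrix `c` of coefficients -/
noncomputable def gens {R : Type} [CommRing R] (n d : ℕ) (L : Finset (Finset (Fin n)))
    (c : Fin (d + 1) × Fin n → R) : GI n d L → MvPolynomial (Fin n) R
  | Sum.inl σ => ∏ v ∈ σ.1, X v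
  | Sum.inr i => ∑ v, C (c (i, v)) * X v

/-- the degrees of the generators -/
def degs (n d : ℕ) (L : Finset (Finset (Fin n))) : GI n d L → ℕ
  | Sum.inl σ => σ.1.card
  | Sum.inr _ => 1

theorem gens_homog {R : Type} [CommRing R] (n d : ℕ) (L : Finset (Finset (Fin n)))
    (c : Fin (d + 1) × Fin n → R) (j : GI n d L) :
    (gens n d L c j).IsHomogeneous (degs n d L j) := by
  rcases j with σ | i
  · have := IsHomogeneous.prod σ.1 (fun v => (X v : MvPolynomial (Fin n) R)) (fun _ => 1)
      (fun v _ => isHomogeneous_X _ _)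
    simpa [gens, degs] using this
  · exact IsHomogeneous.sum _ _ _ fun v _ => isHomogeneous_C_mul_X _ _

theorem gens_map {R S : Type} [CommRing R] [CommRing S] (f : R →+* S) (n d : ℕ)
    (L : Finset (Finset (Fin n))) (c : Fin (d + 1) × Fin n → R) (j : GI n d L) :
    MvPolynomial.map f (gens n d L c j) = gens n d L (fun x => f (c x)) j := by
  rcases j with σ | i
  · simp [gens]
  · simp [gens]

/-- the ideal generated by the generators -/
theorem span_gens {k : Type} [Field k] (n d : ℕ) (L : Finset (Finset (Fin n)))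
    (c : Fin (d + 1) × Fin n → k) :
    Ideal.span (Set.range (gens n d L c)) =
      srI k L ⊔ Ideal.span (Set.range (fun i : Fin (d + 1) => lf (fun v => c (i, v)))) := by
  rw [srI, ← Ideal.span_union]
  congr 1
  ext p
  constructor
  · rintro ⟨j, rfl⟩
    rcases j with σ | i
    · exact Or.inl ⟨σ.1, σ.2, rfl⟩
    · exact Or.inr ⟨i, rfl⟩
  · rintro (⟨σ, hσ, rfl⟩ | ⟨i, rfl⟩)
    · exact ⟨Sum.inl ⟨σ, hσ⟩, rfl⟩
    · exact ⟨Sum.inr i, rfl⟩

theorem Ij_eq (n d : ℕ) (L : Finset (Finset (Fin n))) :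
    Ij n d (d + 1) L = Ideal.span (Set.range (gens n d L
      (fun y : Fin (d + 1) × Fin n => gen (d + 1) n y.1 y.2))) := by
  rw [span_gens, Ij]
  congr 2
  ext p
  constructor
  · rintro ⟨i, _, rfl⟩
    exact ⟨i, rfl⟩
  · rintro ⟨i, rfl⟩
    exact ⟨i, i.2, rfl⟩

end PSSpecDim

open PSSpecDim

open Pool.Agent.W472.KS (coeffs coeffs_apply) in
theorem sSpecDim (hr : SRank) : SSpecDim := by
  intro n d r B L hB
  classical
  have : Finite {μ : Fin n →₀ ℕ // μ.degree = r} := (Finsupp.finite_of_degree_eq r).to_subtype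
  let I1 : Fintype {μ : Fin n →₀ ℕ // μ.degree = r} := Fintype.ofFinite _
  have hfin : Finite {x : GI n d L × (Fin n →₀ ℕ) // x.2.degree + degs n d L x.1 = r} := by
    refine Set.Finite.to_subtype (s := {x : GI n d L × (Fin n →₀ ℕ) |
      x.2.degree + degs n d L x.1 = r}) ?_
    refine Set.Finite.subset ((Set.finite_univ (α := GI n d L)).prod
      (Finsupp.finite_of_degree_le (σ := Fin n) r)) ?_
    rintro ⟨j, ν⟩ h
    refine ⟨Set.mem_univ _, ?_⟩
    have h' : ν.degree + degs n d L j = r := h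
    show ν.degree ≤ r
    omega
  let I2 : Fintype {x : GI n d L × (Fin n →₀ ℕ) // x.2.degree + degs n d L x.1 = r} :=
    Fintype.ofFinite _
  let A : {x : GI n d L × (Fin n →₀ ℕ) // x.2.degree + degs n d L x.1 = r} →
      {μ : Fin n →₀ ℕ // μ.degree = r} → MvPolynomial (Fin (d + 1) × Fin n) ℤ :=
    fun x μ => coeff μ.1 (monomial x.1.2 (1 : MvPolynomial (Fin (d + 1) × Fin n) ℤ) *
      gens n d L (fun y => (X y : MvPolynomial (Fin (d + 1) × Fin n) ℤ)) x.1.1)
  -- change of coefficients of the rows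
  have hrow : ∀ (k : Type) [Field k] (f : MvPolynomial (Fin (d + 1) × Fin n) ℤ →+* k)
      (x : {x : GI n d L × (Fin n →₀ ℕ) // x.2.degree + degs n d L x.1 = r}),
      (fun μ => f (A x μ)) = coeffs k n r (monomial x.1.2 (1 : k) *
        gens n d L (fun y => f (X y)) x.1.1) := by
    intro k _ f x
    funext μ
    rw [coeffs_apply]
    show f (coeff μ.1 _) = _
    rw [← coeff_map, map_mul, gens_map, map_monomial, map_one]
  set D : ℕ := Fintype.card {μ : Fin n →₀ ℕ // μ.degree = r} with hD
  obtain ⟨F, hF0, hF⟩ := hr (Fin (d + 1) × Fin n)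
    {x : GI n d L × (Fin n →₀ ℕ) // x.2.degree + degs n d L x.1 = r}
    {μ : Fin n →₀ ℕ // μ.degree = r} A (D - B) (by
      let f : MvPolynomial (Fin (d + 1) × Fin n) ℤ →+* Kf (d + 1) n :=
        (algebraMap (MvPolynomial (Fin (d + 1) × Fin n) (ZMod 2)) (Kf (d + 1) n)).comp
          (MvPolynomial.map (Int.castRingHom (ZMod 2)))
      have hfX : (fun y => f (X y)) = fun y : Fin (d + 1) × Fin n => gen (d + 1) n y.1 y.2 := by
        funext y
        simp [f, gen]
      have h5 : (fun i : {x : GI n d L × (Fin n →₀ ℕ) // x.2.degree + degs n d L x.1 = r} =>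
          fun j : {μ : Fin n →₀ ℕ // μ.degree = r} =>
          algebraMap (MvPolynomial (Fin (d + 1) × Fin n) (ZMod 2)) (Kf (d + 1) n)
          (MvPolynomial.map (Int.castRingHom (ZMod 2)) (A i j))) =
          fun x => coeffs (Kf (d + 1) n) n r (monomial x.1.2 (1 : Kf (d + 1) n) *
            gens n d L (fun y : Fin (d + 1) × Fin n => gen (d + 1) n y.1 y.2) x.1.1) := by
        rw [← hfX]
        funext x
        exact hrow (Kf (d + 1) n) f x
      rw [h5]
      have h6 := dim_formula (Kf (d + 1) n) _ _ (gens_homog n d L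
        (fun y : Fin (d + 1) × Fin n => gen (d + 1) n y.1 y.2)) r
      rw [← Ij_eq] at h6
      have h7 : D - B ≤ Module.finrank (Kf (d + 1) n) (Submodule.span (Kf (d + 1) n) (Set.range
          (fun x : {x : GI n d L × (Fin n →₀ ℕ) // x.2.degree + degs n d L x.1 = r} =>
            coeffs (Kf (d + 1) n) n r (monomial x.1.2 (1 : Kf (d + 1) n) *
            gens n d L (fun y : Fin (d + 1) × Fin n => gen (d + 1) n y.1 y.2) x.1.1)))) := by
        omega
      exact h7)
  refine ⟨F, hF0, ?_⟩
  intro k _ c hc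
  have h1 := hF k c hc
  have h2 : (fun i : {x : GI n d L × (Fin n →₀ ℕ) // x.2.degree + degs n d L x.1 = r} =>
      fun j : {μ : Fin n →₀ ℕ // μ.degree = r} => aeval c (A i j)) =
      fun x => coeffs k n r (monomial x.1.2 (1 : k) * gens n d L c x.1.1) := by
    funext x
    have := hrow k (aeval c : MvPolynomial (Fin (d + 1) × Fin n) ℤ →ₐ[ℤ] k).toRingHom x
    simpa using this
  rw [h2] at h1
  have h6 := dim_formula k _ _ (gens_homog n d L c) r
  rw [span_gens] at h6
  omega

end Pool.Agent.H29.HK
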