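import Pool.Agent.H29.HK.Defs2

set_option autoImplicit false

namespace Pool.Agent.H29.HK

open Finset MvPolynomial Pool.Agent.W555.KS

namespace PSSqf

/-- squarefree exponent -/
theorem mono_sqf {n : ℕ} {k : Type} [Field k] (β : Fin n →₀ ℕ) (h : ∀ v ∈ β.support, β v = 1) :
    (monomial β (1 : k)) = ∏ v ∈ β.support, X v := by
  rw [monomial_eq, C_1, one_mul, Finsupp.prod]
  exact Finset.prod_congr rfl fun v hv => by rw [h v hv, pow_one]

theorem solve {s : ℕ} {k : Type} [Field k] (M : Matrix (Fin s) (Fin s) k) (hM : M.det ≠ 0)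
    (e : Fin s → k) : ∃ lam : Fin s → k, ∀ j, ∑ i, lam i * M i j = e j := by
  refine ⟨Matrix.vecMul e M⁻¹, fun j => ?_⟩
  have h1 : Matrix.vecMul (Matrix.vecMul e M⁻¹) M = e := by
    rw [Matrix.vecMul_vecMul, Matrix.nonsing_inv_mul _ (isUnit_iff_ne_zero.2 hM),
      Matrix.vecMul_one]
  exact congrFun h1 j

/-- elimination of one variable -/
theorem elim (hmin : StMin) {n d j : ℕ} (L : Finset (Finset (Fin n))) (U : Finset (Fin n))
    (hU : U.card ≤ j) (hj : j ≤ d + 1) (u : Fin n) (hu : u ∈ U) :
    ∃ c : Fin n → Kf (d + 1) n, (X u + ∑ w ∈ Uᶜ, C (c w) * X w) ∈ Ij n d j L := by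
  classical
  set f : Fin U.card → Fin (d + 1) := Fin.castLE (hU.trans hj) with hf
  set g : Fin U.card → Fin n := fun i => U.orderEmbOfFin rfl i with hg
  have hdet := hmin (d + 1) n U.card f g (Fin.castLE_injective _)
    (U.orderEmbOfFin rfl).injective
  obtain ⟨lam, hlam⟩ := solve _ hdet (fun i => if g i = u then 1 else 0)
  refine ⟨fun w => ∑ i, lam i * gen (d + 1) n (f i) w, ?_⟩
  have hval : ∀ v ∈ U, ∑ i, lam i * gen (d + 1) n (f i) v = if v = u then 1 else 0 := by
    intro v hv
    have h1 : v ∈ Set.range (U.orderEmbOfFin rfl) := by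
      rw [Finset.range_orderEmbOfFin]
      exact hv
    obtain ⟨i, hi⟩ := h1
    have h2 := hlam i
    rw [← hi]
    exact h2
  have hsum : (X u + ∑ w ∈ Uᶜ, C (∑ i, lam i * gen (d + 1) n (f i) w) * X w :
      MvPolynomial (Fin n) (Kf (d + 1) n)) = ∑ i, C (lam i) * lf (gen (d + 1) n (f i)) := by
    have h1 : ∑ i, C (lam i) * lf (gen (d + 1) n (f i)) =
        ∑ v : Fin n, C (∑ i, lam i * gen (d + 1) n (f i) v) * X v := by
      unfold lf
      simp only [Finset.mul_sum, map_sum, map_mul, Finset.sum_mul]
      rw [Finset.sum_comm]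
      refine Finset.sum_congr rfl fun v _ => Finset.sum_congr rfl fun i _ => ?_
      ring
    rw [h1, ← Finset.sum_add_sum_compl U]
    congr 1
    rw [Finset.sum_congr rfl fun v hv => by rw [hval v hv]]
    rw [Finset.sum_eq_single_of_mem u hu]
    · rw [if_pos rfl, C_1, one_mul]
    · intro v _ hv
      rw [if_neg hv, C_0, zero_mul]
  rw [hsum]
  refine Ideal.sum_mem _ fun i _ => Ideal.mul_mem_left _ _ ?_
  unfold Ij
  refine Ideal.mem_sup_right (Ideal.subset_span ⟨f i, ?_, rfl⟩)
  have : ((f i : Fin (d + 1)) : ℕ) = (i : ℕ) := rfl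
  rw [this]
  exact i.2.trans_le hU

/-- the monomials of degree `r` lie in the span -/
theorem mono_mem (hmin : StMin) {n d j r : ℕ} (L : Finset (Finset (Fin n))) (hr : r ≤ j + 1)
    (hj : j ≤ d + 1) : ∀ m : ℕ, ∀ β : Fin n →₀ ℕ, ∑ v, β v = r → r - β.support.card = m →
    Ideal.Quotient.mk (Ij n d j L) (monomial β (1 : Kf (d + 1) n)) ∈
      Submodule.span (Kf (d + 1) n) ((fun σ : Finset (Fin n) => Ideal.Quotient.mk (Ij n d j L)
        (∏ v ∈ σ, (X v : MvPolynomial (Fin n) (Kf (d + 1) n)))) ''
          (L.filter (fun σ => σ.card = r) : Set (Finset (Fin n)))) := by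
  classical
  intro m
  induction m using Nat.strong_induction_on with
  | _ m ih =>
    intro β hβ hm
    have hsumS : ∑ v ∈ β.support, β v = r := by
      rw [← hβ]
      apply Finset.sum_subset (Finset.subset_univ _)
      intro v _ hv
      exact Finsupp.notMem_support_iff.1 hv
    have hge : ∀ v ∈ β.support, 1 ≤ β v := fun v hv =>
      Nat.one_le_iff_ne_zero.2 (Finsupp.mem_support_iff.1 hv)
    have hcard : β.support.card ≤ r := by
      rw [← hsumS, Finset.card_eq_sum_ones]
      exact Finset.sum_le_sum hge
    by_cases hall : ∀ v ∈ β.support, β v = 1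
    · have hc : β.support.card = r := by
        rw [← hsumS, Finset.card_eq_sum_ones]
        exact Finset.sum_congr rfl fun v hv => (hall v hv).symm
      rw [mono_sqf β hall]
      by_cases hL : β.support ∈ L
      · apply Submodule.subset_span
        exact ⟨β.support, Finset.mem_coe.2 (Finset.mem_filter.2 ⟨hL, hc⟩), rfl⟩
      · have h0 : Ideal.Quotient.mk (Ij n d j L)
            (∏ v ∈ β.support, (X v : MvPolynomial (Fin n) (Kf (d + 1) n))) = 0 := by
          rw [Ideal.Quotient.eq_zero_iff_mem]
          unfold Ij srI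
          exact Ideal.mem_sup_left (Ideal.subset_span ⟨β.support, hL, rfl⟩)
        rw [h0]
        exact Submodule.zero_mem _
    · push Not at hall
      obtain ⟨u, hu, hu1⟩ := hall
      have hu2 : 2 ≤ β u := by
        have := hge u hu
        omega
      have hlt : β.support.card < r := by
        rw [← hsumS, Finset.card_eq_sum_ones]
        exact Finset.sum_lt_sum hge ⟨u, hu, by omega⟩
      obtain ⟨c, hc⟩ := elim hmin L β.support (by omega) hj u hu
      obtain ⟨γ, hγ⟩ : ∃ γ : Fin n →₀ ℕ, γ = β - Finsupp.single u 1 := ⟨_, rfl⟩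
      have hγu : γ u = β u - 1 := by rw [hγ]; simp
      have hγv : ∀ v, v ≠ u → γ v = β v := by
        intro v hv
        rw [hγ]
        simp [Ne.symm hv]
      have hβγ : β = γ + Finsupp.single u 1 := by
        ext v
        by_cases hv : v = u
        · rw [hv, Finsupp.add_apply, hγu]
          simp
          omega
        · rw [Finsupp.add_apply, hγv v hv]
          simp [Ne.symm hv]
      have hsplit : (monomial β (1 : Kf (d + 1) n)) = monomial γ 1 * X u := by
        rw [hβγ, X, monomial_mul, mul_one]
      have hrel : Ideal.Quotient.mk (Ij n d j L) (monomial β (1 : Kf (d + 1) n)) =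
          -∑ w ∈ β.supportᶜ, c w • Ideal.Quotient.mk (Ij n d j L)
            (monomial (γ + Finsupp.single w 1) (1 : Kf (d + 1) n)) := by
        have h1 : (monomial γ (1 : Kf (d + 1) n)) * (X u + ∑ w ∈ β.supportᶜ, C (c w) * X w) ∈
            Ij n d j L := Ideal.mul_mem_left _ _ hc
        have h2 := Ideal.Quotient.eq_zero_iff_mem.2 h1
        rw [mul_add, ← hsplit, map_add, Finset.mul_sum, map_sum] at h2
        rw [eq_neg_iff_add_eq_zero, ← h2]
        congr 1
        refine Finset.sum_congr rfl fun w _ => ?_
        have h3 : (monomial γ (1 : Kf (d + 1) n)) * (C (c w) * X w) =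
            c w • monomial (γ + Finsupp.single w 1) (1 : Kf (d + 1) n) := by
          rw [smul_eq_C_mul, X, mul_left_comm, monomial_mul, mul_one]
        rw [h3]
        rfl
      rw [hrel]
      refine Submodule.neg_mem _ (Submodule.sum_mem _ fun w hw => Submodule.smul_mem _ _ ?_)
      have hwU : w ∉ β.support := Finset.mem_compl.1 hw
      have hwu : w ≠ u := fun h => hwU (h ▸ hu)
      have hδ : ∀ v, (γ + Finsupp.single w 1 : Fin n →₀ ℕ) v = γ v + if v = w then 1 else 0 := by
        intro v
        rw [Finsupp.add_apply, Finsupp.single_apply]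
        congr 1
        by_cases h : v = w
        · rw [if_pos h, if_pos h.symm]
        · rw [if_neg h, if_neg (Ne.symm h)]
      have hsupp : (γ + Finsupp.single w 1).support = insert w β.support := by
        ext v
        rw [Finsupp.mem_support_iff, hδ, Finset.mem_insert, Finsupp.mem_support_iff]
        by_cases h : v = w
        · simp [h]
        · rw [if_neg h, add_zero]
          by_cases h' : v = u
          · rw [h', hγu]
            constructor
            · intro _
              right
              omega
            · intro _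
              omega
          · rw [hγv v h']
            constructor
            · intro h''
              exact Or.inr h''
            · rintro (h'' | h'')
              · exact absurd h'' h
              · exact h''
      have hsum' : ∑ v, (γ + Finsupp.single w 1 : Fin n →₀ ℕ) v = r := by
        have e1 : ∑ v, (γ + Finsupp.single w 1 : Fin n →₀ ℕ) v = ∑ v, γ v + 1 := by
          rw [Finset.sum_congr rfl fun v _ => hδ v, Finset.sum_add_distrib,
            Finset.sum_ite_eq' Finset.univ w, if_pos (Finset.mem_univ w)]
        have e2 : ∑ v, β v = ∑ v, γ v + 1 := by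
          have e3 : ∀ v, β v = γ v + if v = u then 1 else 0 := by
            intro v
            by_cases h : v = u
            · rw [if_pos h, h, hγu]
              omega
            · rw [if_neg h, hγv v h, add_zero]
          rw [Finset.sum_congr rfl fun v _ => e3 v, Finset.sum_add_distrib,
            Finset.sum_ite_eq' Finset.univ u, if_pos (Finset.mem_univ u)]
        rw [e1, ← e2, hβ]
      have hcard' : (γ + Finsupp.single w 1).support.card = β.support.card + 1 := by
        rw [hsupp, Finset.card_insert_of_notMem hwU]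
      exact ih (r - (γ + Finsupp.single w 1).support.card) (by omega) _ hsum' rfl

end PSSqf

open PSSqf in
theorem sSqf (hmin : StMin) : SSqf := by
  classical
  intro n d j r L _ hr hj
  unfold dimQ
  have hle : Submodule.map (Ideal.Quotient.mkₐ (Kf (d + 1) n) (Ij n d j L)).toLinearMap
      (homogeneousSubmodule (Fin n) (Kf (d + 1) n) r) ≤
      Submodule.span (Kf (d + 1) n) ((fun σ : Finset (Fin n) => Ideal.Quotient.mk (Ij n d j L)
        (∏ v ∈ σ, (X v : MvPolynomial (Fin n) (Kf (d + 1) n)))) ''
          (L.filter (fun σ => σ.card = r) : Set (Finset (Fin n)))) := by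
    rintro _ ⟨p, hp, rfl⟩
    have hp' : p.IsHomogeneous r := hp
    rw [← p.support_sum_monomial_coeff, map_sum]
    refine Submodule.sum_mem _ fun β hβ => ?_
    have h1 : (monomial β (coeff β p)) = coeff β p • monomial β (1 : Kf (d + 1) n) := by
      rw [smul_monomial, smul_eq_mul, mul_one]
    rw [h1, map_smul]
    refine Submodule.smul_mem _ _ ?_
    have h2 : ∑ v, β v = r := by
      have h3 := hp' (mem_support_iff.1 hβ)
      rw [← h3]
      simp [Finsupp.weight_apply, Finsupp.sum_fintype]
    exact mono_mem hmin L hr hj _ β h2 rfl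
  rw [← Finset.coe_image] at hle
  refine (Submodule.finrank_mono hle).trans ?_
  refine (finrank_span_finset_le_card _).trans ?_
  exact Finset.card_image_le

end Pool.Agent.H29.HK
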