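import Pool.Agent.H29.HK.Defs2

set_option autoImplicit false

namespace Pool.Agent.H29.HK

open Finset MvPolynomial Pool.Agent.W555.KS

namespace PSTypes

lemma mem_tsets {n c : ℕ} {κ : Fin n → Fin c} {t : Fin c → ℕ} {σ : Finset (Fin n)} :
    σ ∈ tsets κ t ↔ ∀ j, (σ.filter (fun v => κ v = j)).card = t j := by
  unfold tsets
  rw [mem_filter]
  exact and_iff_right (mem_univ _)

lemma glue {n c : ℕ} {κ : Fin n → Fin c} {f : Fin c → Finset (Fin n)}
    (hf : ∀ j, f j ⊆ univ.filter (fun v => κ v = j)) (j : Fin c) :
    (univ.filter (fun v => v ∈ f (κ v))).filter (fun v => κ v = j) = f j := by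
  ext v
  rw [mem_filter, mem_filter]
  constructor
  · rintro ⟨⟨-, h1⟩, rfl⟩
    exact h1
  · intro h
    have h1 := (mem_filter.1 (hf j h)).2
    exact ⟨⟨mem_univ _, by rw [h1]; exact h⟩, h1⟩

end PSTypes

open PSTypes in
theorem sTypes : STypes := by
  intro n c κ t
  classical
  have h : (tsets κ t).card =
      (Fintype.piFinset fun j => powersetCard (t j) (univ.filter (fun v => κ v = j))).card := by
    refine Finset.card_bij' (fun σ _ => fun j => σ.filter (fun v => κ v = j))
      (fun f _ => univ.filter (fun v => v ∈ f (κ v))) ?_ ?_ ?_ ?_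
    · intro σ hσ
      rw [Fintype.mem_piFinset]
      intro j
      rw [mem_powersetCard]
      exact ⟨filter_subset_filter _ (subset_univ _), mem_tsets.1 hσ j⟩
    · intro f hf
      rw [Fintype.mem_piFinset] at hf
      rw [mem_tsets]
      intro j
      rw [glue (fun j => (mem_powersetCard.1 (hf j)).1) j]
      exact (mem_powersetCard.1 (hf j)).2
    · intro σ _
      ext v
      rw [mem_filter, mem_filter]
      exact ⟨fun h => h.2.1, fun h => ⟨mem_univ _, h, rfl⟩⟩
    · intro f hf
      rw [Fintype.mem_piFinset] at hf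
      funext j
      exact glue (fun j => (mem_powersetCard.1 (hf j)).1) j
  rw [h, Fintype.card_piFinset]
  refine prod_congr rfl fun j _ => ?_
  rw [card_powersetCard]
  rfl

end Pool.Agent.H29.HK
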