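import Pool.Agent.H29.HK.Asm1
import Pool.Agent.H29.HK.Asm2
import Pool.Agent.H29.HK.Asm3
import Pool.Agent.H29.HK.P_SFirst
import Pool.Agent.H29.HK.P_SAlt
import Pool.Agent.H29.HK.P_SLa
import Pool.Agent.H29.HK.P_SLb
import Pool.Agent.H29.HK.P_SLc
import Pool.Agent.H29.HK.P_SLs
import Pool.Agent.H29.HK.P_SE2
import Pool.Agent.H29.HK.P_SFac
import Pool.Agent.H29.HK.P_SKill
import Pool.Agent.H29.HK.P_SElim
import Pool.Agent.H29.HK.P_STypes
import Pool.Agent.H29.HK.P_SOmega
import Pool.Agent.H29.HK.P_SHalf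
import Pool.Agent.H29.HK.P_SMulti
import Pool.Agent.H29.HK.P_SRing
import Pool.Agent.H29.HK.P_SSqf
import Pool.Agent.H29.HK.P_SRank
import Pool.Agent.H29.HK.P_SSpecDim
import Pool.Agent.H29.HK.P_SDich
import Pool.Agent.H29.HK.P_SCnt
import Pool.Agent.H29.HK.P_SAllow
import Pool.Agent.H29.HK.P_SPhi
import Pool.Agent.H29.HK.P_SShift

/-!
# The theorems
-/

set_option autoImplicit false

namespace Pool.Agent.H29.HK

open Finset MvPolynomial Pool.Agent.W555.KS

theorem core' : SCore := core sFirst sAlt (sE2 sLa sLb sLc sLs sFirst) sFac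

theorem kill' : SKill := sKill W646.KS.ind

theorem ring' : SRing := sRing core' kill'

/-- the coloured inequality -/
theorem typed' : STyped := typed core' kill' sElim sTypes sOmega (sHalf sTypes) sMulti

/-- the shadow inequality -/
theorem shadow' : SShadow := shadow ring' (sSqf W374.KS.minor) (W386.KS.dlow W374.KS.minor)

/-- shifting -/
theorem shift' : SShift := sShift ring' (sSpecDim sRank) sDich sCnt sAllow sPhi

end Pool.Agent.H29.HK
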