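import Pool.Agent.H29.HK.Defs3
import Pool.Graph.R_seed8.Y131.KS.Chain

set_option autoImplicit false

namespace Pool.Agent.H29.HK

open Finset MvPolynomial Pool.Agent.W555.KS

namespace PSDim

theorem revLT_add {n : ℕ} {a b c : Fin n →₀ ℕ} (h : RevLT a b) : RevLT (a + c) (b + c) := by
  unfold RevLT at h ⊢
  rcases h with h | ⟨h1, j, h2, h3⟩
  · left
    rw [map_add, map_add]
    omega
  · right
    refine ⟨by rw [map_add, map_add, h1], j, ?_, ?_⟩
    · rw [Finsupp.add_apply, Finsupp.add_apply]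
      omega
    · intro i hi
      rw [Finsupp.add_apply, Finsupp.add_apply, h3 i hi]

/-- the initial ideal is closed under multiplication by monomials -/
theorem inSet_mul {n : ℕ} {k : Type*} [Field k] (J : Ideal (MvPolynomial (Fin n) k))
    {a b : Fin n →₀ ℕ} (hab : a ≤ b) (ha : a ∈ inSet J) : b ∈ inSet J := by
  classical
  obtain ⟨f, hf, h1, h2⟩ := ha
  obtain ⟨c, rfl⟩ := le_iff_exists_add.1 hab
  refine ⟨monomial c 1 * f, J.mul_mem_left _ hf, ?_, ?_⟩
  · rw [add_comm a c, coeff_monomial_mul, one_mul]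
    exact h1
  · intro m' hm' hne
    rw [mem_support_iff, coeff_monomial_mul'] at hm'
    split_ifs at hm' with hc
    · obtain ⟨d, rfl⟩ := le_iff_exists_add.1 hc
      rw [add_tsub_cancel_left, one_mul] at hm'
      have hda : d ≠ a := by
        rintro rfl
        exact hne (add_comm _ _)
      have := revLT_add (c := c) (h2 d (mem_support_iff.2 hm') hda)
      rwa [add_comm d c] at this
    · exact absurd rfl hm'

theorem all_of_vars {n : ℕ} {k : Type} [Field k] (I : Ideal (MvPolynomial (Fin n) k))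
    (hI : ∀ v, (X v : MvPolynomial (Fin n) k) ∈ I) (g : Fin n × Fin n → k) {μ : Fin n →₀ ℕ}
    (hμ : μ ≠ 0) : μ ∈ inSet (coordI g I) := by
  classical
  obtain ⟨i, hi⟩ := Finsupp.ne_iff.1 hμ
  rw [Finsupp.coe_zero, Pi.zero_apply] at hi
  refine inSet_mul _ (a := Finsupp.single i 1)
    (Finsupp.single_le_iff.2 (Nat.one_le_iff_ne_zero.2 hi)) ?_
  refine ⟨X i, ?_, ?_, ?_⟩
  · show subst g (X i) ∈ I
    unfold subst
    rw [aeval_X]
    unfold lf
    exact Ideal.sum_mem _ fun v _ => I.mul_mem_left _ (hI v)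
  · rw [MvPolynomial.coeff_X, if_pos rfl]
    exact one_ne_zero
  · intro m' hm' hne
    rw [mem_support_iff, MvPolynomial.coeff_X] at hm'
    split_ifs at hm' with h
    · exact absurd h.symm hne
    · exact absurd rfl hm'

end PSDim

open PSDim in
theorem sDim (hsqf : SSqf) (hspec : SSpecDim) (hcnt : SCnt) (hphi : SPhi) : SDim := by
  classical
  intro k _ _ hk n m L hL hLm S hS
  obtain ⟨μ, hμ1, hμ2, rfl⟩ := hS
  rw [hphi]
  by_contra hr
  rw [not_le] at hr
  have hsupp := Pool.Agent.W398.KS.phi_lt n μ hμ2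
  have hμ0 : μ ≠ 0 := by
    rintro rfl
    rw [map_zero] at hr
    omega
  obtain ⟨i0, hi0⟩ := Finsupp.ne_iff.1 hμ0
  have hn := hsupp i0 (Finsupp.mem_support_iff.2 hi0)
  apply hμ1
  rcases Nat.eq_zero_or_pos m with hm | hm
  · subst hm
    refine ⟨1, one_ne_zero, fun g _ _ => all_of_vars _ (fun v => ?_) g hμ0⟩
    refine Ideal.subset_span ⟨{v}, fun h => ?_, by rw [prod_singleton]⟩
    have := hLm _ h
    rw [card_singleton] at this
    omega
  -- the dimension bound
  obtain ⟨d, rfl⟩ : ∃ d, m = d + 1 := ⟨m - 1, by omega⟩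
  have h1 : dimQ (Ij n d (d + 1) L) (d + 1 + 1) ≤ 0 := by
    refine (hsqf n d (d + 1) (d + 1 + 1) L hL le_rfl le_rfl).trans ?_
    rw [Nat.le_zero, card_eq_zero, filter_eq_empty_iff]
    intro σ hσ h
    have := hLm σ hσ
    omega
  obtain ⟨F0, hF0, hF0'⟩ := hspec n d (d + 1 + 1) _ L h1
  let row : Fin (d + 1) → Fin n := fun i => ⟨n - 1 - i, by omega⟩
  have hrow : Function.Injective row := by
    intro i j hij
    have := congrArg Fin.val hij
    simp only [row] at this
    apply Fin.ext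
    omega
  let ρ : Fin (d + 1) × Fin n → Fin n × Fin n := fun p => (row p.1, p.2)
  have hρ : Function.Injective ρ := by
    rintro ⟨i, v⟩ ⟨j, u⟩ h
    have h1 : row i = row j := congrArg Prod.fst h
    have h2 : v = u := congrArg Prod.snd h
    rw [hrow h1, h2]
  set F1 : MvPolynomial (Fin n × Fin n) k := rename ρ (MvPolynomial.map (Int.castRingHom k) F0)
    with hF1d
  have hF1 : F1 ≠ 0 := by
    intro h
    exact Pool.Agent.Y131.KS.map_ne hk hF0 (rename_injective ρ hρ (by rw [← hF1d, h, map_zero]))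
  refine ⟨F1, hF1, fun g hg hg1 => ?_⟩
  have hF3 := hF0' k (fun p => g (ρ p)) (by
    rw [hF1d, eval_rename, eval_map] at hg1
    rw [aeval_def]
    exact hg1)
  have hc := hcnt k n (d + 1) (d + 1 + 1) L g hg
  have hideal : Ideal.span {p : MvPolynomial (Fin n) k | ∃ i : Fin n, n ≤ (i : ℕ) + (d + 1) ∧
      p = lf (fun v => g (i, v))} =
      Ideal.span (Set.range (fun i : Fin (d + 1) => lf (fun v => g (ρ (i, v))))) := by
    congr 1
    ext p
    constructor
    · rintro ⟨i, hi, rfl⟩
      have hi2 := i.isLt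
      refine ⟨⟨n - 1 - i, by omega⟩, ?_⟩
      have e : row ⟨n - 1 - i, by omega⟩ = i := by
        apply Fin.ext
        simp only [row]
        omega
      show lf (fun v => g (row ⟨n - 1 - i, by omega⟩, v)) = _
      rw [e]
    · rintro ⟨i, rfl⟩
      refine ⟨row i, ?_, rfl⟩
      simp only [row]
      have := i.isLt
      omega
  rw [hideal] at hc
  have hz := Nat.le_zero.1 (hc.trans hF3)
  rw [Set.ncard_eq_zero ((Pool.Agent.W689.KS.finite_degree n (d + 1 + 1)).subset
    fun _ h => h.1)] at hz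
  obtain ⟨ν, hν, hνd⟩ := Finsupp.exists_le_degree_eq μ (d + 1 + 1) hr
  refine inSet_mul _ hν ?_
  by_contra hcon
  have : ν ∈ (∅ : Set (Fin n →₀ ℕ)) := by
    rw [← hz]
    refine ⟨hνd, fun i hi => ?_, hcon⟩
    have h2 : i ∈ μ.support := by
      rw [Finsupp.mem_support_iff] at hi ⊢
      have := hν i
      omega
    have := hsupp i h2
    omega
  exact this.elim

end Pool.Agent.H29.HK
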