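import Pool.Agent.H29.HK.Defs
import Pool.Graph.R_seed8.Y131.KS.Obs

set_option autoImplicit false

namespace Pool.Agent.H29.HK

open Finset MvPolynomial Pool.Agent.W555.KS

namespace PSDual

theorem even_odd_union {n : ℕ} (U : Finset (Fin n)) : evenPart U ∪ oddPart U = U := by
  unfold evenPart oddPart
  exact filter_union_filter_not_eq _ _

/-- functions on pairs of sets -/
abbrev W (n : ℕ) : Type := Finset (Fin n) × Finset (Fin n) → ZMod 2

/-- the operator -/
def A0 (n : ℕ) : W n →ₗ[ZMod 2] W n where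
  toFun Z p := ∑ v ∈ (p.1 ∪ p.2)ᶜ, Z (insert v p.1, p.2)
  map_add' Z Z' := by
    funext p
    exact Finset.sum_add_distrib
  map_smul' c Z := by
    funext p
    exact (Finset.mul_sum _ _ _).symm

/-- the evaluation -/
def ev0 (n D : ℕ) : W n →ₗ[ZMod 2] ZMod 2 where
  toFun Z := ∑ U ∈ powersetCard D univ, Z (evenPart U, oddPart U)
  map_add' Z Z' := Finset.sum_add_distrib
  map_smul' c Z := (Finset.mul_sum _ _ _).symm

/-- symmetric functions with support in `K` -/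
def V {n : ℕ} (K : Finset (Finset (Fin n))) (m : ℕ) : Submodule (ZMod 2) (W n) where
  carrier := {Z | (∀ σ τ, Z (σ, τ) = Z (τ, σ)) ∧
    ∀ σ τ, Z (σ, τ) ≠ 0 → σ ∈ K ∧ τ ∈ K ∧ σ.card = m ∧ τ.card = m}
  add_mem' := by
    rintro a b ⟨ha, ha'⟩ ⟨hb, hb'⟩
    refine ⟨fun σ τ => ?_, fun σ τ h => ?_⟩
    · rw [Pi.add_apply, Pi.add_apply, ha, hb]
    · by_cases h1 : a (σ, τ) = 0
      · refine hb' σ τ fun h2 => h ?_
        rw [Pi.add_apply, h1, h2, add_zero]
      · exact ha' σ τ h1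
  zero_mem' := ⟨fun _ _ => rfl, fun _ _ h => absurd rfl h⟩
  smul_mem' := by
    rintro c a ⟨ha, ha'⟩
    refine ⟨fun σ τ => ?_, fun σ τ h => ?_⟩
    · rw [Pi.smul_apply, Pi.smul_apply, ha]
    · refine ha' σ τ fun h2 => h ?_
      rw [Pi.smul_apply, h2, smul_zero]

/-- the value of the operator at an indicator function -/
theorem A0_single {n : ℕ} (σ τ : Finset (Fin n)) (hd : Disjoint σ τ) :
    A0 n (Pi.single (σ, τ) 1) = ∑ v ∈ σ, (Pi.single (σ.erase v, τ) 1 : W n) := by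
  funext p
  obtain ⟨ρ, τ'⟩ := p
  rw [Finset.sum_apply]
  show ∑ v ∈ (ρ ∪ τ')ᶜ, (Pi.single (σ, τ) 1 : W n) (insert v ρ, τ') = _
  by_cases hτ : τ' = τ
  · subst hτ
    have e1 : ∀ v : Fin n, (Pi.single (σ, τ') 1 : W n) (insert v ρ, τ') =
        if insert v ρ = σ then 1 else 0 := by
      intro v
      rw [Pi.single_apply]
      by_cases h : insert v ρ = σ
      · rw [if_pos h, if_pos (by rw [h])]
      · rw [if_neg h, if_neg fun h' => h (congrArg Prod.fst h')]
    have e2 : ∀ v : Fin n, (Pi.single (σ.erase v, τ') 1 : W n) (ρ, τ') =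
        if ρ = σ.erase v then 1 else 0 := by
      intro v
      rw [Pi.single_apply]
      by_cases h : ρ = σ.erase v
      · rw [if_pos h, if_pos (by rw [h])]
      · rw [if_neg h, if_neg fun h' => h (congrArg Prod.fst h')]
    rw [Finset.sum_congr rfl fun v _ => e1 v, Finset.sum_congr rfl fun v _ => e2 v,
      ← Finset.sum_filter, ← Finset.sum_filter]
    refine Finset.sum_congr ?_ fun _ _ => rfl
    ext v
    rw [mem_filter, mem_filter, mem_compl, mem_union, not_or]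
    constructor
    · rintro ⟨⟨h1, h2⟩, h3⟩
      rw [← h3]
      exact ⟨mem_insert_self _ _, (erase_insert h1).symm⟩
    · rintro ⟨h1, h2⟩
      rw [h2]
      refine ⟨⟨notMem_erase _ _, fun h3 => ?_⟩, insert_erase h1⟩
      exact (Finset.disjoint_left.1 hd h1) h3
  · rw [Finset.sum_eq_zero, Finset.sum_eq_zero]
    · intro v _
      rw [Pi.single_apply, if_neg fun h' => hτ (congrArg Prod.snd h')]
    · intro v _
      rw [Pi.single_apply, if_neg fun h' => hτ (congrArg Prod.snd h')]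

/-- the value of the evaluation at an indicator function -/
theorem ev0_single {n m : ℕ} (σ τ : Finset (Fin n)) (hd : Disjoint σ τ) (hσ : σ.card = m)
    (hτ : τ.card = m) : ev0 n (2 * m) (Pi.single (σ, τ) 1) =
      if σ = evenPart (σ ∪ τ) ∧ τ = oddPart (σ ∪ τ) then 1 else 0 := by
  show ∑ U ∈ powersetCard (2 * m) univ, (Pi.single (σ, τ) 1 : W n) (evenPart U, oddPart U) = _
  have hmem : σ ∪ τ ∈ powersetCard (2 * m) (univ : Finset (Fin n)) := by
    rw [mem_powersetCard]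
    refine ⟨subset_univ _, ?_⟩
    rw [card_union_of_disjoint hd, hσ, hτ, two_mul]
  rw [Finset.sum_eq_single_of_mem _ hmem]
  · rw [Pi.single_apply]
    by_cases h : σ = evenPart (σ ∪ τ) ∧ τ = oddPart (σ ∪ τ)
    · rw [if_pos h, if_pos (by rw [← h.1, ← h.2])]
    · rw [if_neg h, if_neg fun h' => h ⟨(congrArg Prod.fst h').symm, (congrArg Prod.snd h').symm⟩]
  · intro U _ hU
    rw [Pi.single_apply, if_neg fun h' => hU ?_]
    have h1 : evenPart U = σ := congrArg Prod.fst h'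
    have h2 : oddPart U = τ := congrArg Prod.snd h'
    rw [← h1, ← h2, even_odd_union]

theorem ker_le {n q : ℕ} (K : Finset (Finset (Fin n)))
    (h : Pool.Agent.Y131.KS.VK2 K (2 * q + 2)) (Z : W n) (hZ : Z ∈ V K (q + 1))
    (hA : A0 n Z = 0) : ev0 n (2 * (q + 1)) Z = 0 := by
  obtain ⟨hs, hK⟩ := hZ
  have hA' : ∀ ρ τ : Finset (Fin n), ∑ v ∈ (ρ ∪ τ)ᶜ, Z (insert v ρ, τ) = 0 :=
    fun ρ τ => congrFun hA (ρ, τ)
  refine h (fun σ τ => Z (σ, τ)) hs (fun σ τ hne => ⟨(hK σ τ hne).1, (hK σ τ hne).2.1⟩) ?_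
  intro ρ τ _ hcard
  rw [Finset.sum_add_distrib, hA' ρ τ, zero_add]
  have e : ∀ v, Z (ρ, insert v τ) = Z (insert v τ, ρ) := fun v => hs _ _
  rw [Finset.sum_congr rfl fun v _ => e v, union_comm]
  exact hA' τ ρ

end PSDual

open PSDual

/-- vanishing of the obstruction on symmetric cycles gives a finger move cochain -/
theorem dual {n q : ℕ} (K : Finset (Finset (Fin n))) (hdim : ∀ σ ∈ K, σ.card ≤ q + 1)
    (h : Pool.Agent.Y131.KS.VK2 K (2 * q + 2)) :
    ∃ φ : Finset (Fin n) → Finset (Fin n) → ZMod 2,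
      Data (K.filter (fun σ => σ.card = q + 1)) (0 : Matrix (Fin 0) (Fin 0) (ZMod 2))
        (fun _ _ => 0) φ := by
  have hev : (ev0 n (2 * (q + 1))).comp (V K (q + 1)).subtype ∈
      (LinearMap.ker ((A0 n).comp (V K (q + 1)).subtype)).dualAnnihilator := by
    rw [Submodule.mem_dualAnnihilator]
    intro Z hZ
    exact ker_le K h Z.1 Z.2 hZ
  rw [← LinearMap.range_dualMap_eq_dualAnnihilator_ker] at hev
  obtain ⟨f, hf⟩ := hev
  refine ⟨fun ρ τ => f (Pi.single (ρ, τ) 1), Matrix.isSymm_zero, ?_⟩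
  intro σ hσ τ hτ hd
  rw [mem_filter] at hσ hτ
  obtain ⟨hσK, hσc⟩ := hσ
  obtain ⟨hτK, hτc⟩ := hτ
  have hne : σ ≠ τ := by
    rintro rfl
    have h1 := disjoint_self.1 hd
    rw [h1] at hσc
    simp at hσc
  have hV : (Pi.single (σ, τ) 1 + Pi.single (τ, σ) 1 : W n) ∈ V K (q + 1) := by
    refine ⟨fun a b => ?_, fun a b hab => ?_⟩
    · rw [Pi.add_apply, Pi.add_apply]
      simp only [Pi.single_apply, Prod.mk.injEq]
      rw [add_comm]
      simp only [and_comm]
    · by_cases h1 : (a, b) = (σ, τ)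
      · obtain ⟨rfl, rfl⟩ := Prod.mk.inj h1
        exact ⟨hσK, hτK, hσc, hτc⟩
      · by_cases h2 : (a, b) = (τ, σ)
        · obtain ⟨rfl, rfl⟩ := Prod.mk.inj h2
          exact ⟨hτK, hσK, hτc, hσc⟩
        · exfalso
          apply hab
          rw [Pi.add_apply, Pi.single_apply, Pi.single_apply, if_neg h1, if_neg h2, add_zero]
  have h1 := LinearMap.congr_fun hf ⟨_, hV⟩
  have h2 : f (A0 n (Pi.single (σ, τ) 1 + Pi.single (τ, σ) 1 : W n)) =
      ev0 n (2 * (q + 1)) (Pi.single (σ, τ) 1 + Pi.single (τ, σ) 1 : W n) := h1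
  rw [map_add, map_add, map_add, A0_single σ τ hd, A0_single τ σ hd.symm,
    ev0_single σ τ hd hσc hτc, ev0_single τ σ hd.symm hτc hσc, map_sum, map_sum,
    union_comm τ σ] at h2
  have halt : alt σ τ = (if σ = evenPart (σ ∪ τ) ∧ τ = oddPart (σ ∪ τ) then 1 else 0) +
      if τ = evenPart (σ ∪ τ) ∧ σ = oddPart (σ ∪ τ) then 1 else 0 := by
    unfold alt
    by_cases c1 : σ = evenPart (σ ∪ τ) ∧ τ = oddPart (σ ∪ τ)
    · have c2 : ¬ (τ = evenPart (σ ∪ τ) ∧ σ = oddPart (σ ∪ τ)) := fun h' =>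
        hne (c1.1.trans h'.1.symm)
      rw [if_pos c1, if_neg c2, if_pos (Or.inl c1), add_zero]
    · by_cases c2 : τ = evenPart (σ ∪ τ) ∧ σ = oddPart (σ ∪ τ)
      · rw [if_neg c1, if_pos c2, if_pos (Or.inr ⟨c2.2, c2.1⟩), zero_add]
      · rw [if_neg c1, if_neg c2, if_neg, add_zero]
        rintro (h' | h')
        · exact c1 h'
        · exact c2 ⟨h'.2, h'.1⟩
  rw [← halt] at h2
  rw [← h2, Fin.sum_univ_zero]
  have h3 : ∀ a b : ZMod 2, a + b + a + b = 0 := by decide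
  exact h3 _ _

end Pool.Agent.H29.HK

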