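import Pool.Agent.H29.HK.Defs3

set_option autoImplicit false

namespace Pool.Agent.H29.HK

open Finset MvPolynomial Pool.Agent.W555.KS

namespace PSOdd1

/-- choose one element of every bad pair -/
theorem choose_one {α : Type} [Fintype α] [DecidableEq α] (F : Finset α) (bad : α → α → Prop)
    [DecidablePred fun p : α × α => bad p.1 p.2]
    (hs : ∀ x y, bad x y → bad y x) (hi : ∀ x ∈ F, ¬ bad x x) :
    ∃ D : Finset α, D ⊆ F ∧ 2 * D.card ≤ ((F ×ˢ F).filter fun p => bad p.1 p.2).card ∧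
      ∀ x ∈ F \ D, ∀ y ∈ F \ D, ¬ bad x y := by
  let e := Fintype.equivFin α
  let O := (F ×ˢ F).filter fun p => bad p.1 p.2
  let O1 := O.filter fun p => e p.1 < e p.2
  let O2 := O.filter fun p => e p.2 < e p.1
  have hO : ∀ p, p ∈ O ↔ (p.1 ∈ F ∧ p.2 ∈ F) ∧ bad p.1 p.2 := by
    intro p
    simp only [O, mem_filter, mem_product]
  have h12 : O1.card = O2.card := by
    refine card_bij (fun p _ => (p.2, p.1)) ?_ ?_ ?_
    · intro p hp
      obtain ⟨hp1, hp2⟩ := mem_filter.1 hp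
      obtain ⟨⟨a1, a2⟩, a3⟩ := (hO p).1 hp1
      exact mem_filter.2 ⟨(hO _).2 ⟨⟨a2, a1⟩, hs _ _ a3⟩, hp2⟩
    · intro p _ p' _ h
      have e1 := congrArg Prod.fst h
      have e2 := congrArg Prod.snd h
      exact Prod.ext e2 e1
    · intro p hp
      obtain ⟨hp1, hp2⟩ := mem_filter.1 hp
      obtain ⟨⟨a1, a2⟩, a3⟩ := (hO p).1 hp1
      exact ⟨(p.2, p.1), mem_filter.2 ⟨(hO _).2 ⟨⟨a2, a1⟩, hs _ _ a3⟩, hp2⟩, rfl⟩
  have hdis : Disjoint O1 O2 := by
    rw [disjoint_left]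
    intro p h1 h2
    exact lt_asymm (mem_filter.1 h1).2 (mem_filter.1 h2).2
  have hsub : O1 ∪ O2 ⊆ O := union_subset (filter_subset _ _) (filter_subset _ _)
  refine ⟨O1.image Prod.fst, ?_, ?_, ?_⟩
  · intro x hx
    obtain ⟨p, hp, rfl⟩ := mem_image.1 hx
    exact ((hO p).1 (mem_filter.1 hp).1).1.1
  · have h3 : (O1.image Prod.fst).card ≤ O1.card := card_image_le
    have h4 : O1.card + O2.card ≤ O.card := by
      rw [← card_union_of_disjoint hdis]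
      exact card_le_card hsub
    show 2 * (O1.image Prod.fst).card ≤ O.card
    omega
  · intro x hx y hy hb
    rw [mem_sdiff] at hx hy
    rcases lt_trichotomy (e x) (e y) with h | h | h
    · exact hx.2 (mem_image.2 ⟨(x, y), mem_filter.2 ⟨(hO _).2 ⟨⟨hx.1, hy.1⟩, hb⟩, h⟩, rfl⟩)
    · have hxy : x = y := e.injective h
      subst hxy
      exact hi x hx.1 hb
    · exact hy.2 (mem_image.2 ⟨(y, x), mem_filter.2 ⟨(hO _).2 ⟨⟨hy.1, hx.1⟩, hs _ _ hb⟩, h⟩,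
        rfl⟩)

theorem alt_comm {n : ℕ} (σ τ : Finset (Fin n)) : alt σ τ = alt τ σ := by
  unfold alt
  rw [union_comm τ σ]
  refine if_congr ?_ rfl rfl
  constructor
  · rintro (⟨h1, h2⟩ | ⟨h1, h2⟩)
    · exact Or.inr ⟨h2, h1⟩
    · exact Or.inl ⟨h2, h1⟩
  · rintro (⟨h1, h2⟩ | ⟨h1, h2⟩)
    · exact Or.inr ⟨h2, h1⟩
    · exact Or.inl ⟨h2, h1⟩

theorem form_comm {b : ℕ} (Q : Matrix (Fin b) (Fin b) (ZMod 2)) (hQ : Q.IsSymm)
    (x y : Fin b → ZMod 2) :
    ∑ i, ∑ j, x i * Q i j * y j = ∑ i, ∑ j, y i * Q i j * x j := by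
  rw [sum_comm]
  refine sum_congr rfl fun i _ => sum_congr rfl fun j _ => ?_
  rw [← hQ.apply i j]
  ring

end PSOdd1

open PSOdd1

theorem sOdd1 (hsh : SShadow) : SOdd1 := by
  intro n q b L Q y φ hq hL hQ
  obtain ⟨F, hF⟩ : ∃ F, F = L.filter (fun σ => σ.card = q + 1) := ⟨_, rfl⟩
  obtain ⟨D, hD1, hD2, hD3⟩ := choose_one F (fun σ τ : Finset (Fin n) => Disjoint σ τ ∧
    alt σ τ + ∑ v ∈ σ, φ (σ.erase v) τ + ∑ v ∈ τ, φ (τ.erase v) σ ≠
      ∑ i, ∑ j, y σ i * Q i j * y τ j) (by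
    rintro σ τ ⟨h1, h2⟩
    refine ⟨h1.symm, fun h => h2 ?_⟩
    rw [form_comm Q hQ (y σ) (y τ), alt_comm σ τ, ← h]
    ring) (by
    rintro σ hσ ⟨h1, -⟩
    rw [hF, mem_filter] at hσ
    have h2 : σ = ∅ := disjoint_self_iff_empty σ |>.1 h1
    rw [h2, card_empty] at hσ
    omega)
  have hD2' : 2 * D.card ≤ (oddP F Q y φ).card := hD2
  have hDc : ∀ σ ∈ D, σ.card = q + 1 := by
    intro σ hσ
    have := hD1 hσ
    rw [hF, mem_filter] at this
    exact this.2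
  obtain ⟨L', hL'⟩ : ∃ L', L' = L.filter (fun σ => σ.card ≤ q + 1 ∧ σ ∉ D) := ⟨_, rfl⟩
  have hcx : IsCx L' := by
    rw [hL']
    refine ⟨mem_filter.2 ⟨hL.1, by simp, fun h => ?_⟩, ?_⟩
    · have := hDc _ h
      rw [card_empty] at this
      omega
    · intro σ hσ τ hτ
      obtain ⟨h1, h2, h3⟩ := mem_filter.1 hσ
      have h4 := card_le_card hτ
      refine mem_filter.2 ⟨hL.2 σ h1 τ hτ, h4.trans h2, fun h => ?_⟩
      have h5 := hDc _ h
      have h6 : τ = σ := eq_of_subset_of_card_le hτ (by omega)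
      rw [h6] at h
      exact h3 h
  have e1 : L'.filter (fun σ => σ.card = q + 1) = F \ D := by
    rw [hL', hF]
    ext σ
    simp only [mem_filter, mem_sdiff]
    constructor
    · rintro ⟨⟨h1, -, h2⟩, h3⟩
      exact ⟨⟨h1, h3⟩, h2⟩
    · rintro ⟨⟨h1, h3⟩, h2⟩
      exact ⟨⟨h1, h3.le, h2⟩, h3⟩
  have e2 : L'.filter (fun σ => σ.card = q) = L.filter (fun σ => σ.card = q) := by
    rw [hL']
    ext σ
    simp only [mem_filter]
    constructor
    · rintro ⟨⟨h1, -, -⟩, h3⟩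
      exact ⟨h1, h3⟩
    · rintro ⟨h1, h3⟩
      refine ⟨⟨h1, by omega, fun h => ?_⟩, h3⟩
      have := hDc _ h
      omega
  have hdata : Data (L'.filter (fun σ => σ.card = q + 1)) Q y φ := by
    rw [e1]
    refine ⟨hQ, fun σ hσ τ hτ hd => ?_⟩
    by_contra hne
    exact hD3 σ hσ τ hτ ⟨hd, hne⟩
  have h1 := hsh n q b L' Q y φ hq hcx hdata
  rw [e1, e2] at h1
  have h2 : F.card ≤ (F \ D).card + D.card := by
    have := card_le_card (subset_union_left (s₁ := F) (s₂ := D))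
    have h3 := card_sdiff_add_card F D
    omega
  rw [← hF]
  omega

end Pool.Agent.H29.HK
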