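import Pool.Agent.H29.HK.Defs3

set_option autoImplicit false

namespace Pool.Agent.H29.HK

open Finset MvPolynomial Pool.Agent.W555.KS

namespace PSOddP

/-- the weight of a random subset -/
noncomputable def wt (n : ℕ) (p : ℝ) (S : Finset (Fin n)) : ℝ :=
  (∏ _i ∈ S, p) * ∏ _i ∈ univ \ S, (1 - p)

theorem wt_nonneg (n : ℕ) (p : ℝ) (h0 : 0 ≤ p) (h1 : p ≤ 1) (S : Finset (Fin n)) :
    0 ≤ wt n p S :=
  mul_nonneg (Finset.prod_nonneg fun _ _ => h0) (Finset.prod_nonneg fun _ _ => by linarith)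

theorem sum_wt (n : ℕ) (p : ℝ) (A : Finset (Fin n)) :
    ∑ S : Finset (Fin n), wt n p S * (if A ⊆ S then 1 else 0) = p ^ A.card := by
  have h := Finset.prod_add (fun _ : Fin n => p) (fun i : Fin n => if i ∈ A then 0 else 1 - p)
    (univ : Finset (Fin n))
  rw [Finset.powerset_univ] at h
  have h1 : ∏ i : Fin n, (p + if i ∈ A then 0 else 1 - p) = p ^ A.card := by
    have h2 : ∀ i : Fin n, (p + if i ∈ A then 0 else 1 - p) = if i ∈ A then p else 1 := by
      intro i
      by_cases hi : i ∈ A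
      · rw [if_pos hi, if_pos hi, add_zero]
      · rw [if_neg hi, if_neg hi]; ring
    rw [Finset.prod_congr rfl fun i _ => h2 i, Finset.prod_ite_mem, Finset.univ_inter,
      Finset.prod_const]
  rw [← h1, h]
  refine Finset.sum_congr rfl fun S _ => ?_
  unfold wt
  by_cases hA : A ⊆ S
  · rw [if_pos hA, mul_one]
    congr 1
    refine Finset.prod_congr rfl fun i hi => ?_
    rw [if_neg fun h3 => (Finset.mem_sdiff.1 hi).2 (hA h3)]
  · rw [if_neg hA, mul_zero]
    obtain ⟨i, hi, hiS⟩ := Finset.not_subset.1 hA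
    symm
    apply mul_eq_zero_of_right
    exact Finset.prod_eq_zero (Finset.mem_sdiff.2 ⟨Finset.mem_univ i, hiS⟩) (if_pos hi)

theorem sum_card {α : Type} (n : ℕ) (p : ℝ) (F : Finset α) (A : α → Finset (Fin n)) (m : ℕ)
    (hA : ∀ a ∈ F, (A a).card = m) :
    ∑ S : Finset (Fin n), wt n p S * ((F.filter (fun a => A a ⊆ S)).card : ℝ) =
      p ^ m * (F.card : ℝ) := by
  have h1 : ∀ S : Finset (Fin n), wt n p S * ((F.filter (fun a => A a ⊆ S)).card : ℝ) =
      ∑ a ∈ F, wt n p S * (if A a ⊆ S then 1 else 0) := by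
    intro S
    rw [← Finset.mul_sum, Finset.sum_boole]
  rw [Finset.sum_congr rfl fun S _ => h1 S, Finset.sum_comm]
  rw [Finset.sum_congr rfl fun a ha => (sum_wt n p (A a)).trans (by rw [hA a ha]),
    Finset.sum_const, nsmul_eq_mul, mul_comm]

end PSOddP

open PSOddP in
theorem sOddP (h1 : SOdd1) : SOddP := by
  intro n q b L Q y φ p hq hL hQ hp0 hp1
  have hcx : ∀ S : Finset (Fin n), IsCx (L.filter (fun σ => σ ⊆ S)) := by
    intro S
    refine ⟨Finset.mem_filter.2 ⟨hL.1, Finset.empty_subset S⟩, ?_⟩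
    intro σ hσ τ hτ
    rw [Finset.mem_filter] at hσ
    exact Finset.mem_filter.2 ⟨hL.2 σ hσ.1 τ hτ, hτ.trans hσ.2⟩
  have hf : ∀ (S : Finset (Fin n)) (m : ℕ), (L.filter (fun σ => σ ⊆ S)).filter
      (fun σ => σ.card = m) = (L.filter (fun σ => σ.card = m)).filter (fun σ => σ ⊆ S) :=
    fun S m => Finset.filter_comm _ _ _
  have ho : ∀ S : Finset (Fin n), oddP ((L.filter (fun σ => σ.card = q + 1)).filter
      (fun σ => σ ⊆ S)) Q y φ = (oddP (L.filter (fun σ => σ.card = q + 1)) Q y φ).filter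
      (fun r => r.1 ∪ r.2 ⊆ S) := by
    intro S
    unfold oddP
    ext r
    simp only [Finset.mem_filter, Finset.mem_product, Finset.union_subset_iff]
    tauto
  have hS : ∀ S : Finset (Fin n),
      wt n p S * (2 * (((L.filter (fun σ => σ.card = q + 1)).filter
        (fun σ => σ ⊆ S)).card : ℝ)) ≤
      wt n p S * (2 * ((q + 2) * (((L.filter (fun σ => σ.card = q)).filter
        (fun σ => σ ⊆ S)).card : ℝ) + ((2 * q + 1).choose (q + 1) : ℝ) * b) +
        (((oddP (L.filter (fun σ => σ.card = q + 1)) Q y φ).filter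
          (fun r => r.1 ∪ r.2 ⊆ S)).card : ℝ)) := by
    intro S
    refine mul_le_mul_of_nonneg_left ?_ (wt_nonneg n p hp0 hp1 S)
    have h2 := h1 n q b (L.filter (fun σ => σ ⊆ S)) Q y φ hq (hcx S) hQ
    rw [hf, hf, ho] at h2
    exact_mod_cast h2
  have hsum := Finset.sum_le_sum (s := univ) fun S _ => hS S
  have e1 := sum_card n p (L.filter (fun σ => σ.card = q + 1)) (fun σ => σ) (q + 1)
    (fun σ hσ => (Finset.mem_filter.1 hσ).2)
  have e2 := sum_card n p (L.filter (fun σ => σ.card = q)) (fun σ => σ) q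
    (fun σ hσ => (Finset.mem_filter.1 hσ).2)
  have e3 := sum_card n p (oddP (L.filter (fun σ => σ.card = q + 1)) Q y φ)
    (fun r => r.1 ∪ r.2) (2 * q + 2) (by
      intro r hr
      unfold oddP at hr
      simp only [Finset.mem_filter, Finset.mem_product] at hr
      rw [Finset.card_union_of_disjoint hr.2.1, hr.1.1.2, hr.1.2.2]
      ring)
  have e4 : ∑ S : Finset (Fin n), wt n p S = 1 := by
    have := sum_wt n p ∅
    simpa using this
  have l1 : ∑ S : Finset (Fin n), wt n p S *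
      (2 * (((L.filter (fun σ => σ.card = q + 1)).filter (fun σ => σ ⊆ S)).card : ℝ)) =
      2 * (p ^ (q + 1) * ((L.filter (fun σ => σ.card = q + 1)).card : ℝ)) := by
    rw [← e1, Finset.mul_sum]
    exact Finset.sum_congr rfl fun S _ => by ring
  have l2 : ∑ S : Finset (Fin n), wt n p S * (2 * ((q + 2) *
      (((L.filter (fun σ => σ.card = q)).filter (fun σ => σ ⊆ S)).card : ℝ) +
        ((2 * q + 1).choose (q + 1) : ℝ) * b) +
        (((oddP (L.filter (fun σ => σ.card = q + 1)) Q y φ).filter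
          (fun r => r.1 ∪ r.2 ⊆ S)).card : ℝ)) =
      2 * ((q + 2) * (p ^ q * ((L.filter (fun σ => σ.card = q)).card : ℝ)) +
        ((2 * q + 1).choose (q + 1) : ℝ) * b * 1) +
        p ^ (2 * q + 2) * ((oddP (L.filter (fun σ => σ.card = q + 1)) Q y φ).card : ℝ) := by
    rw [← e2, ← e3, ← e4, Finset.mul_sum, Finset.mul_sum, ← Finset.sum_add_distrib,
      Finset.mul_sum, ← Finset.sum_add_distrib]
    exact Finset.sum_congr rfl fun S _ => by ring
  rw [l1, l2] at hsum
  linarith

end Pool.Agent.H29.HK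

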