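import Pool.Agent.H29.HK.Defs3

set_option autoImplicit false

namespace Pool.Agent.H29.HK

open Finset MvPolynomial Pool.Agent.W555.KS

theorem sTotal (hshift : SShift) (hdim : SDim) (hall : SAllow) (hphi : SPhi) : STotal := by
  classical
  intro k _ _ hk n q b L Q y φ hq hn hL hLq hD
  obtain ⟨h1, h2⟩ := hshift k hk n q b L Q y φ hq hn hL hD
  have hsub : shift k L \ shift k (cyc n (2 * q + 1)) ⊆
      {S | S ∈ shift k L ∧ S.card = q + 1 ∧ S ∉ shift k (cyc n (2 * q + 1))} := by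
    rintro S ⟨hS, hS2⟩
    refine ⟨hS, ?_, hS2⟩
    have hc := hdim k hk n (q + 1) L hL hLq S hS
    by_contra hne
    apply hS2
    obtain ⟨μ, hμ1, hμ2, rfl⟩ := hS
    refine ⟨μ, hall k hk n (2 * q + 1) (by omega) hn μ ?_ hμ2, hμ2, rfl⟩
    rw [hphi] at hc hne
    unfold Allowed
    have h3 : ∑ i ∈ (univ : Finset (Fin n)).filter (fun i : Fin n => (i : ℕ) + (2 * q + 1) < n),
        μ i ≤ μ.degree := by
      rw [Finsupp.degree_eq_sum]
      exact Finset.sum_le_sum_of_subset (filter_subset _ _)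
    omega
  exact ⟨h1.subset hsub, (Set.ncard_le_ncard hsub h1).trans h2⟩

end Pool.Agent.H29.HK
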