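import Pool.Agent.H29.HK.Final1
import Pool.Agent.H29.HK.P_SDim
import Pool.Agent.H29.HK.P_STotal
import Pool.Agent.H29.HK.P_SOdd1
import Pool.Agent.H29.HK.P_SOddP
import Pool.Agent.H29.HK.P_SDual

/-!
# The theorems, second part
-/

set_option autoImplicit false

namespace Pool.Agent.H29.HK

open Finset MvPolynomial Pool.Agent.W555.KS

theorem total' : STotal :=
  sTotal shift' (sDim (sSqf W374.KS.minor) (sSpecDim sRank) sCnt sPhi) sAllow sPhi

theorem odd1' : SOdd1 := sOdd1 shadow'

theorem oddP' : SOddP := sOddP odd1'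

end Pool.Agent.H29.HK
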