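import Pool.Agent.H29.HK.Defs4
import Pool.Graph.R_seed8.Y131.KS.Chain

set_option autoImplicit false

namespace Pool.Agent.H29.HK

open Finset MvPolynomial Pool.Agent.W555.KS Pool.Agent.H789R5 Pool.Agent.H283R2.DR

theorem sRigid (hstress : SStress) (hring : SRing) (hspec : SSpecDim) : SRigid := by
  classical
  intro n b G Q y φ hD
  have h1 := hring n 1 b (graphCx G) ((graphCx G).filter (fun σ => σ.card = 2)) Q y φ le_rfl hD
    (fun σ hσ hc => mem_filter.2 ⟨hσ, hc⟩)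
  have h2 : dimQ (Ij n 3 4 (graphCx G)) 2 ≤ 3 * b := h1
  obtain ⟨F0, hF0, hF0'⟩ := hspec n 3 2 (3 * b) (graphCx G) h2
  have hF1 : MvPolynomial.map (Int.castRingHom ℝ) F0 ≠ 0 :=
    Pool.Agent.Y131.KS.map_ne (Or.inl inferInstance) hF0
  have hP : (∏ v : Fin n, (X ((0 : Fin (3 + 1)), v) : MvPolynomial (Fin (3 + 1) × Fin n) ℝ)) ≠ 0 :=
    prod_ne_zero_iff.2 fun v _ => X_ne_zero _
  obtain ⟨c, hc⟩ := Pool.Agent.W689.KS.exists_eval_ne
    (MvPolynomial.map (Int.castRingHom ℝ) F0 *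
      ∏ v : Fin n, (X ((0 : Fin (3 + 1)), v) : MvPolynomial (Fin (3 + 1) × Fin n) ℝ))
    (mul_ne_zero hF1 hP)
  rw [map_mul] at hc
  have hc1 := left_ne_zero_of_mul hc
  have hc2 := right_ne_zero_of_mul hc
  rw [map_prod, prod_ne_zero_iff] at hc2
  have hc3 : ∀ v, c (0, v) ≠ 0 := by
    intro v
    have := hc2 v (mem_univ v)
    rwa [eval_X] at this
  have h3 := hF0' ℝ c (by
    rw [eval_map] at hc1
    rw [aeval_def]
    exact hc1)
  have h4 := hstress n 3 G c hc3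
  omega

end Pool.Agent.H29.HK
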