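import Pool.Agent.H29.HK.Defs4

set_option autoImplicit false

namespace Pool.Agent.H29.HK

open Finset MvPolynomial Pool.Agent.W555.KS Pool.Agent.H789R5 Pool.Agent.H283R2.DR

namespace PSStress

open Classical

variable {n d : ℕ}

/-- the weight of the pair `u v` -/
noncomputable def Wf (G : SimpleGraph (Fin n)) (w : G.edgeSet → ℝ) (u v : Fin n) : ℝ :=
  if h : G.Adj u v then w ⟨s(u, v), h⟩ else 0

theorem Wf_symm (G : SimpleGraph (Fin n)) (w : G.edgeSet → ℝ) (u v : Fin n) :
    Wf G w u v = Wf G w v u := by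
  unfold Wf
  by_cases h : G.Adj u v
  · rw [dif_pos h, dif_pos h.symm]
    congr 1
    exact Subtype.ext Sym2.eq_swap
  · rw [dif_neg h, dif_neg (fun h' => h h'.symm)]

theorem Wf_self (G : SimpleGraph (Fin n)) (w : G.edgeSet → ℝ) (u : Fin n) :
    Wf G w u u = 0 := by
  unfold Wf
  rw [dif_neg (G.irrefl)]

theorem Wf_add (G : SimpleGraph (Fin n)) (w w' : G.edgeSet → ℝ) (u v : Fin n) :
    Wf G (w + w') u v = Wf G w u v + Wf G w' u v := by
  unfold Wf
  by_cases h : G.Adj u v
  · simp [dif_pos h]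
  · simp [dif_neg h]

theorem Wf_smul (G : SimpleGraph (Fin n)) (a : ℝ) (w : G.edgeSet → ℝ) (u v : Fin n) :
    Wf G (a • w) u v = a * Wf G w u v := by
  unfold Wf
  by_cases h : G.Adj u v
  · simp [dif_pos h]
  · simp [dif_neg h]

/-- the symmetric matrix of the functional -/
noncomputable def Af (G : SimpleGraph (Fin n)) (b : Fin n → ℝ) (w : G.edgeSet → ℝ)
    (u v : Fin n) : ℝ :=
  Wf G w u v / (b u * b v) - (if u = v then (∑ x, Wf G w u x) / (b u) ^ 2 else 0)

theorem Af_symm (G : SimpleGraph (Fin n)) (b : Fin n → ℝ) (w : G.edgeSet → ℝ) (u v : Fin n) :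
    Af G b w u v = Af G b w v u := by
  unfold Af
  by_cases h : u = v
  · subst h; rfl
  · rw [if_neg h, if_neg (fun h' => h h'.symm), Wf_symm, mul_comm]

theorem Af_add (G : SimpleGraph (Fin n)) (b : Fin n → ℝ) (w w' : G.edgeSet → ℝ) (u v : Fin n) :
    Af G b (w + w') u v = Af G b w u v + Af G b w' u v := by
  unfold Af
  by_cases h : u = v
  · simp only [Wf_add, if_pos h, sum_add_distrib]; ring
  · simp only [Wf_add, if_neg h]; ring

theorem Af_smul (G : SimpleGraph (Fin n)) (b : Fin n → ℝ) (a : ℝ) (w : G.edgeSet → ℝ)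
    (u v : Fin n) :
    Af G b (a • w) u v = a * Af G b w u v := by
  unfold Af
  by_cases h : u = v
  · simp only [Wf_smul, if_pos h, ← mul_sum]; ring
  · simp only [Wf_smul, if_neg h]; ring

/-- the functional -/
noncomputable def Mf (G : SimpleGraph (Fin n)) (b : Fin n → ℝ) :
    (G.edgeSet → ℝ) →ₗ[ℝ] MvPolynomial (Fin n) ℝ →ₗ[ℝ] ℝ :=
  LinearMap.mk₂ ℝ (fun w p => (1 / 2 : ℝ) *
      ∑ u, ∑ v, Af G b w u v * constantCoeff (pderiv u (pderiv v p)))
    (by
      intro w w' p
      simp only [Af_add, add_mul, sum_add_distrib, mul_add])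
    (by
      intro a w p
      simp only [Af_smul, smul_eq_mul, mul_assoc, ← mul_sum]
      ring)
    (by
      intro w p p'
      simp only [map_add, mul_add, sum_add_distrib])
    (by
      intro a w p
      simp only [Derivation.map_smul, smul_eq_mul, constantCoeff_smul, mul_left_comm _ a,
        ← mul_sum])

theorem Mf_apply (G : SimpleGraph (Fin n)) (b : Fin n → ℝ) (w : G.edgeSet → ℝ)
    (p : MvPolynomial (Fin n) ℝ) :
    Mf G b w p = (1 / 2 : ℝ) *
      ∑ u, ∑ v, Af G b w u v * constantCoeff (pderiv u (pderiv v p)) := rfl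

theorem cc_XX (u v x y : Fin n) (r : MvPolynomial (Fin n) ℝ) :
    constantCoeff (pderiv u (pderiv v (X x * X y * r))) =
      ((if u = x ∧ v = y then 1 else 0) + (if u = y ∧ v = x then 1 else 0)) *
        constantCoeff r := by
  have e1 : ∀ a b : Fin n, constantCoeff (pderiv a (X b : MvPolynomial (Fin n) ℝ)) =
      if a = b then 1 else 0 := by
    intro a b
    by_cases h : a = b
    · subst h; simp
    · rw [pderiv_X_of_ne (fun h' => h h'.symm), if_neg h, map_zero]
  have e2 : ∀ a b c : Fin n,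
      constantCoeff (pderiv a (pderiv b (X c : MvPolynomial (Fin n) ℝ))) = 0 := by
    intro a b c
    by_cases h : b = c
    · subst h; simp
    · rw [pderiv_X_of_ne (fun h' => h h'.symm)]; simp
  simp only [Derivation.leibniz, smul_eq_mul, map_add, map_mul, constantCoeff_X, e1, e2]
  by_cases h1 : u = x <;> by_cases h2 : v = y <;> by_cases h3 : u = y <;> by_cases h4 : v = x <;>
    simp [h1, h2, h3, h4, ite_and] <;> ring

theorem Mf_XX (G : SimpleGraph (Fin n)) (b : Fin n → ℝ) (w : G.edgeSet → ℝ)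
    (x y : Fin n) (r : MvPolynomial (Fin n) ℝ) :
    Mf G b w (X x * X y * r) = Af G b w x y * constantCoeff r := by
  rw [Mf_apply]
  simp only [cc_XX]
  have h : ∀ u v : Fin n, Af G b w u v * (((if u = x ∧ v = y then 1 else 0) +
      (if u = y ∧ v = x then 1 else 0)) * constantCoeff r) =
      (if u = x then (if v = y then Af G b w x y * constantCoeff r else 0) else 0) +
      (if u = y then (if v = x then Af G b w y x * constantCoeff r else 0) else 0) := by
    intro u v
    by_cases h1 : u = x <;> by_cases h2 : v = y <;> by_cases h3 : u = y <;>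
      by_cases h4 : v = x <;> simp_all
    ring
  simp only [h, sum_add_distrib, sum_ite_eq', mem_univ, if_true, sum_ite_irrel, sum_const_zero]
  rw [Af_symm G b w y x]
  ring

theorem Mf_sr (G : SimpleGraph (Fin n)) (b : Fin n → ℝ) (w : G.edgeSet → ℝ)
    (σ : Finset (Fin n)) (hσ : σ ∉ graphCx G) (q : MvPolynomial (Fin n) ℝ) :
    Mf G b w (q * ∏ v ∈ σ, X v) = 0 := by
  have h1 : ¬ (σ.card ≤ 1 ∨ ∃ u v, G.Adj u v ∧ σ = {u, v}) := by
    intro h
    apply hσ
    unfold graphCx
    rw [mem_filter]
    exact ⟨mem_univ _, h⟩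
  rw [not_or] at h1
  obtain ⟨h2, h3⟩ := h1
  obtain ⟨x, hx, y, hy, hxy⟩ := Finset.one_lt_card.mp (not_le.mp h2)
  have h4 : (∏ v ∈ σ, X v : MvPolynomial (Fin n) ℝ) =
      X x * (X y * ∏ v ∈ (σ.erase x).erase y, X v) := by
    rw [mul_prod_erase _ _ (mem_erase.mpr ⟨hxy.symm, hy⟩), mul_prod_erase _ _ hx]
  have h5 : q * (∏ v ∈ σ, X v : MvPolynomial (Fin n) ℝ) =
      X x * X y * (q * ∏ v ∈ (σ.erase x).erase y, X v) := by
    rw [h4]; ring
  rw [h5, Mf_XX]
  by_cases h6 : (σ.erase x).erase y = ∅
  · have h7 : σ = {x, y} := by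
      ext z
      rw [mem_insert, mem_singleton]
      constructor
      · intro hz
        by_contra hc
        rw [not_or] at hc
        have : z ∈ (σ.erase x).erase y := mem_erase.mpr ⟨hc.2, mem_erase.mpr ⟨hc.1, hz⟩⟩
        rw [h6] at this
        exact absurd this (notMem_empty _)
      · rintro (rfl | rfl)
        · exact hx
        · exact hy
    have h8 : ¬ G.Adj x y := fun h => h3 ⟨x, y, h, h7⟩
    have h9 : Af G b w x y = 0 := by
      unfold Af Wf
      rw [dif_neg h8, if_neg hxy]
      simp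
    rw [h9, zero_mul]
  · obtain ⟨z, hz⟩ := Finset.nonempty_iff_ne_empty.mpr h6
    have h7 : constantCoeff (q * ∏ v ∈ (σ.erase x).erase y, X v : MvPolynomial (Fin n) ℝ) = 0 := by
      rw [map_mul, map_prod, Finset.prod_eq_zero hz (by simp), mul_zero]
    rw [h7, mul_zero]

theorem Mf_lf (G : SimpleGraph (Fin n)) (b : Fin n → ℝ) (w : G.edgeSet → ℝ)
    (a : Fin n → ℝ) (ha : ∀ u, ∑ v, Af G b w u v * a v = 0) (q : MvPolynomial (Fin n) ℝ) :
    Mf G b w (q * lf a) = 0 := by
  rw [Mf_apply]
  have e0 : constantCoeff (lf a) = 0 := by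
    unfold lf
    simp
  have e1 : ∀ u : Fin n, pderiv u (lf a) = C (a u) := by
    intro u
    unfold lf
    rw [map_sum, Finset.sum_eq_single u]
    · rw [Derivation.leibniz]; simp
    · intro v _ hv
      rw [Derivation.leibniz, pderiv_X_of_ne hv]; simp
    · intro h; exact absurd (mem_univ _) h
  have e2 : ∀ u v : Fin n, constantCoeff (pderiv u (pderiv v (q * lf a))) =
      constantCoeff (pderiv u q) * a v + constantCoeff (pderiv v q) * a u := by
    intro u v
    simp only [Derivation.leibniz, smul_eq_mul, map_add, map_mul, e0, e1, pderiv_C,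
      constantCoeff_C, map_zero]
    ring
  simp only [e2, mul_add, sum_add_distrib]
  have e3 : ∑ u, ∑ v, Af G b w u v * (constantCoeff (pderiv u q) * a v) = 0 := by
    apply Finset.sum_eq_zero
    intro u _
    have : ∑ v, Af G b w u v * (constantCoeff (pderiv u q) * a v) =
        constantCoeff (pderiv u q) * ∑ v, Af G b w u v * a v := by
      rw [mul_sum]
      exact sum_congr rfl fun v _ => by ring
    rw [this, ha, mul_zero]
  have e4 : ∑ u, ∑ v, Af G b w u v * (constantCoeff (pderiv v q) * a u) = 0 := by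
    rw [sum_comm]
    apply Finset.sum_eq_zero
    intro v _
    have : ∑ u, Af G b w u v * (constantCoeff (pderiv v q) * a u) =
        constantCoeff (pderiv v q) * ∑ u, Af G b w v u * a u := by
      rw [mul_sum]
      exact sum_congr rfl fun u _ => by rw [Af_symm G b w u v]; ring
    rw [this, ha, mul_zero]
  rw [e3, e4]
  simp

theorem Mf_ideal (G : SimpleGraph (Fin n)) (b : Fin n → ℝ) (w : G.edgeSet → ℝ)
    (c : Fin (d + 1) → Fin n → ℝ) (ha : ∀ i u, ∑ v, Af G b w u v * c i v = 0)
    (x : MvPolynomial (Fin n) ℝ) (hx : x ∈ srI ℝ (graphCx G) ⊔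
      Ideal.span (Set.range (fun i : Fin (d + 1) => lf (fun v => c i v)))) :
    Mf G b w x = 0 := by
  have key : ∀ (T : Set (MvPolynomial (Fin n) ℝ)),
      (∀ t ∈ T, ∀ q, Mf G b w (q * t) = 0) → ∀ y ∈ Ideal.span T, ∀ q,
      Mf G b w (q * y) = 0 := by
    intro T hT y hy
    induction hy using Submodule.span_induction with
    | mem y hy => exact hT y hy
    | zero => intro q; simp
    | add y z _ _ h1 h2 => intro q; rw [mul_add, map_add, h1, h2, add_zero]
    | smul a y _ h1 => intro q; rw [smul_eq_mul, ← mul_assoc]; exact h1 _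
  obtain ⟨y, hy, z, hz, rfl⟩ := Submodule.mem_sup.mp hx
  have h1 : Mf G b w (1 * y) = 0 := by
    refine key _ ?_ y hy 1
    rintro t ⟨σ, hσ, rfl⟩ q
    exact Mf_sr G b w σ hσ q
  have h2 : Mf G b w (1 * z) = 0 := by
    refine key _ ?_ z hz 1
    rintro t ⟨i, rfl⟩ q
    exact Mf_lf G b w (fun v => c i v) (ha i) q
  rw [one_mul] at h1 h2
  rw [map_add, h1, h2, add_zero]

theorem stress_eq (G : SimpleGraph (Fin n)) (p : Fin n → Fin d → ℝ) (w : G.edgeSet → ℝ)
    (hw : Matrix.vecMul w (rigidityMatrix G p) = 0) (u : Fin n) (i : Fin d) :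
    ∑ v, Wf G w u v * (p u i - p v i) = 0 := by
  have h := congrFun hw (u, i)
  rw [Matrix.vecMul, dotProduct, Pi.zero_apply] at h
  rw [← h]
  have h1 : ∑ v : {v // G.Adj u v}, Wf G w u v * (p u i - p v i) =
      ∑ v, Wf G w u v * (p u i - p v i) := by
    refine Fintype.sum_of_injective (fun v : {v // G.Adj u v} => (v : Fin n))
      Subtype.val_injective _ _ ?_ (fun _ => rfl)
    intro v hv
    have : ¬ G.Adj u v := fun h' => hv ⟨⟨v, h'⟩, rfl⟩
    unfold Wf
    rw [dif_neg this, zero_mul]
  rw [← h1]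
  refine Fintype.sum_of_injective
    (fun v : {v // G.Adj u v} => (⟨s(u, (v : Fin n)), v.2⟩ : G.edgeSet)) ?_ _ _ ?_ ?_
  · intro v v' hv
    have := congrArg Subtype.val hv
    simp only [Sym2.eq_iff] at this
    rcases this with h2 | h2
    · exact Subtype.ext h2.2
    · exact Subtype.ext (h2.2.trans h2.1)
  · rintro ⟨e, he⟩ hr
    induction e using Sym2.ind with
    | _ a b' =>
      have hab : G.Adj a b' := he
      have ha : u ≠ a := by
        rintro rfl
        exact hr ⟨⟨b', hab⟩, rfl⟩
      have hb : u ≠ b' := by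
        rintro rfl
        exact hr ⟨⟨a, hab.symm⟩, Subtype.ext Sym2.eq_swap⟩
      have : rigidityMatrix G p ⟨s(a, b'), he⟩ (u, i) = 0 := by
        unfold rigidityMatrix
        simp only [Sym2.lift_mk]
        unfold row
        simp [ha, hb]
      rw [this, mul_zero]
  · rintro ⟨v, hv⟩
    have h2 : rigidityMatrix G p ⟨s(u, v), hv⟩ (u, i) = p u i - p v i := by
      unfold rigidityMatrix
      simp only [Sym2.lift_mk]
      unfold row
      simp
    show Wf G w u v * (p u i - p v i) = w ⟨s(u, v), hv⟩ * rigidityMatrix G p ⟨s(u, v), hv⟩ (u, i)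
    rw [h2]
    unfold Wf
    rw [dif_pos hv]

theorem Af_zero (G : SimpleGraph (Fin n)) (b : Fin n → ℝ) (hb : ∀ v, b v ≠ 0)
    (w : G.edgeSet → ℝ) (u : Fin n) :
    ∑ v, Af G b w u v * b v = 0 := by
  have h : ∀ v, Af G b w u v * b v =
      (1 / b u) * Wf G w u v - (if u = v then (∑ x, Wf G w u x) / (b u) else 0) := by
    intro v
    unfold Af
    by_cases hv : u = v
    · subst hv
      rw [if_pos rfl, if_pos rfl]
      field_simp [hb u]
    · rw [if_neg hv, if_neg hv]
      field_simp [hb u, hb v]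
      ring
  simp only [h, sum_sub_distrib, ← mul_sum, sum_ite_eq, mem_univ, if_true]
  ring

theorem Af_succ (G : SimpleGraph (Fin n)) (b : Fin n → ℝ) (hb : ∀ v, b v ≠ 0)
    (p : Fin n → ℝ) (w : G.edgeSet → ℝ) (u : Fin n)
    (hw : ∑ v, Wf G w u v * (p u - p v) = 0) :
    ∑ v, Af G b w u v * (p v * b v) = 0 := by
  have h : ∀ v, Af G b w u v * (p v * b v) =
      (1 / b u) * (Wf G w u v * p v) -
        (if u = v then (∑ x, Wf G w u x) * p u / (b u) else 0) := by
    intro v
    unfold Af
    by_cases hv : u = v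
    · subst hv
      rw [if_pos rfl, if_pos rfl]
      field_simp [hb u]
    · rw [if_neg hv, if_neg hv]
      field_simp [hb u, hb v]
      ring
  simp only [h, sum_sub_distrib, ← mul_sum, sum_ite_eq, mem_univ, if_true]
  have h2 : ∑ v, Wf G w u v * p v = (∑ v, Wf G w u v) * p u := by
    have h3 : ∑ v, Wf G w u v * (p u - p v) =
        (∑ v, Wf G w u v) * p u - ∑ v, Wf G w u v * p v := by
      rw [sum_mul, ← sum_sub_distrib]
      exact sum_congr rfl fun v _ => by ring
    rw [hw] at h3
    linarith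
  rw [h2]
  ring

theorem rank_le (G : SimpleGraph (Fin n)) (p : Fin n → Fin d → ℝ) :
    (rigidityMatrix G p).rank ≤ genRank d G := by
  unfold genRank
  apply le_csSup
  · refine ⟨Fintype.card (Fin n × Fin d), ?_⟩
    rintro _ ⟨p', rfl⟩
    exact Matrix.rank_le_card_width _
  · exact ⟨p, rfl⟩

end PSStress

theorem sStress : SStress := by
  classical
  intro n d G c hc
  set b : Fin n → ℝ := fun v => c (0, v) with hb
  set p : Fin n → Fin d → ℝ := fun v i => c (i.succ, v) / c (0, v) with hp
  set J : Ideal (MvPolynomial (Fin n) ℝ) := srI ℝ (graphCx G) ⊔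
    Ideal.span (Set.range (fun i : Fin (d + 1) => lf (fun v => c (i, v)))) with hJ
  have hrank := PSStress.rank_le G p
  set S : Submodule ℝ (G.edgeSet → ℝ) :=
    LinearMap.ker (Matrix.transpose (rigidityMatrix G p)).mulVecLin with hS
  have h1 := LinearMap.finrank_range_add_finrank_ker
    (Matrix.transpose (rigidityMatrix G p)).mulVecLin
  have h2 : Module.finrank ℝ (LinearMap.range
      (Matrix.transpose (rigidityMatrix G p)).mulVecLin) = (rigidityMatrix G p).rank := by
    rw [← Matrix.rank_transpose]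
    rfl
  have h3 : Module.finrank ℝ (G.edgeSet → ℝ) = G.edgeSet.ncard := by
    rw [Module.finrank_fintype_fun_eq_card, ← Nat.card_eq_fintype_card]
    rfl
  rw [h2, h3, ← hS] at h1
  -- the vanishing on the ideal
  have hvan : ∀ w ∈ S, ∀ x ∈ J, PSStress.Mf G b w x = 0 := by
    intro w hw x hx
    have hw' : Matrix.vecMul w (rigidityMatrix G p) = 0 := by
      rw [← Matrix.mulVec_transpose]
      exact hw
    refine PSStress.Mf_ideal G b w (fun i v => c (i, v)) ?_ x hx
    intro i u
    refine Fin.cases ?_ ?_ i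
    · exact PSStress.Af_zero G b hc w u
    · intro i
      have h4 := PSStress.Af_succ G b hc (fun v => p v i) w u
        (PSStress.stress_eq G p w hw' u i)
      have h5 : ∀ v, p v i * b v = c (i.succ, v) := by
        intro v
        exact div_mul_cancel₀ _ (hc v)
      simp only [h5] at h4
      exact h4
  -- the quotient
  set H : Submodule ℝ (MvPolynomial (Fin n) ℝ) := homogeneousSubmodule (Fin n) ℝ 2 with hH
  have hHfin : Module.Finite ℝ H := Module.Finite.iff_fg.mpr (homogeneousSubmodule_fg _ _ 2)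
  set π : MvPolynomial (Fin n) ℝ →ₗ[ℝ] (MvPolynomial (Fin n) ℝ ⧸ J) :=
    (Ideal.Quotient.mkₐ ℝ J).toLinearMap with hπ
  have hdim : dimQ J 2 = Module.finrank ℝ (Submodule.map π H) := rfl
  have : Module.Finite ℝ (Submodule.map π H) := Module.Finite.map H π
  let f : H →ₗ[ℝ] (Submodule.map π H) := π.submoduleMap H
  have hf : Function.Surjective f := LinearMap.submoduleMap_surjective _ _
  obtain ⟨s, hs⟩ := LinearMap.exists_rightInverse_of_surjective f (LinearMap.range_eq_top.mpr hf)
  have hs' : ∀ y, f (s y) = y := fun y => by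
    have := LinearMap.congr_fun hs y
    exact this
  let Φ : S →ₗ[ℝ] Module.Dual ℝ (Submodule.map π H) :=
    (LinearMap.lcomp ℝ ℝ (H.subtype ∘ₗ s)) ∘ₗ (PSStress.Mf G b) ∘ₗ S.subtype
  have hΦ : ∀ (w : S) (y : Submodule.map π H),
      Φ w y = PSStress.Mf G b w ((s y : H) : MvPolynomial (Fin n) ℝ) := fun w y => rfl
  have hinj : Function.Injective Φ := by
    rw [← LinearMap.ker_eq_bot, LinearMap.ker_eq_bot']
    intro w hw
    have h4 : ∀ h : H, PSStress.Mf G b w (h : MvPolynomial (Fin n) ℝ) = 0 := by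
      intro h
      have h5 := hΦ w (f h)
      rw [hw] at h5
      have h6 : (h : MvPolynomial (Fin n) ℝ) - ((s (f h) : H) : MvPolynomial (Fin n) ℝ) ∈ J := by
        have h7 : f h = f (s (f h)) := (hs' (f h)).symm
        have h8 : π (h : MvPolynomial (Fin n) ℝ) = π ((s (f h) : H) : MvPolynomial (Fin n) ℝ) :=
          congrArg Subtype.val h7
        exact Ideal.Quotient.eq.mp h8
      have h7 := hvan w w.2 _ h6
      rw [map_sub, ← h5] at h7
      simpa using h7
    apply Subtype.ext
    funext e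
    obtain ⟨e, he⟩ := e
    induction e using Sym2.ind with
    | _ u v =>
      have huv : G.Adj u v := he
      have h5 : (X u * X v : MvPolynomial (Fin n) ℝ) ∈ H := by
        rw [hH, mem_homogeneousSubmodule]
        exact (isHomogeneous_X ℝ u).mul (isHomogeneous_X ℝ v)
      have h6 := h4 ⟨_, h5⟩
      have h7 := PSStress.Mf_XX G b w u v 1
      rw [mul_one, map_one, mul_one] at h7
      rw [show ((⟨X u * X v, h5⟩ : H) : MvPolynomial (Fin n) ℝ) = X u * X v from rfl, h7] at h6
      unfold PSStress.Af at h6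
      rw [if_neg huv.ne, sub_zero, div_eq_zero_iff] at h6
      rcases h6 with h6 | h6
      · unfold PSStress.Wf at h6
        rw [dif_pos huv] at h6
        exact h6
      · exact absurd h6 (mul_ne_zero (hc u) (hc v))
  have h4 := LinearMap.finrank_le_finrank_of_injective hinj
  rw [Subspace.dual_finrank_eq, ← hdim] at h4
  omega

end Pool.Agent.H29.HK
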