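import Pool.Agent.H29.HK.Final1
import Pool.Agent.H29.HK.P_SStress
import Pool.Agent.H29.HK.P_SRigid

/-!
# Rigidity
-/

set_option autoImplicit false

namespace Pool.Agent.H29.HK

open Finset MvPolynomial Pool.Agent.W555.KS Pool.Agent.H789R5 Pool.Agent.H283R2.DR

theorem rigid' : SRigid := sRigid sStress ring' (sSpecDim sRank)

end Pool.Agent.H29.HK
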