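import Pool.Agent.H29.HK.Defs5

set_option autoImplicit false

namespace Pool.Agent.H29.HK

open Finset MvPolynomial Pool.Agent.W555.KS

namespace PSPFan

open Pool.Agent.Helper133.BU Pool.Agent.W357.KS.Fan

variable {n : ℕ}

/-- the space, as a union of cells -/
def XD (D : Finset (Finset (Fin n) × Finset (Fin n))) : Set (Fin n → ℝ) :=
  {x | ∃ p ∈ D, Disjoint p.1 p.2 ∧ x ∈ Cst p.1 p.2}

/-- the cells -/
def CD (D : Finset (Finset (Fin n) × Finset (Fin n))) : Set (Set (Fin n → ℝ)) :=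
  {A | ∃ p ∈ D, Disjoint p.1 p.2 ∧ A = Cst p.1 p.2}

/-- lists of signed faces -/
def PD (D : Finset (Finset (Fin n) × Finset (Fin n))) (q : ℕ) (l : List (Fin n → ℝ)) : Prop :=
  ∃ U σ : Finset (Fin n), σ ⊆ U ∧ (σ, U \ σ) ∈ D ∧ U.card = q ∧ l = lst U σ

theorem XD_sub {D : Finset (Finset (Fin n) × Finset (Fin n))} {x : Fin n → ℝ} (hx : x ∈ XD D) :
    x ∈ Pool.Agent.W357.KS.Fan.X (univ : Finset (Finset (Fin n))) := by
  obtain ⟨p, -, h, hx⟩ := hx
  exact ⟨p.1, mem_univ _, p.2, mem_univ _, h, hx⟩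

theorem CD_sub_XD {D : Finset (Finset (Fin n) × Finset (Fin n))} {A : Set (Fin n → ℝ)}
    (hA : A ∈ CD D) : A ⊆ XD D := by
  obtain ⟨p, hp, h, rfl⟩ := hA
  exact fun x hx => ⟨p, hp, h, hx⟩

theorem CD_convex (D : Finset (Finset (Fin n) × Finset (Fin n))) : ∀ A ∈ CD D, Convex ℝ A := by
  rintro A ⟨p, -, -, rfl⟩
  exact Cst_convex p.1 p.2

theorem PD_P {D : Finset (Finset (Fin n) × Finset (Fin n))} {q : ℕ} {l : List (Fin n → ℝ)}
    (h : PD D q l) : P (univ : Finset (Finset (Fin n))) q l := by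
  obtain ⟨U, σ, h1, -, h3, h4⟩ := h
  exact ⟨U, σ, h1, mem_univ _, mem_univ _, h3, h4⟩

theorem bd_PD {D : Finset (Finset (Fin n) × Finset (Fin n))} (hD : IsPC D) {q : ℕ}
    {c : Chain (Fin n → ℝ)} (hc : c ∈ S (PD D (q + 1))) : bd c ∈ S (PD D q) := by
  refine lin_mem bd (fun l hl => ?_) hc
  obtain ⟨U, σ, h1, h2, h4, rfl⟩ := hl
  rw [bd_single, one_smul, bdL_lst]
  refine Submodule.sum_mem _ fun v hv => single_mem_S ⟨U.erase v, σ.erase v,
    erase_subset_erase v h1, hD.2.2 _ h2 _ (erase_subset v σ) _ ?_,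
    by rw [card_erase_of_mem hv, h4]; rfl, rfl⟩ 1
  intro w hw
  simp only [mem_sdiff, mem_erase, not_and] at hw ⊢
  exact ⟨hw.1.2, hw.2 hw.1.1⟩

theorem PD_good {D : Finset (Finset (Fin n) × Finset (Fin n))} {q : ℕ} {l : List (Fin n → ℝ)}
    (hl : PD D q l) : ∃ A ∈ CD D, Good q 2 A l := by
  obtain ⟨U, σ, h1, h2, h4, rfl⟩ := hl
  have hC : Cst σ (U \ σ) ∈ CD D := ⟨(σ, U \ σ), h2, disjoint_sdiff, rfl⟩
  have hmem : ∀ u ∈ lst U σ, u ∈ Cst σ (U \ σ) := by
    intro u hu
    unfold lst at hu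
    rw [List.mem_map] at hu
    obtain ⟨v, hv, rfl⟩ := hu
    rw [mem_sort] at hv
    exact pt_mem hv
  refine ⟨_, hC, by rw [lst, List.length_map, length_sort, h4], hmem, ?_⟩
  intro u hu v hv
  have e1 := X_norm_le (XD_sub (CD_sub_XD hC (hmem u hu)))
  have e2 := X_norm_le (XD_sub (CD_sub_XD hC (hmem v hv)))
  calc ‖u - v‖ ≤ ‖u‖ + ‖v‖ := norm_sub_le _ _
    _ ≤ 2 := by linarith

theorem iter_memD {D : Finset (Finset (Fin n) × Finset (Fin n))} {q : ℕ} {c : Chain (Fin n → ℝ)}
    (hc : c ∈ S (PD D q)) (r : ℕ) :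
    (sub q)^[r] c ∈ S (fun l => ∃ A ∈ CD D, Good q (((q : ℝ) / (q + 1)) ^ r * 2) A l) :=
  sub_iter_good' q r 2 (by norm_num) (CD D) (CD_convex D) c (S_mono (fun _ hl => PD_good hl) hc)

/-- admissible labels -/
structure AdmD (D : Finset (Finset (Fin n) × Finset (Fin n))) (a : (Fin n → ℝ) → ℕ)
    (s : (Fin n → ℝ) → ZMod 2) : Prop where
  ha : ∀ x, a (-x) = a x
  hs : ∀ x ∈ XD D, s (-x) = s x + 1

theorem stepD {D : Finset (Finset (Fin n) × Finset (Fin n))} {q : ℕ} {c : Chain (Fin n → ℝ)}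
    (hc : c ∈ S (PD D (q + 1))) (r : ℕ) {a : (Fin n → ℝ) → ℕ} {s : (Fin n → ℝ) → ZMod 2}
    (h : AdmD D a s) :
    alc s (sortC a ((sub (q + 1))^[r] (c + nu c))) = alc s (sortC a ((sub q)^[r] (bd c))) := by
  have hm : (sub (q + 1))^[r] c ∈ S (fun l => ∀ v ∈ l, s (-v) = s v + 1) := by
    refine S_mono ?_ (iter_memD hc r)
    rintro l ⟨A, hA, -, hl, -⟩ v hv
    exact h.hs v (CD_sub_XD hA (hl v hv))
  rw [add_iter, ← nu_iter, map_add, sortC_nu a h.ha, alc_nu s (sortC_mem a hm), ← alc_bd, bd_sortC,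
    bd_iter]

theorem splitD {D : Finset (Finset (Fin n) × Finset (Fin n))} {q : ℕ} {z : Chain (Fin n → ℝ)}
    (hz : z ∈ S (PD D (q + 1))) (hnu : nu z = z) :
    ∃ c ∈ S (PD D (q + 1)), z = c + nu c := by
  classical
  refine ⟨z.filter hd, ?_, ?_⟩
  · refine (Finsupp.mem_supported _ _).mpr ?_
    refine Set.Subset.trans ?_ ((Finsupp.mem_supported _ _).mp hz)
    intro l hl
    rw [Finset.mem_coe, Finsupp.support_filter, Finset.mem_filter] at hl
    exact hl.1
  · ext l
    rw [Finsupp.add_apply, nu_apply, Finsupp.filter_apply, Finsupp.filter_apply]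
    have e : z (l.map (fun v => -v)) = z l := by rw [← nu_apply, hnu]
    rw [e]
    by_cases h0 : z l = 0
    · simp [h0]
    · have := hd_neg (PD_P (S_apply hz h0))
      by_cases h1 : hd l
      · have h2 : ¬ hd (l.map (fun v => -v)) := fun h => (this.mp h) h1
        simp [h1, h2]
      · have h2 : hd (l.map (fun v => -v)) := this.mpr h1
        simp [h1, h2]

theorem claimD {D : Finset (Finset (Fin n) × Finset (Fin n))} (hD : IsPC D) (q : ℕ) :
    ∀ z : Chain (Fin n → ℝ), z ∈ S (PD D q) → nu z = z → bd z = 0 →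
    ∀ (r r' : ℕ) (a a' : (Fin n → ℝ) → ℕ) (s s' : (Fin n → ℝ) → ZMod 2),
      AdmD D a s → AdmD D a' s' →
      alc s (sortC a ((sub q)^[r] z)) = alc s' (sortC a' ((sub q)^[r'] z)) := by
  induction q with
  | zero =>
    intro z hz _ _ r r' a a' s s' _ _
    have h0 : ∀ (r : ℕ) (c : Chain (Fin n → ℝ)), (sub 0)^[r] c = c := by
      intro r c
      induction r with
      | zero => rfl
      | succ r ih => rw [Function.iterate_succ_apply', ih]; rfl
    rw [h0, h0]
    refine sub_eq_zero.mp (lin_eq_zero ((alc s).comp (sortC a) - (alc s').comp (sortC a')) ?_ hz)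
    rintro l ⟨U, σ, h1, h2, h4, rfl⟩
    have hU : U = ∅ := card_eq_zero.mp h4
    subst hU
    have : lst ∅ σ = [] := by unfold lst; simp
    rw [this]
    simp [LinearMap.sub_apply, sortC_single, alc_single, al]
  | succ q ih =>
    intro z hz hnu hbd r r' a a' s s' h h'
    obtain ⟨c, hc, rfl⟩ := splitD hz hnu
    rw [stepD hc r h, stepD hc r' h']
    have e : bd (nu c) = bd c := by
      rw [map_add] at hbd
      calc bd (nu c) = (bd c + bd c) + bd (nu c) := by rw [add_self, zero_add]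
        _ = bd c + (bd c + bd (nu c)) := by abel
        _ = bd c := by rw [hbd, add_zero]
    refine ih (bd c) (bd_PD hD hc) ?_ (bd_bd c) r r' a a' s s' h h'
    rw [nu_bd, e]

theorem zz_memD {D : Finset (Finset (Fin n) × Finset (Fin n))} {m : ℕ}
    {Z : Finset (Fin n) → Finset (Fin n) → ZMod 2}
    (hZ : ∀ σ τ, Z σ τ ≠ 0 → (σ, τ) ∈ D) : zz m Z ∈ S (PD D m) := by
  refine Submodule.sum_mem _ fun U hU => Submodule.sum_mem _ fun σ hσ => ?_
  by_cases h : Z σ (U \ σ) = 0
  · rw [h, Finsupp.single_zero]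
    exact Submodule.zero_mem _
  · exact single_mem_S ⟨U, σ, mem_powerset.mp hσ, hZ _ _ h, (mem_powersetCard.mp hU).2, rfl⟩ _

theorem admD0 (D : Finset (Finset (Fin n) × Finset (Fin n))) : AdmD D (a0 (n := n)) s0 :=
  ⟨(adm0 (univ : Finset (Finset (Fin n)))).ha,
    fun x hx => (adm0 (univ : Finset (Finset (Fin n)))).hs x (XD_sub hx)⟩

theorem XD_compact (D : Finset (Finset (Fin n) × Finset (Fin n))) : IsCompact (XD D) := by
  have e : XD D = ⋃ p ∈ D.filter (fun p => Disjoint p.1 p.2), Cst p.1 p.2 := by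
    ext x
    simp only [XD, Set.mem_ofPred_eq, Set.mem_iUnion, mem_filter]
    constructor
    · rintro ⟨p, hp, h, hx⟩
      exact ⟨p, ⟨hp, h⟩, hx⟩
    · rintro ⟨p, ⟨hp, h⟩, hx⟩
      exact ⟨p, hp, h, hx⟩
  apply Metric.isCompact_of_isClosed_isBounded
  · rw [e]
    exact isClosed_biUnion_finset fun p _ => Cst_closed p.1 p.2
  · rw [isBounded_iff_forall_norm_le]
    exact ⟨1, fun x hx => X_norm_le (XD_sub hx)⟩

theorem keyD {D : Finset (Finset (Fin n) × Finset (Fin n))} {m : ℕ}
    (f : (Fin n → ℝ) → (Fin (m + 1) → ℝ))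
    (hfc : ContinuousOn f (XD D)) (hodd : ∀ x, f (-x) = -f x) (hcon : ∀ x ∈ XD D, f x ≠ 0)
    (z : Chain (Fin n → ℝ)) (hz : z ∈ S (PD D (m + 2))) :
    ∃ (r : ℕ) (a : (Fin n → ℝ) → ℕ) (s : (Fin n → ℝ) → ZMod 2), AdmD D a s ∧
      alc s (sortC a ((sub (m + 2))^[r] z)) = 0 := by
  obtain ⟨c, hc, hmin⟩ : ∃ c : ℝ, 0 < c ∧ ∀ x ∈ XD D, c ≤ ‖f x‖ := by
    by_cases hne : (XD D).Nonempty
    · obtain ⟨x₀, hx₀, hmin⟩ := (XD_compact D).exists_isMinOn hne hfc.norm
      exact ⟨‖f x₀‖, norm_pos_iff.mpr (hcon x₀ hx₀), fun x hx => hmin hx⟩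
    · exact ⟨1, one_pos, fun x hx => absurd ⟨x, hx⟩ hne⟩
  have huc := (XD_compact D).uniformContinuousOn_of_continuous hfc
  rw [Metric.uniformContinuousOn_iff] at huc
  obtain ⟨δ, hδ, hδ'⟩ := huc c hc
  have hq : (((m + 2 : ℕ) : ℝ) / ((m + 2 : ℕ) + 1)) < 1 := by
    rw [div_lt_one (by positivity)]
    linarith
  obtain ⟨r, hr⟩ := exists_pow_lt_of_lt_one (show 0 < δ / 2 by positivity) hq
  let a : (Fin n → ℝ) → ℕ := fun x => (arg (fun i => |f x i|) : Fin (m + 1))
  let s : (Fin n → ℝ) → ZMod 2 :=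
    fun x => if 0 < f x (arg (fun i => |f x i|)) then 1 else 0
  have habs : ∀ x, (fun i => |f (-x) i|) = fun i => |f x i| := by
    intro x; funext i; rw [hodd, Pi.neg_apply, abs_neg]
  have ha : ∀ x, a (-x) = a x := by
    intro x
    simp only [a, habs]
  have hnorm : ∀ x, ‖f x‖ = |f x (arg (fun i => |f x i|))| := by
    intro x
    apply le_antisymm
    · rw [pi_norm_le_iff_of_nonneg (abs_nonneg _)]
      intro i
      exact arg_spec (fun i => |f x i|) i
    · exact norm_le_pi_norm (f x) _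
  have hs : ∀ x ∈ XD D, s (-x) = s x + 1 := by
    intro x hx
    have h1 := hnorm x
    have h2 : f x (arg (fun i => |f x i|)) ≠ 0 := by
      intro h
      rw [h, abs_zero] at h1
      exact hcon x hx (norm_eq_zero.mp h1)
    simp only [s, habs]
    rw [hodd, Pi.neg_apply]
    rcases lt_or_gt_of_ne h2 with h | h
    · have h3 : ¬ 0 < f x (arg (fun i => |f x i|)) := not_lt.mpr h.le
      have h4 : 0 < -f x (arg (fun i => |f x i|)) := by linarith
      simp [h3, h4]
    · have h3 : ¬ 0 < -f x (arg (fun i => |f x i|)) := by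
        rw [not_lt]; linarith
      simp only [h, h3, if_true, if_false]
      exact (z2_add_self 1).symm
  have hcompl : ∀ x ∈ XD D, ∀ y ∈ XD D, dist x y < δ → a x = a y → s x = s y := by
    intro x hx y hy hxy hax
    have hd := hδ' x hx y hy hxy
    have hax' : arg (fun i => |f x i|) = arg (fun i => |f y i|) := Fin.ext hax
    simp only [s]
    rw [← hax']
    have h1 := hnorm x
    have h2 := hnorm y
    rw [← hax'] at h2
    have h3 := hmin x hx
    have h4 := hmin y hy
    have h5 : |f x (arg (fun i => |f x i|)) - f y (arg (fun i => |f x i|))| < c := by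
      rw [dist_eq_norm] at hd
      exact lt_of_le_of_lt (norm_le_pi_norm (f x - f y) _) hd
    set p := f x (arg (fun i => |f x i|))
    set q := f y (arg (fun i => |f x i|))
    have h6 : c ≤ |p| := by rw [← h1]; exact h3
    have h7 : c ≤ |q| := by rw [← h2]; exact h4
    rw [abs_lt] at h5
    rcases le_abs'.mp h6 with h8 | h8 <;> rcases le_abs'.mp h7 with h9 | h9
    · have e1 : ¬ 0 < p := by linarith
      have e2 : ¬ 0 < q := by linarith
      simp [e1, e2]
    · exfalso; linarith [h5.1]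
    · exfalso; linarith [h5.2]
    · have e1 : 0 < p := by linarith
      have e2 : 0 < q := by linarith
      simp [e1, e2]
  refine ⟨r, a, s, ⟨ha, hs⟩, ?_⟩
  refine lin_eq_zero ((alc s).comp (sortC a)) ?_ (iter_memD hz r)
  rintro l ⟨A, hA, hlen, hl, hD⟩
  rw [LinearMap.comp_apply, sortC_single, alc_single, one_mul]
  have hlX : ∀ v ∈ l, v ∈ XD D := fun v hv => CD_sub_XD hA (hl v hv)
  have hst : Std.Total (fun x y : Fin n → ℝ => a x ≤ a y) :=
    ⟨fun x y => le_total (a x) (a y)⟩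
  have htr : IsTrans (Fin n → ℝ) (fun x y => a x ≤ a y) := ⟨fun x y z => le_trans⟩
  have hW : W s (l.insertionSort (fun x y => a x ≤ a y)) = 0 := by
    refine W_zero (m + 1) a s _ ?_ ?_ ?_ (List.pairwise_insertionSort _ l)
    · rw [List.length_insertionSort, hlen]; omega
    · intro v _
      exact (arg (fun i => |f v i|)).2
    · intro u hu v hv
      rw [List.mem_insertionSort] at hu hv
      refine hcompl u (hlX u hu) v (hlX v hv) ?_
      rw [dist_eq_norm]
      refine lt_of_le_of_lt (hD u hu v hv) ?_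
      linarith
  have hlen2 : (l.insertionSort (fun x y => a x ≤ a y)).length = m + 2 := by
    rw [List.length_insertionSort, hlen]
  revert hW hlen2
  generalize l.insertionSort (fun x y => a x ≤ a y) = l'
  intro hW hlen2
  cases l' with
  | nil => simp at hlen2
  | cons x t =>
    simp only [al]
    rw [hW, mul_zero]

theorem PX_eq {D : Finset (Finset (Fin n) × Finset (Fin n))} (hD : IsPC D) : PX D = XD D := by
  ext x
  constructor
  · rintro ⟨h1, h2⟩
    refine ⟨_, h2, ?_, ?_, ?_, ?_⟩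
    · simp only
      rw [disjoint_left]
      intro i hi hi'
      rw [mem_filter] at hi hi'
      exact lt_asymm hi.2 hi'.2
    · intro i hi
      simp only at hi
      rw [mem_filter] at hi
      push Not at hi
      exact hi (mem_univ i)
    · intro i hi
      simp only at hi
      rw [mem_filter] at hi
      push Not at hi
      exact hi (mem_univ i)
    · rw [← h1]
      refine sum_congr rfl fun i _ => ?_
      simp only
      by_cases hi : x i < 0
      · rw [if_pos (mem_filter.2 ⟨mem_univ i, hi⟩), abs_of_neg hi]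
      · have h' : i ∉ univ.filter (fun i => x i < 0) := fun h => hi (mem_filter.1 h).2
        rw [if_neg h', abs_of_nonneg (not_lt.1 hi)]
  · rintro ⟨p, hp, hd, hx⟩
    refine ⟨Cst_abs hd hx, hD.2.2 p hp _ ?_ _ ?_⟩
    · intro i hi
      rw [mem_filter] at hi
      by_contra h
      exact absurd hi.2 (not_lt.2 (hx.1 i h))
    · intro i hi
      rw [mem_filter] at hi
      by_contra h
      exact absurd hi.2 (not_lt.2 (hx.2.1 i h))

theorem XD_neg {D : Finset (Finset (Fin n) × Finset (Fin n))} (hD : IsPC D) {x : Fin n → ℝ}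
    (hx : x ∈ XD D) : -x ∈ XD D := by
  rw [← PX_eq hD] at hx ⊢
  obtain ⟨h1, h2⟩ := hx
  have h3 := hD.2.1 _ h2
  refine ⟨by simpa using h1, ?_⟩
  simpa using h3

end PSPFan

open PSPFan Pool.Agent.Helper133.BU Pool.Agent.W357.KS.Fan in
theorem sPFan : SPFan := by
  intro n d D hD hE Z h1 h2 h3
  obtain ⟨f, hf, hf'⟩ := hE
  rw [PX_eq hD] at hf hf'
  cases d with
  | zero =>
    refine Finset.sum_eq_zero fun U hU => ?_
    by_contra hne
    rw [mem_powersetCard] at hU
    obtain ⟨v, rfl⟩ := card_eq_one.mp hU.2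
    have hv := h2 _ _ hne
    have he : evenPart {v} = ({v} : Finset (Fin n)) := by
      ext w
      simp only [evenPart, mem_filter, mem_singleton]
      constructor
      · exact fun h => h.1
      · rintro rfl
        refine ⟨rfl, ?_⟩
        have : ({w} : Finset (Fin n)).filter (fun u => u < w) = ∅ := by
          ext u
          simp only [mem_filter, mem_singleton, notMem_empty, iff_false, not_and]
          rintro rfl
          exact lt_irrefl _
        rw [this]; simp
    rw [he] at hv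
    have hv2 : (({v} : Finset (Fin n)), (∅ : Finset (Fin n))) ∈ D :=
      hD.2.2 _ hv _ (Finset.Subset.refl _) _ (Finset.empty_subset _)
    have hmem : pt ({v} : Finset (Fin n)) v ∈ XD D := by
      refine ⟨({v}, ∅), hv2, disjoint_empty_right _, ?_⟩
      have := pt_mem (σ := ({v} : Finset (Fin n))) (mem_singleton_self v)
      rwa [sdiff_self] at this
    exact (hf' _ hmem).2 (Subsingleton.elim _ _)
  | succ m =>
    have hz := zz_memD (m := m + 2) h2
    obtain ⟨r, a, s, hadm, h0⟩ := keyD (fun x => f x - f (-x)) (by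
      refine hf.sub (hf.comp continuous_neg.continuousOn ?_)
      intro x hx
      exact XD_neg hD hx) (by
      intro x
      simp only [neg_neg]
      abel) (by
      intro x hx h
      have e := hf' x hx
      rw [e.1, sub_neg_eq_add] at h
      apply e.2
      funext i
      have := congrFun h i
      simp only [Pi.add_apply, Pi.zero_apply] at this ⊢
      linarith) _ hz
    have := claimD hD (m + 2) _ hz (zz_nu h1) (zz_bd h3) 0 r a0 a s0 s (admD0 D) hadm
    rw [h0, Function.iterate_zero_apply, eval0] at this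
    exact this

end Pool.Agent.H29.HK
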