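import Pool.Agent.H29.HK.Defs5
import Pool.Graph.R_seed8.W975.KS.EmbR

set_option autoImplicit false

namespace Pool.Agent.H29.HK

open Finset MvPolynomial Pool.Agent.W555.KS

namespace PSPOdd

open Filter Topology Pool.Agent.W289.KS

variable {n r : ℕ}

/-- the positive part -/
def pp (x : Fin n → ℝ) : Fin n → ℝ := fun i => max (x i) 0

theorem pp_cont : Continuous (pp : (Fin n → ℝ) → (Fin n → ℝ)) :=
  continuous_pi fun i => (continuous_apply i).max continuous_const

theorem pp_nonneg (x : Fin n → ℝ) (i : Fin n) : 0 ≤ pp x i := le_max_right _ _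

theorem pp_add (x : Fin n → ℝ) (i : Fin n) : pp x i + pp (-x) i = |x i| := by
  unfold pp
  rw [Pi.neg_apply]
  rcases le_total 0 (x i) with h | h
  · rw [max_eq_left h, max_eq_right (by linarith), abs_of_nonneg h, add_zero]
  · rw [max_eq_right h, max_eq_left (by linarith), abs_of_nonpos h, zero_add]

theorem pp_zero {x : Fin n → ℝ} {i : Fin n} (h : i ∉ univ.filter (fun i => 0 < x i)) :
    pp x i = 0 := by
  apply max_eq_right
  rw [mem_filter] at h
  push Not at h
  exact h (mem_univ i)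

theorem pn_zero {x : Fin n → ℝ} {i : Fin n} (h : i ∉ univ.filter (fun i => x i < 0)) :
    pp (-x) i = 0 := by
  apply max_eq_right
  rw [mem_filter] at h
  push Not at h
  have := h (mem_univ i)
  rw [Pi.neg_apply]
  linarith

/-- the cone over the map -/
noncomputable def F (f : (Fin n → ℝ) → (Fin r → ℝ)) (x : Fin n → ℝ) : Fin (r + 1) → ℝ :=
  Fin.cons (tot x) (fun j => tot x * f (rad x) j)

theorem F_zero (f : (Fin n → ℝ) → (Fin r → ℝ)) (x : Fin n → ℝ) : F f x 0 = tot x := rfl

theorem F_succ (f : (Fin n → ℝ) → (Fin r → ℝ)) (x : Fin n → ℝ) (j : Fin r) :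
    F f x j.succ = tot x * f (rad x) j := rfl

theorem F_cont {K : Finset (Finset (Fin n))} {f : (Fin n → ℝ) → (Fin r → ℝ)}
    (hf : ContinuousOn f (rea K)) : ContinuousOn (F f) (coneSet K) := by
  rw [continuousOn_pi]
  intro j
  refine Fin.cases ?_ (fun j => ?_) j
  · exact tot_cont.continuousOn
  · have hc : ContinuousOn (fun y => f y j) (rea K) := fun y hy =>
      (continuous_apply j).continuousAt.comp_continuousWithinAt (hf y hy)
    obtain ⟨B, hB⟩ := (Pool.Agent.W975.KS.rl_compact K).exists_bound_of_continuousOn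
      (f := fun y => f y j) hc
    intro x hx
    change ContinuousWithinAt (fun y => tot y * f (rad y) j) (coneSet K) x
    rcases (tot_nonneg hx.1).eq_or_lt with h0 | h0
    · have hbd : ∀ y ∈ coneSet K, ‖tot y * f (rad y) j‖ ≤ |B| * tot y := by
        intro y hy
        rcases (tot_nonneg hy.1).eq_or_lt with hy0 | hy0
        · rw [← hy0]; simp
        · rw [norm_mul, Real.norm_of_nonneg hy0.le, mul_comm]
          exact mul_le_mul_of_nonneg_right ((hB _ (rad_mem hy hy0.ne')).trans (le_abs_self B))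
            hy0.le
      have h3 : Tendsto (fun y => |B| * tot y) (𝓝[coneSet K] x) (𝓝 0) := by
        have h4 : Tendsto (fun y : Fin n → ℝ => |B| * tot y) (𝓝 x) (𝓝 (|B| * tot x)) :=
          (continuous_const.mul tot_cont).continuousAt
        rw [← h0, mul_zero] at h4
        exact h4.mono_left nhdsWithin_le_nhds
      have h5 : Tendsto (fun y => tot y * f (rad y) j) (𝓝[coneSet K] x) (𝓝 0) :=
        squeeze_zero_norm' (eventually_nhdsWithin_of_forall hbd) h3
      have h6 : tot x * f (rad x) j = 0 := by rw [← h0, zero_mul]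
      change Tendsto (fun y => tot y * f (rad y) j) (𝓝[coneSet K] x) (𝓝 (tot x * f (rad x) j))
      rw [h6]
      exact h5
    · have hU : {y : Fin n → ℝ | 0 < tot y} ∈ 𝓝 x :=
        (isOpen_lt continuous_const tot_cont).mem_nhds h0
      have key : ContinuousWithinAt (fun y => f (rad y) j) (coneSet K ∩ {y | 0 < tot y}) x := by
        refine ContinuousWithinAt.comp (t := rea K) (g := fun y => f y j)
          (hc (rad x) (rad_mem hx h0.ne')) (rad_cont h0.ne').continuousWithinAt ?_
        intro y hy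
        exact rad_mem hy.1 (ne_of_gt hy.2)
      exact (tot_cont.continuousAt.continuousWithinAt).mul
        ((continuousWithinAt_inter hU).1 key)

theorem rad_zero {x : Fin n → ℝ} {i : Fin n} (h : x i = 0) : rad x i = 0 := by
  simp only [rad, Pi.smul_apply, smul_eq_mul, h, mul_zero]

theorem mem_goodP {K : Finset (Finset (Fin n))} {f : (Fin n → ℝ) → (Fin r → ℝ)}
    {p : Finset (Fin n) × Finset (Fin n)} : p ∈ goodP K f ↔
    p.1 ∈ K ∧ p.2 ∈ K ∧ Disjoint p.1 p.2 ∧
    ∀ x ∈ rea K, ∀ y ∈ rea K, (∀ i, i ∉ p.1 → x i = 0) → (∀ i, i ∉ p.2 → y i = 0) →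
      f x ≠ f y := by
  classical
  unfold goodP
  rw [mem_filter]
  exact ⟨fun h => h.2, fun h => ⟨mem_univ _, h⟩⟩

theorem isPC {K : Finset (Finset (Fin n))} (f : (Fin n → ℝ) → (Fin r → ℝ)) (hK : IsCx K) :
    IsPC (goodP K f) := by
  refine ⟨fun p hp => (mem_goodP.1 hp).2.2.1, fun p hp => ?_, fun p hp σ hσ τ hτ => ?_⟩
  · obtain ⟨h1, h2, h3, h4⟩ := mem_goodP.1 hp
    exact mem_goodP.2 ⟨h2, h1, h3.symm, fun x hx y hy hxs hys => (h4 y hy x hx hys hxs).symm⟩
  · obtain ⟨h1, h2, h3, h4⟩ := mem_goodP.1 hp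
    exact mem_goodP.2 ⟨hK.2 _ h1 _ hσ, hK.2 _ h2 _ hτ, disjoint_of_subset_left hσ
      (disjoint_of_subset_right hτ h3), fun x hx y hy hxs hys => h4 x hx y hy
      (fun i hi => hxs i fun h => hi (hσ h)) (fun i hi => hys i fun h => hi (hτ h))⟩

end PSPOdd

open PSPOdd Pool.Agent.W289.KS in
theorem sPOdd : SPOdd := by
  intro n r K f hK hf
  refine ⟨isPC f hK, fun x => F f (pp x) - F f (pp (-x)), ?_, ?_⟩
  · refine ContinuousOn.sub ?_ ?_
    · refine (F_cont hf).comp pp_cont.continuousOn (fun x hx => ?_)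
      exact ⟨pp_nonneg x, _, (mem_goodP.1 hx.2).1, fun i hi => pp_zero hi⟩
    · refine (F_cont hf).comp (pp_cont.comp continuous_neg).continuousOn (fun x hx => ?_)
      exact ⟨pp_nonneg (-x), _, (mem_goodP.1 hx.2).2.1, fun i hi => pn_zero hi⟩
  · intro x hx
    refine ⟨by simp only [neg_neg, neg_sub], ?_⟩
    intro h0
    have h0' : F f (pp x) = F f (pp (-x)) := sub_eq_zero.mp h0
    obtain ⟨g1, g2, -, g4⟩ := mem_goodP.1 hx.2
    have c1 : pp x ∈ coneSet K := ⟨pp_nonneg x, _, g1, fun i hi => pp_zero hi⟩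
    have c2 : pp (-x) ∈ coneSet K := ⟨pp_nonneg (-x), _, g2, fun i hi => pn_zero hi⟩
    have h1 : tot (pp x) = tot (pp (-x)) := by
      have := congrFun h0' 0
      rwa [F_zero, F_zero] at this
    have h2 : tot (pp x) + tot (pp (-x)) = 1 := by
      unfold tot
      rw [← sum_add_distrib, ← hx.1]
      exact sum_congr rfl fun i _ => pp_add x i
    have h3 : tot (pp x) ≠ 0 := by
      intro h
      rw [← h1, h] at h2
      norm_num at h2
    refine g4 _ (rad_mem c1 h3) _ (rad_mem c2 (h1 ▸ h3)) (fun i hi => rad_zero (pp_zero hi))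
      (fun i hi => rad_zero (pn_zero hi)) ?_
    funext j
    have h4 := congrFun h0' j.succ
    rw [F_succ, F_succ, ← h1] at h4
    exact mul_left_cancel₀ h3 h4

end Pool.Agent.H29.HK
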