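import Pool.Agent.H29.HK.Final2
import Pool.Agent.H29.HK.Asm6
import Pool.Agent.H29.HK.P_SPFan
import Pool.Agent.H29.HK.P_SPOdd
import Pool.Agent.H29.HK.P_SPDual

/-!
# The topological crossing lemma
-/

set_option autoImplicit false

namespace Pool.Agent.H29.HK

open Finset MvPolynomial Pool.Agent.W555.KS Pool.Agent.W289.KS

theorem cross' (n q : ℕ) (hq : 1 ≤ q)
    (K : Finset (Finset (Fin n))) (f : (Fin n → ℝ) → (Fin (2 * q) → ℝ)) (hK : IsCx K)
    (hf : ContinuousOn f (rea K))
    (h : (q + 2) ^ 2 * (K.filter (fun σ => σ.card = q)).card ≤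
      (q + 1) * (K.filter (fun σ => σ.card = q + 1)).card) :
    2 * (q + 1) ^ (q + 1) * (K.filter (fun σ => σ.card = q + 1)).card ^ (q + 2) ≤
      (q + 2) ^ (2 * q + 3) * (K.filter (fun σ => σ.card = q)).card ^ (q + 1) *
        (badP q K f).card :=
  cross sPFan sPOdd sPDual oddP' n q hq K f hK hf h

end Pool.Agent.H29.HK
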