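import Pool.Agent.H29.HK.Defs

set_option autoImplicit false

namespace Pool.Agent.H29.HK

open Finset Pool.Agent.W555.KS

/-- the chords `uv` and `wx` of a convex polygon with the vertices `0, ..., n-1` cross -/
def Chords {n : ℕ} (u v w x : Fin n) : Prop :=
  (min u v < min w x ∧ min w x < max u v ∧ max u v < max w x) ∨
    (min w x < min u v ∧ min u v < max w x ∧ max w x < max u v)

namespace PAltPair

/-- the elements of even rank of a four element set -/
theorem even4 {n : ℕ} {a b c d : Fin n} (h1 : a < b) (h2 : b < c) (h3 : c < d) :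
    evenPart ({a, b, c, d} : Finset (Fin n)) = {a, c} ∧
      oddPart ({a, b, c, d} : Finset (Fin n)) = {b, d} := by
  have f0 : ({a, b, c, d} : Finset (Fin n)).filter (fun w => w < a) = ∅ := by
    ext w
    simp only [mem_filter, mem_insert, mem_singleton, notMem_empty, iff_false]
    rintro ⟨rfl | rfl | rfl | rfl, h⟩ <;> omega
  have f1 : ({a, b, c, d} : Finset (Fin n)).filter (fun w => w < b) = {a} := by
    ext w
    simp only [mem_filter, mem_insert, mem_singleton]
    constructor
    · rintro ⟨rfl | rfl | rfl | rfl, h⟩ <;> first | rfl | omega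
    · rintro rfl
      exact ⟨Or.inl rfl, h1⟩
  have f2 : ({a, b, c, d} : Finset (Fin n)).filter (fun w => w < c) = {a, b} := by
    ext w
    simp only [mem_filter, mem_insert, mem_singleton]
    constructor
    · rintro ⟨rfl | rfl | rfl | rfl, h⟩
      · exact Or.inl rfl
      · exact Or.inr rfl
      · omega
      · omega
    · rintro (rfl | rfl)
      · exact ⟨Or.inl rfl, by omega⟩
      · exact ⟨Or.inr (Or.inl rfl), h2⟩
  have f3 : ({a, b, c, d} : Finset (Fin n)).filter (fun w => w < d) = {a, b, c} := by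
    ext w
    simp only [mem_filter, mem_insert, mem_singleton]
    constructor
    · rintro ⟨rfl | rfl | rfl | rfl, h⟩
      · exact Or.inl rfl
      · exact Or.inr (Or.inl rfl)
      · exact Or.inr (Or.inr rfl)
      · omega
    · rintro (rfl | rfl | rfl)
      · exact ⟨Or.inl rfl, by omega⟩
      · exact ⟨Or.inr (Or.inl rfl), by omega⟩
      · exact ⟨Or.inr (Or.inr (Or.inl rfl)), h3⟩
  have hab : a ≠ b := h1.ne
  have hbc : b ≠ c := h2.ne
  have hac : a ≠ c := (h1.trans h2).ne
  have c1 : ({a} : Finset (Fin n)).card = 1 := card_singleton a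
  have c2 : ({a, b} : Finset (Fin n)).card = 2 := card_pair hab
  have c3 : ({a, b, c} : Finset (Fin n)).card = 3 := by
    rw [card_insert_of_notMem (by simp [hab, hac]), card_pair hbc]
  have e0 : Even (({a, b, c, d} : Finset (Fin n)).filter (fun w => w < a)).card := by
    rw [f0]; simp
  have e1 : ¬ Even (({a, b, c, d} : Finset (Fin n)).filter (fun w => w < b)).card := by
    rw [f1, c1]; decide
  have e2 : Even (({a, b, c, d} : Finset (Fin n)).filter (fun w => w < c)).card := by
    rw [f2, c2]; decide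
  have e3 : ¬ Even (({a, b, c, d} : Finset (Fin n)).filter (fun w => w < d)).card := by
    rw [f3, c3]; decide
  constructor
  · unfold evenPart
    ext w
    rw [mem_filter]
    constructor
    · rintro ⟨hw, he⟩
      simp only [mem_insert, mem_singleton] at hw
      rcases hw with rfl | rfl | rfl | rfl
      · simp
      · exact absurd he e1
      · simp
      · exact absurd he e3
    · intro hw
      simp only [mem_insert, mem_singleton] at hw
      rcases hw with rfl | rfl
      · exact ⟨by simp, e0⟩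
      · exact ⟨by simp, e2⟩
  · unfold oddPart
    ext w
    rw [mem_filter]
    constructor
    · rintro ⟨hw, he⟩
      simp only [mem_insert, mem_singleton] at hw
      rcases hw with rfl | rfl | rfl | rfl
      · exact absurd e0 he
      · simp
      · exact absurd e2 he
      · simp
    · intro hw
      simp only [mem_insert, mem_singleton] at hw
      rcases hw with rfl | rfl
      · exact ⟨by simp, e1⟩
      · exact ⟨by simp, e3⟩

/-- `alt` is symmetric -/
theorem alt_swap {n : ℕ} (σ τ : Finset (Fin n)) : alt σ τ = alt τ σ := by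
  unfold alt
  rw [union_comm τ σ]
  apply if_congr _ rfl rfl
  constructor
  · rintro (⟨h, h'⟩ | ⟨h, h'⟩)
    · exact Or.inr ⟨h', h⟩
    · exact Or.inl ⟨h', h⟩
  · rintro (⟨h, h'⟩ | ⟨h, h'⟩)
    · exact Or.inr ⟨h', h⟩
    · exact Or.inl ⟨h', h⟩

theorem alt_eq_zero {n : ℕ} {σ τ : Finset (Fin n)} {a b c d : Fin n} (h1 : a < b) (h2 : b < c)
    (h3 : c < d) (hU : σ ∪ τ = {a, b, c, d})
    (h : (a ∈ σ ∧ b ∈ σ) ∨ (a ∈ σ ∧ d ∈ σ) ∨ (a ∈ τ ∧ b ∈ τ) ∨ (a ∈ τ ∧ d ∈ τ)) :
    alt σ τ = 0 := by
  unfold alt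
  rw [hU, (even4 h1 h2 h3).1, (even4 h1 h2 h3).2, if_neg]
  rintro (⟨rfl, rfl⟩ | ⟨rfl, rfl⟩)
  · simp only [mem_insert, mem_singleton] at h
    omega
  · simp only [mem_insert, mem_singleton] at h
    omega

theorem alt_eq_one {n : ℕ} {σ τ : Finset (Fin n)} {a b c d : Fin n} (h1 : a < b) (h2 : b < c)
    (h3 : c < d) (hU : σ ∪ τ = {a, b, c, d}) (hs : σ = {a, c}) (ht : τ = {b, d}) :
    alt σ τ = 1 := by
  unfold alt
  rw [hU, (even4 h1 h2 h3).1, (even4 h1 h2 h3).2, if_pos (Or.inl ⟨hs, ht⟩)]

theorem chords_swap {n : ℕ} (u v w x : Fin n) : Chords u v w x ↔ Chords w x u v := by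
  unfold Chords
  exact Or.comm

theorem chords_comm_left {n : ℕ} (u v w x : Fin n) : Chords u v w x ↔ Chords v u w x := by
  unfold Chords
  rw [min_comm u v, max_comm u v]

theorem chords_comm_right {n : ℕ} (u v w x : Fin n) : Chords u v w x ↔ Chords u v x w := by
  unfold Chords
  rw [min_comm w x, max_comm w x]

open Classical in
/-- the ordered case -/
theorem main1 {n : ℕ} {u v w x : Fin n} (h1 : u < v) (h2 : w < x) (h3 : u < w) (h5 : v ≠ w)
    (h6 : v ≠ x) :
    alt ({u, v} : Finset (Fin n)) {w, x} = if Chords u v w x then 1 else 0 := by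
  have hC : Chords u v w x ↔ (w < v ∧ v < x) := by
    unfold Chords
    rw [min_eq_left h1.le, max_eq_right h1.le, min_eq_left h2.le, max_eq_right h2.le]
    constructor
    · rintro (⟨_, h, h'⟩ | ⟨h, _⟩)
      · exact ⟨h, h'⟩
      · exact absurd h (not_lt.2 h3.le)
    · rintro ⟨h, h'⟩
      exact Or.inl ⟨h3, h, h'⟩
  rcases lt_or_gt_of_ne h5 with hvw | hvw
  · -- u < v < w < x
    rw [if_neg (by rw [hC]; rintro ⟨h, _⟩; exact absurd h (not_lt.2 hvw.le))]
    refine alt_eq_zero h1 hvw h2 ?_ (Or.inl ⟨by simp, by simp⟩)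
    ext z
    simp only [mem_union, mem_insert, mem_singleton]
    tauto
  · rcases lt_or_gt_of_ne h6 with hvx | hvx
    · -- u < w < v < x
      rw [if_pos (hC.2 ⟨hvw, hvx⟩)]
      refine alt_eq_one h3 hvw hvx ?_ rfl rfl
      ext z
      simp only [mem_union, mem_insert, mem_singleton]
      tauto
    · -- u < w < x < v
      rw [if_neg (by rw [hC]; rintro ⟨_, h⟩; exact absurd h (not_lt.2 hvx.le))]
      refine alt_eq_zero h3 h2 hvx ?_ (Or.inr (Or.inl ⟨by simp, by simp⟩))
      ext z
      simp only [mem_union, mem_insert, mem_singleton]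
      tauto

open Classical in
/-- both pairs ordered -/
theorem main2 {n : ℕ} {u v w x : Fin n} (h1 : u < v) (h2 : w < x) (h3 : u ≠ w) (h4 : u ≠ x)
    (h5 : v ≠ w) (h6 : v ≠ x) :
    alt ({u, v} : Finset (Fin n)) {w, x} = if Chords u v w x then 1 else 0 := by
  rcases lt_or_gt_of_ne h3 with h | h
  · exact main1 h1 h2 h h5 h6
  · rw [alt_swap, main1 h2 h1 h (Ne.symm h4) (Ne.symm h6)]
    exact if_congr (chords_swap w x u v) rfl rfl

open Classical in
/-- the first pair ordered -/
theorem main3 {n : ℕ} {u v w x : Fin n} (h1 : u < v) (h2 : w ≠ x) (h3 : u ≠ w) (h4 : u ≠ x)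
    (h5 : v ≠ w) (h6 : v ≠ x) :
    alt ({u, v} : Finset (Fin n)) {w, x} = if Chords u v w x then 1 else 0 := by
  rcases lt_or_gt_of_ne h2 with h | h
  · exact main2 h1 h h3 h4 h5 h6
  · rw [pair_comm w x, main2 h1 h h4 h3 h6 h5]
    exact if_congr (chords_comm_right u v x w) rfl rfl

end PAltPair

open Classical in
theorem alt_pair {n : ℕ} (u v w x : Fin n) (h1 : u ≠ v) (h2 : w ≠ x) (h3 : u ≠ w) (h4 : u ≠ x)
    (h5 : v ≠ w) (h6 : v ≠ x) :
    alt ({u, v} : Finset (Fin n)) {w, x} = if Chords u v w x then 1 else 0 := by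
  rcases lt_or_gt_of_ne h1 with h | h
  · exact PAltPair.main3 h h2 h3 h4 h5 h6
  · rw [pair_comm u v, PAltPair.main3 h h2 h5 h6 h3 h4]
    exact if_congr (PAltPair.chords_comm_left v u w x) rfl rfl

end Pool.Agent.H29.HK
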