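import Pool.Agent.H29.HK.Defs2

set_option autoImplicit false

namespace Pool.Agent.H29.HK

open Finset MvPolynomial Pool.Agent.W555.KS

namespace PSHalf

theorem compl_mem {n c : ℕ} {r : Fin n → Fin c} {t : Fin c → ℕ} (hr : ∀ j, cls r j = 2 * t j)
    {I : Finset (Fin n)} (hI : I ∈ tsets r t) : Iᶜ ∈ tsets r t := by
  rw [tsets, mem_filter] at hI ⊢
  refine ⟨mem_univ _, fun j => ?_⟩
  have h1 : (univ.filter (fun v => r v = j)) =
      I.filter (fun v => r v = j) ∪ Iᶜ.filter (fun v => r v = j) := by
    rw [← filter_union, union_compl]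
  have h2 : Disjoint (I.filter (fun v => r v = j)) (Iᶜ.filter (fun v => r v = j)) :=
    disjoint_filter_filter disjoint_compl_right
  have h3 := hr j
  unfold cls at h3
  rw [h1, card_union_of_disjoint h2, hI.2 j] at h3
  omega

end PSHalf

theorem sHalf (ht : STypes) : SHalf := by
  intro m c r t i0 hr
  have h1 : ((tsets r t).filter (fun I => i0 ∉ I)).card =
      ((tsets r t).filter (fun I => ¬ i0 ∉ I)).card := by
    refine Finset.card_nbij' (fun I => Iᶜ) (fun I => Iᶜ) ?_ ?_ ?_ ?_
    · intro I hI
      rw [mem_coe, mem_filter] at hI ⊢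
      refine ⟨PSHalf.compl_mem hr hI.1, ?_⟩
      rw [not_not, mem_compl]
      exact hI.2
    · intro I hI
      rw [mem_coe, mem_filter] at hI ⊢
      refine ⟨PSHalf.compl_mem hr hI.1, ?_⟩
      rw [mem_compl]
      exact hI.2
    · intro I _
      exact compl_compl I
    · intro I _
      exact compl_compl I
  have h2 := Finset.card_filter_add_card_filter_not (s := tsets r t) (fun I => i0 ∉ I)
  have h3 := ht (2 * m) c r t
  have h4 : ∏ j, (cls r j).choose (t j) = ∏ j, (2 * t j).choose (t j) :=
    Finset.prod_congr rfl fun j _ => by rw [hr j]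
  rw [h4] at h3
  rw [← h3, ← h2, ← h1]
  ring

end Pool.Agent.H29.HK
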